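import Mathlib

/-!
# Factorisation of idempotent matrices
-/

set_option autoImplicit false
namespace Pool.Agent.H76U
open Matrix Module

variable {ι : Type*} [Fintype ι] [DecidableEq ι] {K : Type*} [Field K]

theorem idem_factor {p : Matrix ι ι K} (hp : p * p = p) :
    ∃ (P : Matrix ι (Fin p.rank) K) (Q : Matrix (Fin p.rank) ι K), p = P * Q ∧ Q * P = 1 := by
  set W := LinearMap.range p.mulVecLin with hW
  have hfin : finrank K W = p.rank := rfl
  set bs : Basis (Fin p.rank) K W := Module.finBasisOfFinrankEq K W hfin with hbs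
  set P : Matrix ι (Fin p.rank) K := Matrix.of fun i j => (bs j).1 i with hP
  set Q : Matrix (Fin p.rank) ι K :=
    Matrix.of fun j i => bs.repr ⟨p *ᵥ Pi.single i 1, ⟨Pi.single i 1, rfl⟩⟩ j with hQ
  have hpb : ∀ j, p *ᵥ (bs j).1 = (bs j).1 := by
    intro j
    obtain ⟨z, hz⟩ := (bs j).2
    rw [← hz, Matrix.mulVecLin_apply, Matrix.mulVec_mulVec, hp]
  have hPQ : p = P * Q := by
    ext i k
    rw [Matrix.mul_apply]
    have h1 := congrArg Subtype.val (bs.sum_repr ⟨p *ᵥ Pi.single k 1, ⟨Pi.single k 1, rfl⟩⟩)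
    rw [Submodule.coe_sum] at h1
    have h2 := congrFun h1 i
    rw [Finset.sum_apply] at h2
    have h3 : (p *ᵥ Pi.single k 1) i = p i k := by
      rw [Matrix.mulVec_single_one]; rfl
    rw [← h3]
    change (p *ᵥ Pi.single k 1) i = _
    have h4 : (⟨p *ᵥ Pi.single k 1, ⟨Pi.single k 1, rfl⟩⟩ : W).1 = p *ᵥ Pi.single k 1 := rfl
    rw [← h4, ← h2]
    apply Finset.sum_congr rfl
    intro j _
    simp only [hP, hQ, Matrix.of_apply, Submodule.coe_smul, Pi.smul_apply, smul_eq_mul]
    rw [mul_comm]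
  refine ⟨P, Q, hPQ, ?_⟩
  -- `P` is injective
  have hinj : ∀ v : Fin p.rank → K, P *ᵥ v = 0 → v = 0 := by
    intro v hv
    have h1 : ∑ j, v j • bs j = 0 := by
      apply Subtype.ext
      rw [Submodule.coe_sum]
      funext i
      have h2 := congrFun hv i
      rw [Matrix.mulVec, dotProduct] at h2
      rw [Finset.sum_apply]
      simp only [Submodule.coe_smul, Pi.smul_apply, smul_eq_mul]
      have h5 : ((0 : W) : ι → K) i = (0 : ι → K) i := rfl
      rw [h5, ← h2]
      apply Finset.sum_congr rfl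
      intro j _
      simp only [hP, Matrix.of_apply]
      ring
    have h2 := Fintype.linearIndependent_iff.1 bs.linearIndependent v h1
    funext j
    exact h2 j
  have hpP : p * P = P := by
    ext i j
    have := congrFun (hpb j) i
    rw [Matrix.mul_apply]
    rw [Matrix.mulVec, dotProduct] at this
    exact this
  set R : Matrix (Fin p.rank) (Fin p.rank) K := Q * P - 1 with hR
  have h3 : P * R = 0 := by
    rw [hR, Matrix.mul_sub, ← Matrix.mul_assoc, ← hPQ, hpP, Matrix.mul_one, sub_self]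
  rw [← sub_eq_zero, ← hR]
  ext i j
  have h4 := hinj (fun k => R k j) (by
    funext k
    have := congrFun (congrFun h3 k) j
    rw [Matrix.mul_apply] at this
    rw [Matrix.mulVec, dotProduct]
    exact this)
  exact congrFun h4 i

/-- determinant of `1 + (t - 1) p` -/
theorem det_one_add_idem {p : Matrix ι ι K} (hp : p * p = p) (t : K) :
    (1 + (t - 1) • p).det = t ^ p.rank := by
  obtain ⟨P, Q, hPQ, hQP⟩ := idem_factor hp
  have h1 : 1 + (t - 1) • p = 1 + ((t - 1) • P) * Q := by
    rw [Matrix.smul_mul, ← hPQ]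
  rw [h1, Matrix.det_one_add_mul_comm, Matrix.mul_smul, hQP]
  have h2 : (1 : Matrix (Fin p.rank) (Fin p.rank) K) + (t - 1) • 1 = t • 1 := by
    rw [sub_smul, one_smul]; abel
  rw [h2, Matrix.det_smul, Matrix.det_one, mul_one, Fintype.card_fin]

/-- determinant on the range of an idempotent -/
theorem det_on {p : Matrix ι ι K} {n : ℕ} {P : Matrix ι (Fin n) K} {Q : Matrix (Fin n) ι K}
    (hPQ : p = P * Q) (hQP : Q * P = 1) {x : Matrix ι ι K} (hx : x * p = p * x) :
    (1 - p + x * p).det = (Q * x * P).det := by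
  have h1 : x * p = P * (Q * x * P) * Q := by
    have h2 : P * (Q * x * P) * Q = (P * Q) * x * (P * Q) := by
      simp only [Matrix.mul_assoc]
    have hp : p * p = p := by
      rw [hPQ, Matrix.mul_assoc, ← Matrix.mul_assoc Q, hQP, Matrix.one_mul]
    rw [h2, ← hPQ, ← hx, mul_assoc, hp]
  have h3 : 1 - p + x * p = 1 + (P * (Q * x * P - 1)) * Q := by
    rw [h1, Matrix.mul_sub, Matrix.sub_mul, Matrix.mul_one, ← hPQ]
    abel
  rw [h3, Matrix.det_one_add_mul_comm, ← Matrix.mul_assoc, hQP, Matrix.one_mul]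
  congr 1
  abel

end Pool.Agent.H76U
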