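import Pool.Agent.Lib.H76RM.Core3

/-!
# Lie algebras and groups of similitudes with components of symplectic and unitary type

`e b` are orthogonal projectors of `V`, permuted by the involution `bar` under taking adjoints:
`bar b = b` for symplectic components, `bar b ≠ b` for unitary ones.
-/

set_option autoImplicit false
set_option linter.unusedSectionVars false
namespace Pool.Agent.H76U
open Module Pool.Agent.H53Toric

variable {K : Type*} [Field K] {V : Type*} [AddCommGroup V] [Module K V]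
variable {B : Type*} [Fintype B] [DecidableEq B] {Γ : Type*} [Group Γ]

/-- `v ↦ ω(v, w) u` -/
def tw (ω : V →ₗ[K] V →ₗ[K] K) (u w : V) : Module.End K V := (ω.flip w).smulRight u

theorem tw_apply (ω : V →ₗ[K] V →ₗ[K] K) (u w v : V) : tw ω u w v = ω v w • u := rfl

/-- the algebra generated by the matrix coefficients -/
def coef (ω : V →ₗ[K] V →ₗ[K] K) (r : Γ →* Module.End K V) : Subalgebra K (Γ → K) :=
  Algebra.adjoin K (Set.range fun p : V × V => fun x => ω (r x p.1) p.2)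

/-- the monoid generated by the one parameter groups `t ^ h` -/
def hmon (𝓗 : Set (Module.End K V)) : Submonoid (Module.End K V) :=
  Submonoid.closure {m | ∃ h ∈ 𝓗, ∃ t : K, t ≠ 0 ∧ m = 1 + (t - 1) • h}

structure Big (ω : V →ₗ[K] V →ₗ[K] K) (e : B → Module.End K V) (bar : B → B)
    (g : Submodule K (Module.End K V)) (r : Γ →* Module.End K V)
    (𝓗 : Set (Module.End K V)) : Prop where
  alt : ∀ v, ω v v = 0
  nd : ∀ u, (∀ w, ω u w = 0) → u = 0
  lie : ∀ A ∈ g, ∀ C ∈ g, A * C - C * A ∈ g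
  skew : ∀ A ∈ g, ∀ v w, ω (A v) w = - ω v (A w)
  sim : ∀ x, ∃ c : K, c ≠ 0 ∧ ∀ v w, ω (r x v) (r x w) = c * ω v w
  conj : ∀ x, ∀ A ∈ g, r x * A * r x⁻¹ ∈ g
  idem : ∀ b, e b * e b = e b
  orth : ∀ b c, b ≠ c → e b * e c = 0
  barbar : ∀ b, bar (bar b) = b
  self : ∀ b v w, ω (e b v) w = ω v (e (bar b) w)
  gcomm : ∀ b, ∀ A ∈ g, e b * A = A * e b
  rcomm : ∀ b x, e b * r x = r x * e b
  prime : ∀ p ∈ coef ω r, ∀ q ∈ coef ω r, (∀ x, p x * q x = 0) → (∀ x, p x = 0) ∨ ∀ x, q x = 0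
  exp : ∀ A ∈ g, A * A = 0 → ∀ a : K, ∃ x, r x = 1 + a • A
  hidem : ∀ h ∈ 𝓗, h * h = h
  hcomm : ∀ h ∈ 𝓗, ∀ b, e b * h = h * e b
  hadj : ∀ h ∈ 𝓗, ∀ v w, ω (h v) w + ω v (h w) = ω v w
  hexp : ∀ h ∈ 𝓗, ∀ t : K, t ≠ 0 → ∃ x, r x = 1 + (t - 1) • h
  hnon : ∀ h ∈ 𝓗, ∀ b, bar b ≠ b →
    (∃ u w, e b u = u ∧ e (bar b) w = w ∧ u ≠ 0 ∧ w ≠ 0 ∧ ω u w = 0) →
    h * e b ≠ 0 ∧ h * e b ≠ e b
  falt : ∀ u v : V, (∑ b, e b) u = u → (∑ b, e b) v = v → (∀ m ∈ hmon 𝓗, ω (m v) u = 0) →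
    ∀ b, e b v = 0 ∨ e (bar b) u = 0

variable {ω : V →ₗ[K] V →ₗ[K] K} {e : B → Module.End K V} {bar : B → B}
    {g : Submodule K (Module.End K V)} {r : Γ →* Module.End K V} {𝓗 : Set (Module.End K V)}

namespace Big

variable (h : Big ω e bar g r 𝓗)
include h

theorem anti (v w : V) : ω v w = - ω w v := H76RM.anti0 h.alt v w

theorem nd2 {u : V} (hu : ∀ w, ω w u = 0) : u = 0 :=
  h.nd u fun w => by rw [h.anti, hu, neg_zero]

theorem idem' (b : B) (v : V) : e b (e b v) = e b v := by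
  have := congrArg (fun f : Module.End K V => f v) (h.idem b)
  exact this

theorem orth' {b c : B} (hbc : b ≠ c) (v : V) : e b (e c v) = 0 := by
  have := congrArg (fun f : Module.End K V => f v) (h.orth b c hbc)
  exact this

theorem orthf {b c : B} (hbc : b ≠ c) {v : V} (hv : e c v = v) : e b v = 0 := by
  rw [← hv]; exact h.orth' hbc v

theorem bar_inj {b c : B} (hbc : bar b = bar c) : b = c := by
  rw [← h.barbar b, hbc, h.barbar]

theorem bar_ne {b c : B} (hbc : b ≠ bar c) : bar b ≠ c := by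
  intro h1
  exact hbc (by rw [← h1, h.barbar])

theorem self' (b : B) (v w : V) : ω (e (bar b) v) w = ω v (e b w) := by
  rw [h.self, h.barbar]

theorem ecomm {A : Module.End K V} (hA : A ∈ g) (b : B) (v : V) : e b (A v) = A (e b v) := by
  have := congrArg (fun f : Module.End K V => f v) (h.gcomm b A hA)
  exact this

theorem ercomm (x : Γ) (b : B) (v : V) : e b (r x v) = r x (e b v) := by
  have := congrArg (fun f : Module.End K V => f v) (h.rcomm b x)
  exact this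

theorem ehcomm {k : Module.End K V} (hk : k ∈ 𝓗) (b : B) (v : V) : e b (k v) = k (e b v) := by
  have := congrArg (fun f : Module.End K V => f v) (h.hcomm k hk b)
  exact this

theorem fixA {A : Module.End K V} (hA : A ∈ g) {b : B} {v : V} (hv : e b v = v) :
    e b (A v) = A v := by
  rw [h.ecomm hA, hv]

theorem fixr (x : Γ) {b : B} {v : V} (hv : e b v = v) : e b (r x v) = r x v := by
  rw [h.ercomm, hv]

theorem fixh {k : Module.End K V} (hk : k ∈ 𝓗) {b : B} {v : V} (hv : e b v = v) :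
    e b (k v) = k v := by
  rw [h.ehcomm hk, hv]

/-- `V_b` is orthogonal to `V_c` unless `c = bar b` -/
theorem perp {b c : B} (hbc : c ≠ bar b) {v w : V} (hv : e b v = v) (hw : e c w = w) :
    ω v w = 0 := by
  rw [← hv, h.self, h.orthf (Ne.symm hbc) hw, map_zero]

theorem fsum {b : B} {v : V} (hv : e b v = v) : (∑ c, e c) v = v := by
  rw [LinearMap.sum_apply, Finset.sum_eq_single b]
  · exact hv
  · intro c _ hcb
    exact h.orthf hcb hv
  · intro hb
    exact absurd (Finset.mem_univ b) hb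

theorem nd' {b : B} {u : V} (hb : e b u = u) (hu : ∀ w, e (bar b) w = w → ω u w = 0) :
    u = 0 := by
  apply h.nd
  intro w
  rw [← hb, h.self]
  exact hu _ (h.idem' _ w)

theorem rr (x : Γ) (v : V) : r x (r x⁻¹ v) = v := by
  have h1 : r x * r x⁻¹ = 1 := by rw [← map_mul, mul_inv_cancel, map_one]
  have := congrArg (fun f : Module.End K V => f v) h1
  exact this

theorem rr' (x : Γ) (v : V) : r x⁻¹ (r x v) = v := by
  have h1 : r x⁻¹ * r x = 1 := by rw [← map_mul, inv_mul_cancel, map_one]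
  have := congrArg (fun f : Module.End K V => f v) h1
  exact this

theorem rmul (x y : Γ) (v : V) : r (x * y) v = r x (r y v) := by
  rw [map_mul]; rfl

/-- elements of the monoid come from the group -/
theorem hmon_mem {m : Module.End K V} (hm : m ∈ hmon 𝓗) : ∃ x, r x = m := by
  induction hm using Submonoid.closure_induction with
  | mem m hm =>
    obtain ⟨k, hk, t, ht, rfl⟩ := hm
    exact h.hexp k hk t ht
  | one => exact ⟨1, map_one r⟩
  | mul a b _ _ ha hb =>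
    obtain ⟨x, hx⟩ := ha
    obtain ⟨y, hy⟩ := hb
    exact ⟨x * y, by rw [map_mul, hx, hy]⟩

/-- `falt` for the group -/
theorem faltr {u v : V} (hu : (∑ b, e b) u = u) (hv : (∑ b, e b) v = v)
    (hx : ∀ x, ω (r x v) u = 0) (b : B) : e b v = 0 ∨ e (bar b) u = 0 := by
  apply h.falt u v hu hv
  intro m hm
  obtain ⟨x, rfl⟩ := h.hmon_mem hm
  exact hx x

/-- nonvanishing of matrix coefficients -/
theorem ex {b : B} {u w : V} (hu : e b u = u) (hw : e (bar b) w = w) (hu0 : u ≠ 0)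
    (hw0 : w ≠ 0) : ∃ x, ω (r x u) w ≠ 0 := by
  by_contra hcon
  push Not at hcon
  rcases h.faltr (h.fsum hw) (h.fsum hu) hcon b with h1 | h1
  · exact hu0 (by rw [← hu, h1])
  · exact hw0 (by rw [← hw, h1])

theorem ex' {b : B} {u w : V} (hu : e b u = u) (hw : e (bar b) w = w) (hu0 : u ≠ 0)
    (hw0 : w ≠ 0) : ∃ x, ω u (r x w) ≠ 0 := by
  obtain ⟨x, hx⟩ := h.ex (b := bar b) (u := w) (w := u) hw (by rw [h.barbar]; exact hu) hw0 hu0
  refine ⟨x, ?_⟩
  rw [h.anti]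
  exact neg_ne_zero.2 hx

/-- double bracket -/
theorem dbl {A C : Module.End K V} (hA : A ∈ g) (hC : C ∈ g) :
    A * (A * C - C * A) - (A * C - C * A) * A ∈ g := h.lie A hA _ (h.lie A hA C hC)

theorem cf (u w : V) : (fun x => ω (r x u) w) ∈ coef ω r :=
  Algebra.subset_adjoin ⟨(u, w), rfl⟩

theorem cf' (u w : V) : (fun x => ω u (r x w)) ∈ coef ω r := by
  have h1 : (fun x => ω u (r x w)) = -(fun x => ω (r x w) u) := by
    funext x
    exact h.anti _ _
  rw [h1]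
  exact neg_mem (Algebra.subset_adjoin ⟨(w, u), rfl⟩)

theorem prime2 {p q : Γ → K} (hp : p ∈ coef ω r) (hq : q ∈ coef ω r) (hp0 : ∃ x, p x ≠ 0)
    (hq0 : ∃ x, q x ≠ 0) : ∃ x, p x ≠ 0 ∧ q x ≠ 0 := by
  by_contra hcon
  push Not at hcon
  rcases h.prime p hp q hq (fun x => by
    by_cases hx : p x = 0
    · rw [hx, zero_mul]
    · rw [hcon x hx, mul_zero]) with h1 | h1
  · obtain ⟨x, hx⟩ := hp0
    exact hx (h1 x)
  · obtain ⟨x, hx⟩ := hq0
    exact hx (h1 x)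

theorem prime3 {p q s : Γ → K} (hp : p ∈ coef ω r) (hq : q ∈ coef ω r) (hs : s ∈ coef ω r)
    (hp0 : ∃ x, p x ≠ 0) (hq0 : ∃ x, q x ≠ 0) (hs0 : ∃ x, s x ≠ 0) :
    ∃ x, p x ≠ 0 ∧ q x ≠ 0 ∧ s x ≠ 0 := by
  obtain ⟨x, hx1, hx2⟩ := h.prime2 hq hs hq0 hs0
  obtain ⟨y, hy1, hy2⟩ := h.prime2 hp (mul_mem hq hs) hp0 ⟨x, mul_ne_zero hx1 hx2⟩
  exact ⟨y, hy1, left_ne_zero_of_mul hy2, right_ne_zero_of_mul hy2⟩

theorem prime4 {p q s t : Γ → K} (hp : p ∈ coef ω r) (hq : q ∈ coef ω r) (hs : s ∈ coef ω r)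
    (ht : t ∈ coef ω r) (hp0 : ∃ x, p x ≠ 0) (hq0 : ∃ x, q x ≠ 0) (hs0 : ∃ x, s x ≠ 0)
    (ht0 : ∃ x, t x ≠ 0) : ∃ x, p x ≠ 0 ∧ q x ≠ 0 ∧ s x ≠ 0 ∧ t x ≠ 0 := by
  obtain ⟨x, hx1, hx2⟩ := h.prime2 hs ht hs0 ht0
  obtain ⟨y, hy1, hy2, hy3⟩ := h.prime3 hp hq (mul_mem hs ht) hp0 hq0
    ⟨x, mul_ne_zero hx1 hx2⟩
  exact ⟨y, hy1, hy2, left_ne_zero_of_mul hy3, right_ne_zero_of_mul hy3⟩

end Big

end Pool.Agent.H76U
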