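import Pool.Agent.Lib.H76RM.Prime
import Pool.Agent.Lib.H76RM.Mk
import Pool.Agent.Lib.H76U.Base

/-!
# The group of invertible matrices in a Zariski closure
-/

set_option autoImplicit false
set_option linter.unusedSectionVars false
namespace Pool.Agent.H76U
open Module Matrix Pool.Agent.H53Toric MvPolynomial
open Pool.Agent.H76RM (van mem_van subL_subL subL_one ev_ext)

variable {ι : Type*} [Fintype ι] [DecidableEq ι] {K : Type*} [Field K]

theorem zar_inv [Infinite K] {S : Set (Matrix ι ι K)} (hS1 : (1 : Matrix ι ι K) ∈ S)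
    (hS : ∀ a ∈ S, ∀ b ∈ S, a * b ∈ S) {x y : Matrix ι ι K} (hx : x ∈ zar S) (hyx : y * x = 1) :
    y ∈ zar S := by
  have hxy : x * y = 1 := mul_eq_one_comm.1 hyx
  have hpow : ∀ n : ℕ, x ^ n ∈ zar S := by
    intro n
    induction n with
    | zero => rw [pow_zero]; exact subset_zar S hS1
    | succ n ih => rw [pow_succ]; exact zar_mul hS ih hx
  set a : ℕ → Ideal (MvPolynomial (ι × ι) K) := fun n =>
    Ideal.comap (subL (x ^ n)).toRingHom (van S) with ha
  have hmem : ∀ n f, f ∈ a n ↔ ∀ s ∈ S, ev (x ^ n * s) f = 0 := by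
    intro n f
    constructor
    · intro h1 s hs
      rw [← ev_subL]
      exact h1 s hs
    · intro h1 s hs
      have := h1 s hs
      rw [← ev_subL] at this
      exact this
  have hmono : Monotone a := by
    apply monotone_nat_of_le_succ
    intro n f hf
    rw [hmem] at hf ⊢
    intro s hs
    -- `f (x ^ n ·)` vanishes on `S`, hence at `x s`
    have h1 := zar_mul hS hx (subset_zar S hs)
    have h2 := h1 (subL (x ^ n) f) (by
      intro t ht
      rw [ev_subL]
      exact hf t ht)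
    rw [ev_subL] at h2
    rw [pow_succ, mul_assoc]
    exact h2
  obtain ⟨n, hn⟩ := monotone_stabilizes_iff_noetherian.2
    (inferInstance : IsNoetherian (MvPolynomial (ι × ι) K) (MvPolynomial (ι × ι) K))
    ⟨a, hmono⟩
  have hyxn : ∀ k : ℕ, y ^ k * x ^ k = 1 := by
    intro k
    induction k with
    | zero => simp
    | succ k ih =>
      calc y ^ (k + 1) * x ^ (k + 1) = y ^ k * (y * x) * x ^ k := by
            rw [pow_succ y k, pow_succ' x k]; noncomm_ring
        _ = 1 := by rw [hyx, mul_one, ih]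
  intro f hf
  have h1 : subL (y ^ (n + 1)) f ∈ a (n + 1) := by
    rw [hmem]
    intro s hs
    rw [ev_subL, ← mul_assoc, hyxn, one_mul]
    exact hf s hs
  have h2 : a n = a (n + 1) := hn (n + 1) (Nat.le_succ n)
  rw [← h2, hmem] at h1
  have h3 := h1 1 hS1
  rw [ev_subL, mul_one, pow_succ', mul_assoc, hyxn, mul_one] at h3
  exact h3

/-- The group of invertible matrices in the closure. -/
def gam [Infinite K] (S : Set (Matrix ι ι K)) (hS1 : (1 : Matrix ι ι K) ∈ S)
    (hS : ∀ a ∈ S, ∀ b ∈ S, a * b ∈ S) : Subgroup (Matrix.GeneralLinearGroup ι K) where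
  carrier := {x | x.1 ∈ zar S}
  one_mem' := subset_zar S hS1
  mul_mem' := by
    intro a b ha hb
    change (a * b).1 ∈ zar S
    rw [Units.val_mul]
    exact zar_mul hS ha hb
  inv_mem' := by
    intro a ha
    change (a⁻¹).1 ∈ zar S
    exact zar_inv hS1 hS ha (by rw [← Units.val_mul, inv_mul_cancel, Units.val_one])

variable [Infinite K] {S : Set (Matrix ι ι K)} {hS1 : (1 : Matrix ι ι K) ∈ S}
    {hS : ∀ a ∈ S, ∀ b ∈ S, a * b ∈ S}

/-- its inclusion -/
def gin (S : Set (Matrix ι ι K)) (hS1 : (1 : Matrix ι ι K) ∈ S)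
    (hS : ∀ a ∈ S, ∀ b ∈ S, a * b ∈ S) : gam S hS1 hS →* Matrix ι ι K :=
  (Units.coeHom (Matrix ι ι K)).comp (gam S hS1 hS).subtype

theorem gin_mem (x : gam S hS1 hS) : gin S hS1 hS x ∈ zar S := x.2

theorem gin_surj {x y : Matrix ι ι K} (hx : x ∈ zar S) (hxy : x * y = 1) :
    ∃ z : gam S hS1 hS, gin S hS1 hS z = x :=
  ⟨⟨⟨x, y, hxy, mul_eq_one_comm.1 hxy⟩, hx⟩, rfl⟩

theorem gin_surj_det {x : Matrix ι ι K} (hx : x ∈ zar S) (hdet : x.det ≠ 0) :
    ∃ z : gam S hS1 hS, gin S hS1 hS z = x :=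
  gin_surj hx (Matrix.mul_nonsing_inv x (isUnit_iff_ne_zero.2 hdet))

/-- If `S` is a group of matrices, the closure of the group is the closure of `S`. -/
theorem sub_range (hinv : ∀ s ∈ S, ∃ s', s * s' = 1) : S ⊆ Set.range (gin S hS1 hS) := by
  intro s hs
  obtain ⟨s', hs'⟩ := hinv s hs
  obtain ⟨z, hz⟩ := gin_surj (hS1 := hS1) (hS := hS) (subset_zar S hs) hs'
  exact ⟨z, hz⟩

theorem range_sub : Set.range (gin S hS1 hS) ⊆ zar S := by
  rintro _ ⟨z, rfl⟩
  exact gin_mem z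

theorem zar_range (hinv : ∀ s ∈ S, ∃ s', s * s' = 1) :
    zar (Set.range (gin S hS1 hS)) = zar S :=
  Set.Subset.antisymm (zar_subset_zar range_sub) (zar_mono (sub_range hinv))

theorem van_range (hinv : ∀ s ∈ S, ∃ s', s * s' = 1) :
    van (Set.range (gin S hS1 hS)) = van S := by
  ext f
  constructor
  · intro hf s hs
    exact hf s (sub_range hinv hs)
  · intro hf s hs
    exact range_sub hs f hf

/-- Elements of the coefficient algebra are polynomials in the entries. -/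
theorem coef_poly {Γ : Type*} [Group Γ] (R : Γ →* Matrix ι ι K) (J : Matrix ι ι K)
    {p : Γ → K} (hp : p ∈ coef (om J) (H76RM.opr R)) :
    ∃ f : MvPolynomial (ι × ι) K, ∀ x, p x = ev (R x) f := by
  refine Algebra.adjoin_induction (p := fun p _ => ∃ f : MvPolynomial (ι × ι) K,
    ∀ x, p x = ev (R x) f) ?_ ?_ ?_ ?_ hp
  · rintro _ ⟨⟨u, w⟩, rfl⟩
    refine ⟨∑ i, ∑ j, X (i, j) * C (u j * (J *ᵥ w) i), fun x => ?_⟩
    have h1 : ∀ i j, ev (R x) (X (i, j) * C (u j * (J *ᵥ w) i)) =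
        R x i j * (u j * (J *ᵥ w) i) := by
      intro i j
      rw [map_mul, ev_X, ev_C]
    rw [map_sum]
    simp only [map_sum, h1]
    change om J (H76RM.opr R x u) w = _
    rw [H76RM.opr_apply, om_apply, dotProduct]
    apply Finset.sum_congr rfl
    intro i _
    rw [Matrix.mulVec, dotProduct, Finset.sum_mul]
    apply Finset.sum_congr rfl
    intro j _
    ring
  · intro c
    exact ⟨C c, fun x => by rw [ev_C]; rfl⟩
  · rintro a b _ _ ⟨f, hf⟩ ⟨g, hg⟩
    exact ⟨f + g, fun x => by rw [map_add, ← hf, ← hg]; rfl⟩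
  · rintro a b _ _ ⟨f, hf⟩ ⟨g, hg⟩
    exact ⟨f * g, fun x => by rw [map_mul, ← hf, ← hg]; rfl⟩

theorem prime_coef {Γ : Type*} [Group Γ] (R : Γ →* Matrix ι ι K) (J : Matrix ι ι K)
    (hprime : (van (Set.range R)).IsPrime) (p : Γ → K) (hp : p ∈ coef (om J) (H76RM.opr R))
    (q : Γ → K) (hq : q ∈ coef (om J) (H76RM.opr R)) (hpq : ∀ x, p x * q x = 0) :
    (∀ x, p x = 0) ∨ ∀ x, q x = 0 := by
  obtain ⟨f, hf⟩ := coef_poly R J hp
  obtain ⟨g, hg⟩ := coef_poly R J hq
  have h1 : f * g ∈ van (Set.range R) := by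
    rintro _ ⟨x, rfl⟩
    rw [map_mul, ← hf, ← hg, hpq]
  rcases hprime.mem_or_mem h1 with h2 | h2
  · left
    intro x
    rw [hf]
    exact h2 _ ⟨x, rfl⟩
  · right
    intro x
    rw [hg]
    exact h2 _ ⟨x, rfl⟩

end Pool.Agent.H76U
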