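import Pool.Agent.Lib.H76U.Det4
import Pool.Agent.Lib.H76U.Gam

/-!
# The closure contains the preimage of the torus
-/

set_option autoImplicit false
set_option linter.unusedSectionVars false
namespace Pool.Agent.H76U
open Module Matrix Pool.Agent.H53Toric
open Pool.Agent.H76RM (zar_commute zlie_commute)

variable {ι : Type*} [Fintype ι] [DecidableEq ι] {K : Type*} [Field K]
variable {B : Type*} [Fintype B] [DecidableEq B]

theorem group_mem [IsAlgClosed K] [CharZero K] {J : Matrix ι ι K}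
    {DD : Submodule K (Matrix ι ι K)}
    {bar : B → B} {e : B → Matrix ι ι K} (h : Split4 J DD bar e) {S : Set (Matrix ι ι K)}
    (hS1 : (1 : Matrix ι ι K) ∈ S)
    (hS : ∀ a ∈ S, ∀ b ∈ S, a * b ∈ S) (hSD : ∀ s ∈ S, ∀ d ∈ DD, s * d = d * s)
    (hA : ∀ b u w, Core (om J) (fun b => phi (e b)) bar b u w → ∃ X ∈ zlie S,
      (∀ v w, om J (X *ᵥ v) w = - om J v (X *ᵥ w)) ∧ phi X * phi (e b) = tw (om J) u w ∧
      phi X * phi (e (bar b)) = tw (om J) w u ∧
      ∀ c, c ≠ b → c ≠ bar b → phi X * phi (e c) = 0)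
    (hJ : Jᵀ = -J) (hdet : IsUnit J.det) {𝓗 : Set (Matrix ι ι K)}
    (h𝓗 : ∀ x ∈ 𝓗, x ∈ hodgeProj S)
    (hadj : ∀ x ∈ 𝓗, xᵀ * J * x = 0 ∧ xᵀ * J + J * x = J)
    {x : Matrix ι ι K} (hx : x.det ≠ 0) (hxD : ∀ d ∈ DD, x * d = d * x) {c : K} (hc0 : c ≠ 0)
    (hc : xᵀ * J * x = c • J)
    (hchar : ∀ (a : B → ℤ) (a₀ : ℤ), (∀ y ∈ 𝓗, ∑ b, a b * ((y * e b).rank : ℤ) + a₀ = 0) →
      (∏ b, detb (e b) x ^ a b) * c ^ a₀ = 1) : x ∈ zar S := by
  classical
  have hxu : IsUnit x.det := isUnit_iff_ne_zero.2 hx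
  have hinvc : ∀ y y' : Matrix ι ι K, y * y' = 1 → ∀ d, y * d = d * y → y' * d = d * y' := by
    intro y y' hyy d hd
    have hy'y : y' * y = 1 := mul_eq_one_comm.1 hyy
    calc y' * d = y' * d * (y * y') := by rw [hyy, mul_one]
      _ = y' * (d * y) * y' := by noncomm_ring
      _ = y' * (y * d) * y' := by rw [hd]
      _ = (y' * y) * d * y' := by noncomm_ring
      _ = d * y' := by rw [hy'y, one_mul]
  have hxx : x * x⁻¹ = 1 := Matrix.mul_nonsing_inv _ hxu
  have hdet0 : ∀ b, detb (e b) x ≠ 0 := by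
    intro b h0
    have := detb_inv (x := x) (h.idem b) (hinvc x x⁻¹ hxx _ (hxD _ (h.mem b))) hxx
    rw [h0, zero_mul] at this
    exact zero_ne_one this
  -- the finite set of types
  set T : Set (B → ℕ) := {n | ∃ y ∈ 𝓗, ∀ b, n b = (y * e b).rank} with hT
  have hTfin : T.Finite := by
    apply (Set.finite_Iic (fun _ : B => Fintype.card ι)).subset
    rintro n ⟨y, -, hn⟩
    intro b
    rw [hn]
    exact Matrix.rank_le_card_height _
  have : Fintype T := hTfin.fintype
  have hex : ∀ s : T, ∃ y ∈ 𝓗, ∀ b, s.1 b = (y * e b).rank := fun s => s.2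
  choose Y hY𝓗 hYn using hex
  set n : T → Option B → ℤ := fun s => fun o => o.elim 1 (fun b => (s.1 b : ℤ)) with hn
  set δ : Option B → Kˣ := fun o => o.elim (Units.mk0 c hc0)
    (fun b => Units.mk0 (detb (e b) x) (hdet0 b)) with hδ
  obtain ⟨t, ht⟩ := solve_chars n δ (by
    intro a ha
    have h1 := hchar (fun b => a (some b)) (a none) (by
      intro y hy
      have h2 := ha ⟨fun b => (y * e b).rank, y, hy, fun _ => rfl⟩
      rw [Fintype.sum_option] at h2
      change a none * 1 + ∑ b, a (some b) * ((y * e b).rank : ℤ) = 0 at h2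
      rw [mul_one, add_comm] at h2
      exact h2)
    apply Units.ext
    rw [Units.coe_prod, Fintype.prod_option]
    simp only [Units.val_zpow_eq_zpow_val]
    change c ^ a none * ∏ b, detb (e b) x ^ a (some b) = ((1 : Kˣ) : K)
    rw [mul_comm, h1, Units.val_one])
  have htc : c = ∏ s, (t s : K) := by
    have h1 := congrArg Units.val (ht none)
    rw [Units.coe_prod] at h1
    change c = ∏ s, ((t s ^ (1 : ℤ) : Kˣ) : K) at h1
    simpa using h1
  have htb : ∀ b, detb (e b) x = ∏ s, (t s : K) ^ (s.1 b) := by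
    intro b
    have h1 := congrArg Units.val (ht (some b))
    rw [Units.coe_prod] at h1
    change detb (e b) x = ∏ s, ((t s ^ ((s.1 b : ℕ) : ℤ) : Kˣ) : K) at h1
    simpa using h1
  -- the element of the torus
  have hcommS : ∀ y ∈ zar S, ∀ d ∈ DD, y * d = d * y := fun y hy d hd =>
    zar_commute (fun s hs => hSD s hs d hd) hy
  have hone : ∀ y ∈ 𝓗, ∀ t : K, t ≠ 0 → (1 + (t - 1) • y) * (1 + (t⁻¹ - 1) • y) = 1 := by
    intro y hy t ht
    have hyy := (h𝓗 y hy).1
    have h1 : (1 + (t - 1) • y) * (1 + (t⁻¹ - 1) • y) =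
        1 + ((t - 1) + (t⁻¹ - 1)) • y + ((t - 1) * (t⁻¹ - 1)) • (y * y) := by
      rw [add_mul, mul_add, mul_add, one_mul, one_mul, mul_one, smul_mul_smul_comm]
      module
    rw [h1, hyy, add_assoc, ← add_smul]
    have h2 : (t - 1) + (t⁻¹ - 1) + (t - 1) * (t⁻¹ - 1) = 0 := by
      field_simp
      ring
    rw [h2, zero_smul, add_zero]
  have key : ∀ F : Finset T, ∃ y ∈ zar S, ∃ y' ∈ zar S, y * y' = 1 ∧
      yᵀ * J * y = (∏ s ∈ F, (t s : K)) • J ∧
      ∀ b, detb (e b) y = ∏ s ∈ F, (t s : K) ^ (s.1 b) := by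
    intro F
    induction F using Finset.induction_on with
    | empty =>
      refine ⟨1, subset_zar S hS1, 1, subset_zar S hS1, one_mul 1, ?_, ?_⟩
      · rw [Finset.prod_empty, one_smul]; simp
      · intro b
        rw [Finset.prod_empty, detb_one]
    | insert s F hsF ih =>
      obtain ⟨y, hy, y', hy', hyy', hyJ, hyb⟩ := ih
      have ht0 : (t s : K) ≠ 0 := (t s).ne_zero
      have hsz := (h𝓗 _ (hY𝓗 s)).2 (t s : K) ht0
      have hsz' := (h𝓗 _ (hY𝓗 s)).2 (t s : K)⁻¹ (inv_ne_zero ht0)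
      have hYc : ∀ b, Y s * e b = e b * Y s := by
        intro b
        have h1 := (h𝓗 _ (hY𝓗 s)).2 2 (by norm_num)
        have h2 := hcommS _ h1 _ (h.mem b)
        have e1 : (2 : K) - 1 = 1 := by norm_num
        rw [e1, one_smul, add_mul, mul_add, one_mul, mul_one, add_right_inj] at h2
        exact h2
      refine ⟨y * (1 + ((t s : K) - 1) • Y s), zar_mul hS hy hsz,
        (1 + ((t s : K)⁻¹ - 1) • Y s) * y', zar_mul hS hsz' hy', ?_, ?_, ?_⟩
      · calc y * (1 + ((t s : K) - 1) • Y s) * ((1 + ((t s : K)⁻¹ - 1) • Y s) * y') =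
            y * ((1 + ((t s : K) - 1) • Y s) * (1 + ((t s : K)⁻¹ - 1) • Y s)) * y' := by
              noncomm_ring
          _ = 1 := by rw [hone _ (hY𝓗 s) _ ht0, mul_one, hyy']
      · obtain ⟨h1, h2⟩ := hadj _ (hY𝓗 s)
        have h3 := hodge_mult h1 h2 (t s : K)
        set z := 1 + ((t s : K) - 1) • Y s with hz
        rw [Matrix.transpose_mul]
        calc zᵀ * yᵀ * J * (y * z) = zᵀ * (yᵀ * J * y) * z := by noncomm_ring
          _ = (∏ s ∈ F, (t s : K)) • (zᵀ * J * z) := by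
              rw [hyJ, mul_smul_comm, smul_mul_assoc]
          _ = _ := by rw [h3, smul_smul, Finset.prod_insert hsF, mul_comm]
      · intro b
        rw [detb_mul (h.idem b) (hcommS _ hsz _ (h.mem b)), hyb,
          detb_hodge (h.idem b) (h𝓗 _ (hY𝓗 s)).1 (hYc b), ← hYn s b,
          Finset.prod_insert hsF, mul_comm]
  obtain ⟨y, hy, y', hy', hyy', hyJ, hyb⟩ := key Finset.univ
  rw [← htc] at hyJ
  have hy'y : y' * y = 1 := mul_eq_one_comm.1 hyy'
  have hzz : x * y' ∈ zar S := by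
    refine iso_mem4 h hS1 hS hSD hA hJ hdet ?_ ?_ ?_
    · intro v w
      rw [om_mul]
      congr 2
      have h1 : J = c • (y'ᵀ * J * y') := by
        calc J = (y * y')ᵀ * J * (y * y') := by rw [hyy']; simp
          _ = y'ᵀ * (yᵀ * J * y) * y' := by
              rw [Matrix.transpose_mul]; noncomm_ring
          _ = _ := by rw [hyJ, mul_smul_comm, smul_mul_assoc]
      have h2 : (x * y')ᵀ * J * (x * y') = J := by
        rw [Matrix.transpose_mul]
        calc y'ᵀ * xᵀ * J * (x * y') = y'ᵀ * (xᵀ * J * x) * y' := by noncomm_ring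
          _ = c • (y'ᵀ * J * y') := by rw [hc, mul_smul_comm, smul_mul_assoc]
          _ = J := h1.symm
      rw [h2]
    · intro d hd
      rw [mul_assoc, hcommS _ hy' d hd, ← mul_assoc, hxD d hd, mul_assoc]
    · intro b _
      change detb (e b) (x * y') = 1
      rw [detb_mul (h.idem b) (hcommS _ hy' _ (h.mem b)), htb b, ← hyb b]
      exact detb_inv (h.idem b) (hcommS _ hy' _ (h.mem b)) hyy'
  have : x = (x * y') * y := by rw [mul_assoc, hy'y, mul_one]
  rw [this]
  exact zar_mul hS hzz hy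

end Pool.Agent.H76U
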