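import Pool.Agent.Lib.H76U.Odd6

/-!
# Seeds from Hodge projectors
-/

set_option autoImplicit false
set_option linter.unusedSectionVars false
namespace Pool.Agent.H76U
open Module Matrix Pool.Agent.H53Toric

section
variable {K : Type*} [Field K] {V : Type*} [AddCommGroup V] [Module K V]
variable {B : Type*} [Fintype B] [DecidableEq B] {Γ : Type*} [Group Γ]
variable {ω : V →ₗ[K] V →ₗ[K] K} {e : B → Module.End K V} {bar : B → B}
    {g : Submodule K (Module.End K V)} {r : Γ →* Module.End K V} {𝓗 : Set (Module.End K V)}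

/-- some Hodge projector moves the range of a given one -/
theorem Big.hodge_move (h : Big ω e bar g r 𝓗) {k : Module.End K V} (hk : k ∈ 𝓗) {b : B}
    (h1 : k * e b ≠ 0) (h2 : k * e (bar b) ≠ 0) :
    ∃ k' ∈ 𝓗, (k' * k - k * k' * k) * e b ≠ 0 := by
  by_contra hcon
  push Not at hcon
  have hkk : ∀ v, k (k v) = k v := by
    intro v
    have := congrArg (fun f : Module.End K V => f v) (h.hidem k hk)
    exact this
  have hmove : ∀ k' ∈ 𝓗, ∀ w, e b w = w → k w = w → k (k' w) = k' w := by
    intro k' hk' w hw hkw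
    have h3 := congrArg (fun f : Module.End K V => f w) (hcon k' hk')
    change k' (k (e b w)) - k (k' (k (e b w))) = 0 at h3
    rw [hw, hkw] at h3
    exact (sub_eq_zero.1 h3).symm
  obtain ⟨v₀, hv₀⟩ : ∃ v, k (e b v) ≠ 0 := by
    by_contra hcon2
    push Not at hcon2
    apply h1
    ext v
    exact hcon2 v
  obtain ⟨u₀, hu₀⟩ : ∃ v, k (e (bar b) v) ≠ 0 := by
    by_contra hcon2
    push Not at hcon2
    apply h2
    ext v
    exact hcon2 v
  set v := k (e b v₀) with hv
  set u := k (e (bar b) u₀) with hu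
  have hvb : e b v = v := h.fixh hk (h.idem' b v₀)
  have hub : e (bar b) u = u := h.fixh hk (h.idem' (bar b) u₀)
  have hkv : k v = v := hkk _
  have key : ∀ m ∈ hmon 𝓗, ∀ w, (e b w = w ∧ k w = w) → (e b (m w) = m w ∧ k (m w) = m w) := by
    intro m hm
    refine Submonoid.closure_induction (motive := fun m _ => ∀ w, (e b w = w ∧ k w = w) →
      (e b (m w) = m w ∧ k (m w) = m w)) ?_ ?_ ?_ hm
    · rintro _ ⟨k', hk', t, -, rfl⟩ w ⟨hw, hkw⟩
      simp only [LinearMap.add_apply, Module.End.one_apply, LinearMap.smul_apply, map_add,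
        map_smul, hw, hkw, h.fixh hk' hw, hmove k' hk' w hw hkw]
      exact ⟨trivial, trivial⟩
    · intro w hw
      exact hw
    · intro a c _ _ ha hc w hw
      exact ha _ (hc _ hw)
  rcases h.falt u v (h.fsum hub) (h.fsum hvb) (by
    intro m hm
    obtain ⟨-, h3⟩ := key m hm v ⟨hvb, hkv⟩
    rw [← h3, h.hadj' hk, hu, hkk, sub_self, map_zero]) b with h3 | h3
  · rw [hvb] at h3
    exact hv₀ h3
  · rw [hub] at h3
    exact hu₀ h3

end

section
variable {ι : Type*} [Fintype ι] [DecidableEq ι] {K : Type*} [Field K]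

theorem preL_hodge [CharZero K] {J : Matrix ι ι K} {S : Set (Matrix ι ι K)} {x y : Matrix ι ι K}
    (hx : x ∈ preL J S) (hy : y ∈ preL J S) (hxx : x * x = x) :
    y * x - x * y * x ∈ zlie S ∧
      (y * x - x * y * x)ᵀ * J + J * (y * x - x * y * x) = 0 := by
  obtain ⟨h1, h2⟩ := preL_bracket hx hy
  have h3 : x * y - y * x ∈ preL J S :=
    ⟨⟨0, _, h1, by rw [zero_smul, add_zero]⟩, 0, by rw [h2, zero_smul]⟩
  obtain ⟨h4, h5⟩ := preL_bracket hx h3
  have e1 : x * (x * y - y * x) - (x * y - y * x) * x =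
      (x * x) * y - x * y * x - x * y * x + y * (x * x) := by noncomm_ring
  have e2 : y * x - x * y * x = (1 / 2 : K) • ((x * (x * y - y * x) - (x * y - y * x) * x) -
      (x * y - y * x)) := by
    rw [e1, hxx]
    module
  constructor
  · rw [e2]
    exact (zlie S).smul_mem _ ((zlie S).sub_mem h4 h1)
  · set X := x * y - y * x with hX
    set Y := x * X - X * x with hY
    rw [e2, Matrix.transpose_smul, Matrix.transpose_sub, smul_mul_assoc, mul_smul_comm,
      ← smul_add, sub_mul, mul_sub]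
    have : Yᵀ * J - Xᵀ * J + (J * Y - J * X) = (Yᵀ * J + J * Y) - (Xᵀ * J + J * X) := by abel
    rw [this, h2, h5, sub_zero, smul_zero]

/-- rank of the complementary projector on a component -/
theorem rank_compl {J : Matrix ι ι K} (hdet : IsUnit J.det) {x p p' : Matrix ι ι K}
    (hadj : xᵀ * J + J * x = J) (hp : pᵀ * J = J * p') (hxp : x * p' = p' * x) :
    ((1 - x) * p).rank = (x * p').rank := by
  have h0 : J - xᵀ * J = J * x := by
    rw [sub_eq_iff_eq_add, add_comm]
    exact hadj.symm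
  have h1 : ((1 - x) * p)ᵀ * J = J * (x * p') := by
    rw [Matrix.transpose_mul, Matrix.transpose_sub, Matrix.transpose_one]
    calc pᵀ * (1 - xᵀ) * J = pᵀ * (J - xᵀ * J) := by noncomm_ring
      _ = pᵀ * (J * x) := by rw [h0]
      _ = (pᵀ * J) * x := by rw [mul_assoc]
      _ = J * (x * p') := by rw [hp, mul_assoc, hxp]
  have h2 : (((1 - x) * p)ᵀ * J).rank = ((1 - x) * p).rank := by
    rw [Matrix.rank_mul_eq_left_of_isUnit_det _ _ hdet, Matrix.rank_transpose]
  rw [← h2, h1, Matrix.rank_mul_eq_right_of_isUnit_det _ _ hdet]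

end

end Pool.Agent.H76U
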