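import Pool.Agent.Lib.H76U.Falt4

/-!
# The setup given by a group of matrices
-/

set_option autoImplicit false
set_option linter.unusedSectionVars false
namespace Pool.Agent.H76U
open Module Matrix Pool.Agent.H53Toric
open Pool.Agent.H76RM (van opr opr_apply skew_om zar_commute zlie_commute)

variable {ι : Type*} [Fintype ι] [DecidableEq ι] {K : Type*} [Field K]
variable {B : Type*} [Fintype B] [DecidableEq B]

theorem mk_big [CharZero K] {J : Matrix ι ι K} {DD : Submodule K (Matrix ι ι K)}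
    {bar : B → B} {e : B → Matrix ι ι K}
    (h : Split4 J DD bar e) (hJ : Jᵀ = -J) (hdet : IsUnit J.det) {k l : ι} (hkl : J k l ≠ 0)
    {S : Set (Matrix ι ι K)}
    (hS1 : (1 : Matrix ι ι K) ∈ S) (hS : ∀ a ∈ S, ∀ b ∈ S, a * b ∈ S)
    (hinv : ∀ s ∈ S, ∃ s', s * s' = 1)
    (sim : ∀ s ∈ S, ∃ c : K, sᵀ * J * s = c • J)
    (lin : ∀ s ∈ S, ∀ d ∈ DD, s * d = d * s)
    (prime : (van S).IsPrime)
    (semis : ∀ W : Submodule K (ι → K), (∀ s ∈ S, ∀ w ∈ W, s *ᵥ w ∈ W) →
      ∃ W' : Submodule K (ι → K), (∀ s ∈ S, ∀ w ∈ W', s *ᵥ w ∈ W') ∧ IsCompl W W')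
    (commt : ∀ y : Matrix ι ι K, (∀ s ∈ S, y * s = s * y) → y ∈ DD)
    {𝓗 : Set (Matrix ι ι K)} (h𝓗 : ∀ x ∈ 𝓗, x ∈ hodgeProj S)
    (hne : ∀ x ∈ 𝓗, x ≠ 0 ∧ x ≠ 1)
    (hnon : ∀ x ∈ 𝓗, ∀ b, (∃ u w, e b *ᵥ u = u ∧ e (bar b) *ᵥ w = w ∧ u ≠ 0 ∧ w ≠ 0 ∧
      om J u w = 0) → x * e b ≠ 0 ∧ x * e b ≠ e b)
    (hgen : S ⊆ zar (Submonoid.closure {m | ∃ h ∈ 𝓗, ∃ t : K, t ≠ 0 ∧
      m = 1 + (t - 1) • h} : Set (Matrix ι ι K))) :
    Big (om J) (fun b => phi (e b)) bar (lieE J (Set.range (gin S hS1 hS)))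
      (opr (gin S hS1 hS)) ((fun x => phi x) '' 𝓗) := by
  set R := gin S hS1 hS with hR
  have hJ0 : J ≠ 0 := by
    rintro rfl
    exact hkl rfl
  have hRS : ∀ x, R x ∈ zar S := gin_mem
  have simR : ∀ x, ∃ c : K, (R x)ᵀ * J * R x = c • J := fun x => zar_sim hkl sim (hRS x)
  have linR : ∀ x, ∀ d ∈ DD, R x * d = d * R x := fun x d hd =>
    zar_commute (fun s hs => lin s hs d hd) (hRS x)
  have hrange1 : (1 : Matrix ι ι K) ∈ Set.range R := ⟨1, map_one R⟩
  have hrangeZ : zar (Set.range R) = zar S := zar_range hinv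
  have hone : ∀ x ∈ 𝓗, ∀ t : K, t ≠ 0 → (1 + (t - 1) • x) * (1 + (t⁻¹ - 1) • x) = 1 := by
    intro x hx t ht
    have hxx := (h𝓗 x hx).1
    have h1 : (1 + (t - 1) • x) * (1 + (t⁻¹ - 1) • x) =
        1 + ((t - 1) + (t⁻¹ - 1)) • x + ((t - 1) * (t⁻¹ - 1)) • (x * x) := by
      rw [add_mul, mul_add, mul_add, one_mul, one_mul, mul_one, smul_mul_smul_comm]
      module
    rw [h1, hxx, add_assoc, ← add_smul]
    have h2 : (t - 1) + (t⁻¹ - 1) + (t - 1) * (t⁻¹ - 1) = 0 := by
      field_simp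
      ring
    rw [h2, zero_smul, add_zero]
  exact
  { alt := om_alt hJ
    nd := by
      intro u hu
      apply om_nd hdet
      intro w
      rw [omega_antisymm (om_alt hJ), hu, neg_zero]
    lie := fun A hA C hC => lieE_lie hdet _ A hA C hC
    skew := by
      intro A hA
      exact skew_om hdet (mem_skewE.1 hA.2)
    sim := by
      intro x
      obtain ⟨c, hc⟩ := simR x
      refine ⟨c, ?_, ?_⟩
      · rintro rfl
        rw [zero_smul] at hc
        apply hJ0
        have hss' : (R x⁻¹)ᵀ * (R x)ᵀ = 1 := by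
          rw [← Matrix.transpose_mul, H76RM.R_inv, Matrix.transpose_one]
        calc J = ((R x⁻¹)ᵀ * (R x)ᵀ) * J * (R x * R x⁻¹) := by
              rw [hss', H76RM.R_inv, one_mul, mul_one]
          _ = (R x⁻¹)ᵀ * ((R x)ᵀ * J * R x) * R x⁻¹ := by noncomm_ring
          _ = 0 := by rw [hc]; simp
      · intro v w
        rw [opr_apply, opr_apply, om_mul, hc, om_apply, om_apply, Matrix.smul_mulVec,
          dotProduct_smul, smul_eq_mul]
    conj := by
      intro x A hA
      obtain ⟨c, hc⟩ := simR x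
      refine lieE_conj hdet ?_ (Set.mem_range_self x) (Set.mem_range_self x⁻¹)
        (H76RM.R_inv R x) hc hA
      rintro _ ⟨y, rfl⟩ _ ⟨z, rfl⟩
      exact ⟨y * z, map_mul _ _ _⟩
    idem := by
      intro b
      rw [← map_mul, h.idem]
    orth := by
      intro b c hbc
      rw [← map_mul, h.orth1 hbc, map_zero]
    barbar := h.barbar
    self := by
      intro b v w
      rw [phi_apply, phi_apply]
      exact h.self b v w
    gcomm := by
      intro b A hA
      obtain ⟨X, rfl⟩ := (phi (ι := ι) (K := K)).surjective A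
      have h1 := (mem_lieE.1 hA).1
      have h2 : X * e b = e b * X := zlie_commute (S := Set.range R) hrange1 (by
        rintro _ ⟨y, rfl⟩
        exact linR y _ (h.mem b)) h1
      rw [← map_mul, ← map_mul, h2]
    rcomm := by
      intro b x
      change phi (e b) * phi (R x) = phi (R x) * phi (e b)
      rw [← map_mul, ← map_mul, linR x _ (h.mem b)]
    prime := fun p hp q hq hpq => prime_coef R J (by rw [van_range hinv]; exact prime) p hp q hq hpq
    exp := by
      intro A hA hA2 a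
      obtain ⟨X, rfl⟩ := (phi (ι := ι) (K := K)).surjective A
      have h1 := (mem_lieE.1 hA).1
      have hX2 : X * X = 0 := by
        apply (phi (ι := ι) (K := K)).injective
        rw [map_mul, hA2, map_zero]
      have h2 : 1 + a • X ∈ zar S := by
        have := zlie_exp h1 hX2 1 hrange1 a
        rwa [one_mul, hrangeZ] at this
      have h3 : (1 + a • X) * (1 - a • X) = 1 := by
        rw [add_mul, mul_sub, mul_sub, one_mul, one_mul, mul_one, smul_mul_smul_comm, hX2,
          smul_zero, sub_zero]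
        abel
      obtain ⟨z, hz⟩ := gin_surj (hS1 := hS1) (hS := hS) h2 h3
      refine ⟨z, ?_⟩
      change phi (R z) = _
      rw [hz, map_add, map_one, map_smul]
    hidem := by
      rintro _ ⟨x, hx, rfl⟩
      change phi x * phi x = phi x
      rw [← map_mul, (h𝓗 x hx).1]
    hcomm := by
      rintro _ ⟨x, hx, rfl⟩ b
      change phi (e b) * phi x = phi x * phi (e b)
      have h1 := (h𝓗 x hx).2 2 (by norm_num)
      have h2 := zar_commute (fun s hs => lin s hs _ (h.mem b)) h1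
      have e1 : (2 : K) - 1 = 1 := by norm_num
      rw [e1, one_smul, add_mul, mul_add, one_mul, mul_one, add_right_inj] at h2
      rw [← map_mul, ← map_mul, h2]
    hadj := by
      rintro _ ⟨x, hx, rfl⟩ v w
      obtain ⟨h0, h1⟩ := hne x hx
      obtain ⟨-, h3⟩ := proj_sim' hdet hkl sim (h𝓗 x hx) h0 h1
      change om J (phi x v) w + om J v (phi x w) = om J v w
      rw [phi_apply, phi_apply, om_apply, om_apply, om_apply]
      have h4 : (x *ᵥ v) ⬝ᵥ (J *ᵥ w) = v ⬝ᵥ ((xᵀ * J) *ᵥ w) := by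
        rw [← Matrix.mulVec_mulVec, Matrix.dotProduct_mulVec v, Matrix.vecMul_transpose]
      rw [h4, Matrix.mulVec_mulVec, ← dotProduct_add, ← Matrix.add_mulVec, h3]
    hexp := by
      rintro _ ⟨x, hx, rfl⟩ t ht
      obtain ⟨z, hz⟩ := gin_surj (hS1 := hS1) (hS := hS) ((h𝓗 x hx).2 t ht) (hone x hx t ht)
      refine ⟨z, ?_⟩
      change phi (R z) = 1 + (t - 1) • phi x
      rw [hz, map_add, map_one, map_smul]
    hnon := by
      rintro _ ⟨x, hx, rfl⟩ b - ⟨u, w, hu, hw, hu0, hw0, huw⟩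
      rw [phi_apply] at hu hw
      obtain ⟨h1, h2⟩ := hnon x hx b ⟨u, w, hu, hw, hu0, hw0, huw⟩
      constructor
      · change phi x * phi (e b) ≠ 0
        rw [← map_mul]
        intro h0
        exact h1 ((phi (ι := ι) (K := K)).injective (by rw [h0, map_zero]))
      · change phi x * phi (e b) ≠ phi (e b)
        rw [← map_mul]
        intro h0
        exact h2 ((phi (ι := ι) (K := K)).injective h0)
    falt := by
      intro u v hu hv huv b
      refine exists_falt4 h hJ hdet hS1 hS semis commt u v hu hv ?_ b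
      intro s hs
      refine zar_lin ?_ (hgen hs)
      intro m hm
      have := huv _ (hmon_phi hm)
      rwa [phi_apply] at this }

end Pool.Agent.H76U
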