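import Pool.Agent.Lib.H76RM.Final
import Pool.Agent.Lib.H76U.Defs
import Pool.Agent.Lib.H76U.Mk4
import Pool.Agent.Lib.H76U.Grp5
import Pool.Agent.Lib.H76U.Hseed

/-!
# Monodromy groups of representations commuting with an algebra with involution
-/

set_option autoImplicit false
set_option linter.unusedSectionVars false
namespace Pool.Agent.H76U
open Module Matrix Pool.Agent.H53Toric
open Pool.Agent.H76RM (zar_commute comm_span spanK similD exists_prime van)

variable {ι : Type*} [Fintype ι] [DecidableEq ι]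

theorem split4_of {K : Type*} [Field K] [Algebra ℚ K] {D : Subalgebra ℚ (Matrix ι ι ℚ)}
    {ψ : Matrix ι ι ℚ} {m : ℕ} {bar : Fin m → Fin m} {e : Fin m → Matrix ι ι K}
    (h : IsSplitting D ψ bar e) :
    Split4 (ψ.map (algebraMap ℚ K)) (spanK K D) bar e where
  one := by
    apply Submodule.subset_span
    refine ⟨1, D.one_mem, ?_⟩
    simp
  mem := h.mem
  idem := h.idem
  barbar := h.barbar
  adj := h.adj
  corner := h.corner
  orth := h.orth
  full := h.full

/-- characters vanish on the closure -/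
theorem char_zar {K : Type*} [Field K] [CharZero K] {B : Type*} [Fintype B] [DecidableEq B]
    {J : Matrix ι ι K} {k l : ι} (hkl : J k l ≠ 0)
    {e : B → Matrix ι ι K} (hidem : ∀ b, e b * e b = e b) {S : Set (Matrix ι ι K)}
    (hSe : ∀ s ∈ S, ∀ b, s * e b = e b * s)
    {𝓗 : Set (Matrix ι ι K)} (h𝓗 : ∀ x ∈ 𝓗, x ∈ hodgeProj S)
    (hadj : ∀ x ∈ 𝓗, xᵀ * J * x = 0 ∧ xᵀ * J + J * x = J)
    {x : Matrix ι ι K} (hx : x.det ≠ 0) (hxe : ∀ b, x * e b = e b * x) {c : K} (hc0 : c ≠ 0)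
    (hc : xᵀ * J * x = c • J)
    (hxz : x ∈ zar (Submonoid.closure {m | ∃ h ∈ 𝓗, ∃ t : K, t ≠ 0 ∧
      m = 1 + (t - 1) • h} : Set (Matrix ι ι K)))
    (a : B → ℤ) (a₀ : ℤ) (ha : ∀ y ∈ 𝓗, ∑ b, a b * ((y * e b).rank : ℤ) + a₀ = 0) :
    (∏ b, detb (e b) x ^ a b) * c ^ a₀ = 1 := by
  classical
  have hxu : IsUnit x.det := isUnit_iff_ne_zero.2 hx
  have hxx : x * x⁻¹ = 1 := Matrix.mul_nonsing_inv _ hxu
  have hcommz : ∀ y ∈ zar S, ∀ b, y * e b = e b * y := fun y hy b =>
    zar_commute (fun s hs => hSe s hs b) hy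
  have hinvc : ∀ b, x⁻¹ * e b = e b * x⁻¹ := by
    intro b
    have hy'y : x⁻¹ * x = 1 := mul_eq_one_comm.1 hxx
    calc x⁻¹ * e b = x⁻¹ * e b * (x * x⁻¹) := by rw [hxx, mul_one]
      _ = x⁻¹ * (e b * x) * x⁻¹ := by noncomm_ring
      _ = x⁻¹ * (x * e b) * x⁻¹ := by rw [hxe]
      _ = (x⁻¹ * x) * e b * x⁻¹ := by noncomm_ring
      _ = e b * x⁻¹ := by rw [hy'y, one_mul]
  have hdet0 : ∀ b, detb (e b) x ≠ 0 := by
    intro b h0
    have := detb_inv (x := x) (hidem b) (hinvc b) hxx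
    rw [h0, zero_mul] at this
    exact zero_ne_one this
  -- positive and negative parts
  set ap : B → ℕ := fun b => (a b).toNat with hap
  set an : B → ℕ := fun b => (-a b).toNat with han
  set p0 : ℕ := a₀.toNat with hp0
  set n0 : ℕ := (-a₀).toNat with hn0
  have hab : ∀ b, a b = (ap b : ℤ) - (an b : ℤ) := fun b => (Int.toNat_sub_toNat_neg (a b)).symm
  have ha0 : a₀ = (p0 : ℤ) - (n0 : ℤ) := (Int.toNat_sub_toNat_neg a₀).symm
  -- the polynomial identity
  set F : MvPolynomial (ι × ι) K :=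
    (∏ b, pdet (e b) ^ ap b) * (pmul J k l * MvPolynomial.C (J k l)⁻¹) ^ p0 -
    (∏ b, pdet (e b) ^ an b) * (pmul J k l * MvPolynomial.C (J k l)⁻¹) ^ n0 with hF
  have hevF : ∀ y : Matrix ι ι K, ∀ d : K, yᵀ * J * y = d • J → ev y F =
      (∏ b, detb (e b) y ^ ap b) * d ^ p0 - (∏ b, detb (e b) y ^ an b) * d ^ n0 := by
    intro y d hd
    have h1 : ev y (pmul J k l * MvPolynomial.C (J k l)⁻¹) = d := by
      rw [map_mul, ev_pmul, ev_C, hd, Matrix.smul_apply, smul_eq_mul, mul_assoc,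
        mul_inv_cancel₀ hkl, mul_one]
    rw [hF, map_sub, map_mul, map_mul, map_pow, map_pow, h1, map_prod, map_prod]
    simp only [map_pow, ev_pdet]
  have hmon : ∀ m ∈ Submonoid.closure {m | ∃ h ∈ 𝓗, ∃ t : K, t ≠ 0 ∧ m = 1 + (t - 1) • h},
      ∃ d : K, d ≠ 0 ∧ (∀ b, m * e b = e b * m) ∧ mᵀ * J * m = d • J ∧
        (∀ b, detb (e b) m ≠ 0) ∧ (∏ b, detb (e b) m ^ a b) * d ^ a₀ = 1 := by
    intro m hm
    refine Submonoid.closure_induction (motive := fun m _ =>
      ∃ d : K, d ≠ 0 ∧ (∀ b, m * e b = e b * m) ∧ mᵀ * J * m = d • J ∧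
        (∀ b, detb (e b) m ≠ 0) ∧ (∏ b, detb (e b) m ^ a b) * d ^ a₀ = 1) ?_ ?_ ?_ hm
    · rintro _ ⟨y, hy, t, ht, rfl⟩
      have hyS := h𝓗 y hy
      have hye : ∀ b, y * e b = e b * y := by
        intro b
        have h1 := hyS.2 2 (by norm_num)
        have h2 := hcommz _ h1 b
        have e1 : (2 : K) - 1 = 1 := by norm_num
        rw [e1, one_smul, add_mul, mul_add, one_mul, mul_one, add_right_inj] at h2
        exact h2
      have hdb : ∀ b, detb (e b) (1 + (t - 1) • y) = t ^ (y * e b).rank := fun b =>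
        detb_hodge (hidem b) hyS.1 (hye b) t
      refine ⟨t, ht, fun b => hcommz _ (hyS.2 t ht) b,
        hodge_mult (hadj y hy).1 (hadj y hy).2 t, ?_, ?_⟩
      · intro b
        rw [hdb]
        exact pow_ne_zero _ ht
      · simp only [hdb]
        have h3 : ∀ b, (t ^ (y * e b).rank) ^ a b = t ^ (a b * ((y * e b).rank : ℤ)) := by
          intro b
          rw [← zpow_natCast, ← _root_.zpow_mul, mul_comm]
        simp only [h3]
        have h4 : ∏ b, t ^ (a b * ((y * e b).rank : ℤ)) =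
            t ^ (∑ b, a b * ((y * e b).rank : ℤ)) := by
          have : ∀ T : Finset B, ∏ b ∈ T, t ^ (a b * ((y * e b).rank : ℤ)) =
              t ^ (∑ b ∈ T, a b * ((y * e b).rank : ℤ)) := by
            intro T
            induction T using Finset.induction_on with
            | empty => simp
            | insert b T hb ih =>
              rw [Finset.prod_insert hb, Finset.sum_insert hb, ih, zpow_add₀ ht]
          exact this _
        rw [h4, ← zpow_add₀ ht, ha y hy, zpow_zero]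
    · refine ⟨1, one_ne_zero, fun b => by rw [one_mul, mul_one], by simp, ?_, ?_⟩
      · intro b
        rw [detb_one]
        exact one_ne_zero
      · simp [detb_one]
    · rintro y z _ _ ⟨d, hd0, hye, hyJ, hy0, hy1⟩ ⟨d', hd0', hze, hzJ, hz0, hz1⟩
      have hm : ∀ b, detb (e b) (y * z) = detb (e b) y * detb (e b) z := fun b =>
        detb_mul (hidem b) (hze b)
      refine ⟨d * d', mul_ne_zero hd0 hd0', ?_, ?_, ?_, ?_⟩
      · intro b
        rw [mul_assoc, hze, ← mul_assoc, hye, mul_assoc]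
      · rw [Matrix.transpose_mul]
        calc zᵀ * yᵀ * J * (y * z) = zᵀ * (yᵀ * J * y) * z := by noncomm_ring
          _ = _ := by rw [hyJ, mul_smul_comm, smul_mul_assoc, hzJ, smul_smul]
      · intro b
        rw [hm]
        exact mul_ne_zero (hy0 b) (hz0 b)
      · simp only [hm, mul_zpow]
        rw [Finset.prod_mul_distrib]
        calc _ = ((∏ b, detb (e b) y ^ a b) * d ^ a₀) * ((∏ b, detb (e b) z ^ a b) * d' ^ a₀) := by
              ring
          _ = 1 := by rw [hy1, hz1, mul_one]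
  have heq : ∀ (y : Matrix ι ι K) (d : K), d ≠ 0 → (∀ b, detb (e b) y ≠ 0) →
      ((∏ b, detb (e b) y ^ a b) * d ^ a₀) * ((∏ b, detb (e b) y ^ an b) * d ^ n0) =
        (∏ b, detb (e b) y ^ ap b) * d ^ p0 := by
    intro y d hd0 hy0
    have h1 : (∏ b, detb (e b) y ^ a b) * ∏ b, detb (e b) y ^ an b =
        ∏ b, detb (e b) y ^ ap b := by
      rw [← Finset.prod_mul_distrib]
      apply Finset.prod_congr rfl
      intro b _
      rw [← zpow_natCast (detb (e b) y) (an b), ← zpow_natCast (detb (e b) y) (ap b),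
        ← zpow_add₀ (hy0 b)]
      congr 1
      rw [hab b]
      ring
    have h2 : d ^ a₀ * d ^ n0 = d ^ p0 := by
      rw [← zpow_natCast d n0, ← zpow_natCast d p0, ← zpow_add₀ hd0]
      congr 1
      rw [ha0]
      ring
    calc _ = ((∏ b, detb (e b) y ^ a b) * ∏ b, detb (e b) y ^ an b) * (d ^ a₀ * d ^ n0) := by
          ring
      _ = _ := by rw [h1, h2]
  have hF0 : ev x F = 0 := by
    apply hxz
    intro m hm
    obtain ⟨d, hd0, hme, hmJ, hm0, hm1⟩ := hmon m hm
    rw [hevF m d hmJ, sub_eq_zero, ← heq m d hd0 hm0, hm1, one_mul]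
  rw [hevF x c hc, sub_eq_zero, ← heq x c hc0 hdet0] at hF0
  have hne : (∏ b, detb (e b) x ^ an b) * c ^ n0 ≠ 0 :=
    mul_ne_zero (Finset.prod_ne_zero_iff.2 fun b _ => pow_ne_zero _ (hdet0 b))
      (pow_ne_zero _ hc0)
  exact mul_right_cancel₀ hne (by rw [hF0, one_mul])

/-- The monodromy group, over an algebraically closed field. -/
theorem monodromy_type [Nonempty ι] {ψ : Matrix ι ι ℚ}
    (hψ : ψᵀ = -ψ) (hψ0 : ψ.det ≠ 0) (D : Subalgebra ℚ (Matrix ι ι ℚ))
    {L : Type*} [Field L] [CharZero L] {K : Type*} [Field K]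
    [Algebra L K] [IsAlgClosed K] [CharZero K] {G : Type*} [Group G]
    (ρ : G →* Matrix.GeneralLinearGroup ι L)
    (lin : ∀ σ : G, ∀ d ∈ D, (ρ σ).1 * d.map (algebraMap ℚ L) =
      d.map (algebraMap ℚ L) * (ρ σ).1)
    (sim : ∀ σ : G, ∃ c : L, (ρ σ).1ᵀ * ψ.map (algebraMap ℚ L) * (ρ σ).1 =
      c • ψ.map (algebraMap ℚ L))
    (semis : ∀ H : Subgroup G, H.FiniteIndex → ∀ W : Submodule K (ι → K),
      (∀ s ∈ img K ρ H, ∀ w ∈ W, s *ᵥ w ∈ W) →
      ∃ W' : Submodule K (ι → K), (∀ s ∈ img K ρ H, ∀ w ∈ W', s *ᵥ w ∈ W') ∧ IsCompl W W')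
    (commt : ∀ H : Subgroup G, H.FiniteIndex → ∀ y : Matrix ι ι K,
      (∀ s ∈ img K ρ H, y * s = s * y) → y ∈ spanK K D)
    {m : ℕ} {bar : Fin m → Fin m} {e : Fin m → Matrix ι ι K} (hspl : IsSplitting D ψ bar e)
    {sig : Set (Fin m → ℕ)}
    (hpos : ∀ n ∈ sig, ∀ b, n b + n (bar b) = (e b).rank ∧ (1 < (e b).rank → 0 < n b))
    {𝓗 : Set (Matrix ι ι K)} (h𝓗 : ∀ x ∈ 𝓗, x ∈ hodgeProj (img K ρ ⊤))
    (hsig : ∀ x ∈ 𝓗, (fun b => (x * e b).rank) ∈ sig)
    (hsig' : ∀ n ∈ sig, ∃ x ∈ 𝓗, ∀ b, (x * e b).rank = n b)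
    {H₀ : Subgroup G} (hgen : img K ρ H₀ ⊆ zar (Submonoid.closure {m | ∃ h ∈ 𝓗, ∃ t : K,
      t ≠ 0 ∧ m = 1 + (t - 1) • h} : Set (Matrix ι ι K)))
    (comp : ∀ b, (e b).rank = 1 ∨
      (∃ n ∈ sig, n b = 1 ∨ n (bar b) = 1 ∨ (bar b = b ∧ n b ≤ 3)) ∨
      ∃ N : Matrix ι ι K, N * N = 0 ∧ 1 + N ∈ zar (img K ρ ⊤) ∧
        ((N * e b).rank = 1 ∨ (bar b = b ∧ ((N * e b).rank = 2 ∨ Odd (N * e b).rank))))
    (H : Subgroup G) (hH : H.FiniteIndex) (hle₀ : H ≤ H₀) :
    monodromy K ρ H = typeGrp K ψ D e sig := by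
  classical
  obtain ⟨hJ, hdet⟩ := gram_basic hψ hψ0 K
  have hspl' := split4_of hspl
  set J : Matrix ι ι K := ψ.map (algebraMap ℚ K) with hJdef
  have hlinK : ∀ σ : G, ∀ d ∈ D, (ρ σ).1.map (algebraMap L K) * d.map (algebraMap ℚ K) =
      d.map (algebraMap ℚ K) * (ρ σ).1.map (algebraMap L K) := by
    intro σ d hd
    have h1 := congrArg (fun m : Matrix ι ι L => m.map (algebraMap L K)) (lin σ d hd)
    have h2 : (d.map (algebraMap ℚ L)).map (algebraMap L K) = d.map (algebraMap ℚ K) := by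
      ext i j
      simp
    simp only [Matrix.map_mul] at h1
    rw [h2] at h1
    exact h1
  have hsimG : ∀ x : G, ∃ c : K, ((ρ x).1.map (algebraMap L K))ᵀ * J *
      (ρ x).1.map (algebraMap L K) = c • J := by
    intro x
    obtain ⟨c, hc⟩ := sim x
    exact ⟨_, sim_map hc⟩
  have hsimI : ∀ H' : Subgroup G, ∀ s ∈ img K ρ H', ∃ c : K, sᵀ * J * s = c • J := by
    rintro H' _ ⟨y, -, rfl⟩
    exact hsimG y
  have hlinI : ∀ H' : Subgroup G, ∀ s ∈ img K ρ H', ∀ d ∈ spanK K D, s * d = d * s := by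
    rintro H' _ ⟨y, -, rfl⟩ d hd
    exact comm_span (hlinK y) d hd
  obtain ⟨k, l, hkl⟩ : ∃ k l, J k l ≠ 0 := by
    by_contra hcon
    push Not at hcon
    have : J = 0 := by
      ext i j
      exact hcon i j
    rw [this, Matrix.det_zero] at hdet
    exact not_isUnit_zero hdet
  have hne : J ≠ 0 := by
    intro h0
    apply hkl
    rw [h0]; rfl
  -- there is a component
  obtain ⟨b₀⟩ : Nonempty (Fin m) := by
    by_contra hcon
    have hcon' := not_nonempty_iff.1 hcon
    obtain ⟨i⟩ := (inferInstance : Nonempty ι)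
    have h1 := hspl'.full (Pi.single i (1 : K))
    have h2 : Submodule.span K {w | ∃ x ∈ spanK K D, ∃ b, ∃ u : ι → K,
        w = x *ᵥ (e b *ᵥ u)} = ⊥ := by
      rw [Submodule.span_eq_bot]
      rintro w ⟨x, -, b, -⟩
      exact (hcon'.false b).elim
    rw [h2, Submodule.mem_bot] at h1
    have h3 := congrFun h1 i
    rw [Pi.single_eq_same] at h3
    exact one_ne_zero h3
  have hrank0 : ∀ b, 0 < (e b).rank := by
    intro b
    rw [Nat.pos_iff_ne_zero]
    intro h0
    apply hspl.ne_zero b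
    apply (phi (ι := ι) (K := K)).injective
    rw [map_zero]
    have h1 : finrank K (LinearMap.range (e b).mulVecLin) = 0 := h0
    rw [Submodule.finrank_eq_zero, LinearMap.range_eq_bot] at h1
    exact h1
  have hrbar : ∀ n ∈ sig, ∀ b, (e (bar b)).rank = (e b).rank := by
    intro n hn b
    rw [← (hpos n hn b).1, ← (hpos n hn (bar b)).1, hspl.barbar, add_comm]
  have hnon : ∀ x ∈ 𝓗, ∀ b, 1 < (e b).rank → x * e b ≠ 0 ∧ x * e b ≠ e b := by
    intro x hx b hb
    obtain ⟨h1, h2⟩ := hpos _ (hsig x hx) b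
    have h3 := (hpos _ (hsig x hx) (bar b)).2 (by rw [hrbar _ (hsig x hx)]; exact hb)
    have h2' := h2 hb
    change (x * e b).rank + (x * e (bar b)).rank = (e b).rank at h1
    change 0 < (x * e b).rank at h2'
    change 0 < (x * e (bar b)).rank at h3
    constructor
    · intro h0
      rw [h0, Matrix.rank_zero] at h2'
      exact lt_irrefl 0 h2'
    · intro h0
      rw [h0] at h1
      omega
  have hne01 : ∀ x ∈ 𝓗, x ≠ 0 ∧ x ≠ 1 := by
    intro x hx
    have h1 := (hpos _ (hsig x hx) b₀).1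
    change (x * e b₀).rank + (x * e (bar b₀)).rank = (e b₀).rank at h1
    have h2 := hrank0 b₀
    have h3 := hrank0 (bar b₀)
    constructor
    · rintro rfl
      rw [zero_mul, zero_mul, Matrix.rank_zero] at h1
      omega
    · rintro rfl
      rw [one_mul, one_mul] at h1
      omega
  have hiso : ∀ b, (∃ u w, e b *ᵥ u = u ∧ e (bar b) *ᵥ w = w ∧ u ≠ 0 ∧ w ≠ 0 ∧
      om J u w = 0) → 1 < (e b).rank := by
    rintro b ⟨u, w, hu, hw, hu0, hw0, huw⟩
    by_contra hcon
    have hr1 : finrank K (LinearMap.range (e b).mulVecLin) ≤ 1 := not_lt.1 hcon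
    obtain ⟨⟨u₁, hu₁⟩, hspan⟩ := finrank_le_one_iff.1 hr1
    have hline : ∀ v, ∃ c : K, e b *ᵥ v = c • u₁ := by
      intro v
      obtain ⟨c, hc⟩ := hspan ⟨e b *ᵥ v, v, rfl⟩
      exact ⟨c, (congrArg Subtype.val hc).symm⟩
    obtain ⟨c₁, hc₁⟩ := hline u
    rw [hu] at hc₁
    have hc₁0 : c₁ ≠ 0 := by
      rintro rfl
      rw [zero_smul] at hc₁
      exact hu0 hc₁
    apply hw0
    apply om_nd hdet
    intro v
    obtain ⟨c, hc⟩ := hline v
    rw [← hw, ← hspl'.self, hc]
    rw [hc₁, map_smul, LinearMap.smul_apply, smul_eq_mul, mul_eq_zero] at huw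
    rw [map_smul, LinearMap.smul_apply, (huw.resolve_left hc₁0), smul_zero]
  have hadj : ∀ x ∈ 𝓗, xᵀ * J * x = 0 ∧ xᵀ * J + J * x = J := fun x hx =>
    proj_sim' hdet hkl (hsimI ⊤) (h𝓗 x hx) (hne01 x hx).1 (hne01 x hx).2
  have hmult0 : ∀ x : Matrix ι ι K, x.det ≠ 0 → ∀ c : K, xᵀ * J * x = c • J → c ≠ 0 := by
    rintro x hx c hc rfl
    rw [zero_smul] at hc
    have h3 := congrArg Matrix.det hc
    rw [Matrix.det_mul, Matrix.det_mul, Matrix.det_transpose, Matrix.det_zero] at h3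
    exact (mul_ne_zero (mul_ne_zero hx hdet.ne_zero) hx) h3
  ext x
  constructor
  · rintro ⟨hx, hxz⟩
    refine ⟨⟨hx, ?_, zar_sim hkl (hsimI H) hxz⟩, ?_⟩
    · intro d hd
      refine zar_commute ?_ hxz
      rintro _ ⟨y, -, rfl⟩
      exact hlinK y d hd
    · intro a a₀ ha c hc
      refine char_zar hkl hspl.idem (S := img K ρ ⊤) ?_ h𝓗 hadj hx ?_
        (hmult0 x hx c hc) hc ?_ a a₀ ?_
      · intro s hs b
        exact hlinI ⊤ s hs _ (hspl.mem b)
      · intro b
        exact zar_commute (fun s hs => hlinI H s hs _ (hspl.mem b)) hxz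
      · refine zar_subset_zar ?_ hxz
        rintro _ ⟨σ, hσ, rfl⟩
        exact hgen ⟨σ, hle₀ hσ, rfl⟩
      · intro y hy
        exact ha _ (hsig y hy)
  · rintro ⟨⟨hx, hxD, c, hc⟩, hchar⟩
    refine ⟨hx, ?_⟩
    obtain ⟨H₁, hle, hfin, hprime⟩ := exists_prime (K := K) ρ H hH
    have hsub : img K ρ H₁ ⊆ img K ρ H := by
      rintro _ ⟨σ, hσ, rfl⟩
      exact ⟨σ, hle hσ, rfl⟩
    apply zar_mono hsub
    have hinv : ∀ s ∈ img K ρ H₁, ∃ s', s * s' = 1 := by
      rintro _ ⟨y, -, rfl⟩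
      exact ⟨_, img_inv ρ y⟩
    have h𝓗₁ : ∀ x ∈ 𝓗, x ∈ hodgeProj (img K ρ H₁) := fun x hx =>
      hodgeProj_finite ρ H₁ (h𝓗 x hx)
    have hbig := mk_big hspl' hJ hdet hkl (img_one ρ H₁) (img_mul ρ H₁) hinv (hsimI H₁)
      (hlinI H₁) hprime (semis H₁ hfin) (commt H₁ hfin) h𝓗₁ hne01
      (fun x hx b hb => hnon x hx b (hiso b hb)) (by
        rintro _ ⟨σ, hσ, rfl⟩
        exact hgen ⟨σ, hle₀ (hle hσ), rfl⟩)
    set S₂ : Set (Matrix ι ι K) :=
      Set.range (gin (img K ρ H₁) (img_one ρ H₁) (img_mul ρ H₁)) with hS₂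
    have hzar : zar S₂ = zar (img K ρ H₁) := zar_range hinv
    have hone₂ : (1 : Matrix ι ι K) ∈ S₂ := ⟨1, map_one _⟩
    have hmul₂ : ∀ a ∈ S₂, ∀ b ∈ S₂, a * b ∈ S₂ := by
      rintro _ ⟨a, rfl⟩ _ ⟨b, rfl⟩
      exact ⟨a * b, map_mul _ _ _⟩
    have hsim₂ : ∀ s ∈ S₂, ∃ c : K, sᵀ * J * s = c • J := fun s hs =>
      zar_sim hkl (hsimI H₁) (hzar ▸ subset_zar S₂ hs)
    have hlin₂ : ∀ s ∈ S₂, ∀ d ∈ spanK K D, s * d = d * s := fun s hs d hd =>
      zar_commute (fun s hs => hlinI H₁ s hs d hd) (hzar ▸ subset_zar S₂ hs)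
    have hSS₂ : img K ρ H₁ ⊆ S₂ := sub_range hinv
    have hS₂S : S₂ ⊆ zar (img K ρ H₁) := range_sub
    have hsemis₂ : ∀ W : Submodule K (ι → K), (∀ s ∈ S₂, ∀ w ∈ W, s *ᵥ w ∈ W) →
        ∃ W' : Submodule K (ι → K), (∀ s ∈ S₂, ∀ w ∈ W', s *ᵥ w ∈ W') ∧ IsCompl W W' := by
      intro W hW
      obtain ⟨W', h1, h2⟩ := semis H₁ hfin W (fun s hs => hW s (hSS₂ hs))
      exact ⟨W', fun s hs => zar_stable h1 (hS₂S hs), h2⟩
    have hcommt₂ : ∀ y : Matrix ι ι K, (∀ s ∈ S₂, y * s = s * y) → y ∈ spanK K D :=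
      fun y hy => commt H₁ hfin y (fun s hs => hy s (hSS₂ hs))
    have h𝓗₂ : ∀ x ∈ 𝓗, x ∈ hodgeProj S₂ := by
      intro y hy
      have := h𝓗₁ y hy
      refine ⟨this.1, fun t ht => ?_⟩
      rw [hzar]
      exact this.2 t ht
    have h𝓗z : ∀ x ∈ 𝓗, x ∈ zlie S₂ := fun x hx => hodgeProj_zlie hmul₂ (h𝓗₂ x hx)
    have hgen₂ : S₂ ⊆ zar (Submonoid.closure {m | ∃ h ∈ 𝓗, ∃ t : K, t ≠ 0 ∧
        m = 1 + (t - 1) • h} : Set (Matrix ι ι K)) := by
      refine hS₂S.trans (zar_subset_zar ?_)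
      rintro _ ⟨σ, hσ, rfl⟩
      exact hgen ⟨σ, hle₀ (hle hσ), rfl⟩
    -- seeds
    have hseedN : ∀ b, (∃ N : Matrix ι ι K, N ∈ zlie S₂ ∧ N * N = 0 ∧ Nᵀ * J + J * N = 0 ∧
        ((N * e b).rank = 1 ∨ (bar b = b ∧ ((N * e b).rank = 2 ∨ Odd (N * e b).rank)))) →
        Seed (om J) (fun b => phi (e b)) bar (lieE J S₂) b ∧
        Fu (om J) (fun b => phi (e b)) bar (lieE J S₂) b := by
      rintro b ⟨N, hNz, hN2, hNs, hr⟩
      have hr1 : 1 ≤ (N * e b).rank := by
        rcases hr with hr | ⟨-, hr | hr⟩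
        · exact hr.ge
        · omega
        · exact hr.pos
      have hNe : N * e b ≠ 0 := by
        intro h0
        rw [h0, Matrix.rank_zero] at hr1
        omega
      have hNg : phi N ∈ lieE J S₂ := mem_lieE.2 ⟨hNz, (skew_iff hdet N).2 hNs⟩
      have hNN : phi N * phi N = 0 := by rw [← map_mul, hN2, map_zero]
      have hNe' : phi N * phi (e b) ≠ 0 := by
        rw [← map_mul]
        intro h0
        exact hNe ((phi (ι := ι) (K := K)).injective (by rw [h0, map_zero]))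
      by_cases hb : bar b = b
      · by_cases hr2 : (N * e b).rank ≤ 2
        · apply hbig.seed_self hb hNg hNN hNe'
          rw [← map_mul]
          exact hr2
        · have hodd : Odd (N * e b).rank := by
            rcases hr with hr | ⟨-, hr | hr⟩
            · omega
            · omega
            · exact hr
          obtain ⟨n, P, Q, hPQ, hQP⟩ : ∃ n, ∃ (P : Matrix ι (Fin n) K)
              (Q : Matrix (Fin n) ι K), e b = P * Q ∧ Q * P = 1 :=
            ⟨_, idem_factor (hspl.idem b)⟩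
          refine hbig.seed_fu hb hNg hNN hNe' ?_
          intro u hu
          rw [phi_apply] at hu
          obtain ⟨A, hA, hAs, hAu⟩ := fu_odd hspl' hb hJ hdet hPQ hQP hone₂ hlin₂ hsemis₂
            hcommt₂ h𝓗z (fun x hx => (h𝓗 x hx).1) (fun x hx => (hadj x hx).2) hgen₂ hNz hN2 hNs
            hodd hu
          exact ⟨phi A, mem_lieE.2 ⟨hA, (skew_iff hdet A).2 hAs⟩, hAu⟩
      · apply hbig.seed_unit hb hNg hNN hNe'
        rw [← map_mul]
        change (N * e b).rank ≤ 1
        rcases hr with hr | hr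
        · exact hr.le
        · exact absurd hr.1 hb
    -- seeds from unipotent elements
    have hseedT : ∀ b, (∃ N : Matrix ι ι K, N * N = 0 ∧ 1 + N ∈ zar (img K ρ ⊤) ∧
        ((N * e b).rank = 1 ∨ (bar b = b ∧ ((N * e b).rank = 2 ∨ Odd (N * e b).rank)))) →
        Seed (om J) (fun b => phi (e b)) bar (lieE J S₂) b ∧
        Fu (om J) (fun b => phi (e b)) bar (lieE J S₂) b := by
      rintro b ⟨N, hN2, hN1, hr⟩
      have hr1 : 1 ≤ (N * e b).rank := by
        rcases hr with hr | ⟨-, hr | hr⟩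
        · exact hr.ge
        · omega
        · exact hr.pos
      have hline : ∀ t : K, 1 + t • N ∈ zar S₂ := by
        rw [hzar]
        refine line_finite ρ H₁ (T := Set.range (Nat.cast : ℕ → K))
          (Set.infinite_range_of_injective Nat.cast_injective) ?_
        rintro _ ⟨n, rfl⟩
        exact pow_line (img_one ρ ⊤) (img_mul ρ ⊤) hN2 hN1 n
      have hN0 : N ≠ 0 := by
        rintro rfl
        rw [zero_mul, Matrix.rank_zero] at hr1
        omega
      have hNz : N ∈ zlie S₂ :=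
        mem_zlie_of_infinite hmul₂ (T := Set.univ) Set.infinite_univ (fun t _ => hline t)
      have hNs : Nᵀ * J + J * N = 0 := by
        obtain ⟨c1, hc1⟩ := zar_sim hkl hsim₂ (hline 1)
        obtain ⟨c2, hc2⟩ := zar_sim hkl hsim₂ (hline 2)
        obtain ⟨a, b, ha, hb⟩ := line_sim hc1 hc2
        exact nil_sim hdet ha hb hN2 hN0
      exact hseedN b ⟨N, hNz, hN2, hNs, hr⟩
    -- seeds from Hodge projectors
    have hseedH : ∀ b, 1 < (e b).rank →
        (∃ n ∈ sig, n b = 1 ∨ n (bar b) = 1 ∨ (bar b = b ∧ n b ≤ 3)) →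
        Seed (om J) (fun b => phi (e b)) bar (lieE J S₂) b ∧
        Fu (om J) (fun b => phi (e b)) bar (lieE J S₂) b := by
      rintro b hb1 ⟨n, hn, hnb⟩
      obtain ⟨x, hx, hxn⟩ := hsig' n hn
      have hxx := (h𝓗 x hx).1
      have hL : ∀ x ∈ 𝓗, x ∈ preL J S₂ := by
        intro x hx
        refine ⟨⟨0, x, h𝓗z x hx, by rw [zero_smul, add_zero]⟩, 1, ?_⟩
        rw [(hadj x hx).2, one_smul]
      have hne1 : phi x * phi (e b) ≠ 0 := by
        rw [← map_mul]
        intro h0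
        exact (hnon x hx b hb1).1 ((phi (ι := ι) (K := K)).injective (by rw [h0, map_zero]))
      have hne2 : phi x * phi (e (bar b)) ≠ 0 := by
        rw [← map_mul]
        intro h0
        exact (hnon x hx (bar b) (by rw [hrbar n hn]; exact hb1)).1
          ((phi (ι := ι) (K := K)).injective (by rw [h0, map_zero]))
      obtain ⟨_, ⟨y, hy, rfl⟩, hne⟩ := hbig.hodge_move ⟨x, hx, rfl⟩ hne1 hne2
      have hne' : (y * x - x * y * x) * e b ≠ 0 := by
        intro h0
        apply hne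
        change (phi y * phi x - phi x * phi y * phi x) * phi (e b) = 0
        rw [← map_mul, ← map_mul, ← map_mul, ← map_sub, ← map_mul, h0, map_zero]
      obtain ⟨h1, h2⟩ := preL_hodge (hL x hx) (hL y hy) hxx
      have hye : y * e b = e b * y := preL_e hspl' hone₂ hlin₂ (hL y hy)
      have hxe : x * e b = e b * x := preL_e hspl' hone₂ hlin₂ (hL x hx)
      have hxe' : x * e (bar b) = e (bar b) * x := preL_e hspl' hone₂ hlin₂ (hL x hx)
      have hr1 : ((y * x - x * y * x) * e b).rank ≤ n b := by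
        have : (y * x - x * y * x) * e b = ((1 - x) * y) * (x * e b) := by noncomm_ring
        rw [this, ← hxn b]
        exact Matrix.rank_mul_le_right _ _
      have hr2 : ((y * x - x * y * x) * e b).rank ≤ n (bar b) := by
        have : (y * x - x * y * x) * e b = ((1 - x) * e b) * (y * x) := by
          calc (y * x - x * y * x) * e b = (1 - x) * y * (x * e b) := by noncomm_ring
            _ = (1 - x) * (y * e b) * x := by rw [hxe]; noncomm_ring
            _ = _ := by rw [hye]; noncomm_ring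
        rw [this, ← hxn (bar b), ← rank_compl hdet (hadj x hx).2 (hspl.adj b) hxe']
        exact Matrix.rank_mul_le_left _ _
      have hr0 : ((y * x - x * y * x) * e b).rank ≠ 0 := by
        intro h0
        apply hne'
        apply (phi (ι := ι) (K := K)).injective
        rw [map_zero]
        have h1 : finrank K (LinearMap.range ((y * x - x * y * x) * e b).mulVecLin) = 0 := h0
        rw [Submodule.finrank_eq_zero, LinearMap.range_eq_bot] at h1
        exact h1
      have hN2 : (y * x - x * y * x) * (y * x - x * y * x) = 0 := by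
        calc (y * x - x * y * x) * (y * x - x * y * x) = y * x * y * x - y * (x * x) * y * x -
              x * y * x * y * x + x * y * (x * x) * y * x := by noncomm_ring
          _ = 0 := by rw [hxx]; abel
      refine hseedN b ⟨_, h1, hN2, h2, ?_⟩
      rcases hnb with hnb | hnb | ⟨hbb, hnb⟩
      · left
        omega
      · left
        omega
      · generalize ((y * x - x * y * x) * e b).rank = ρ₀ at hr0 hr1
        have h3 : ρ₀ ≤ 3 := hr1.trans hnb
        interval_cases ρ₀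
        · exact absurd rfl hr0
        · exact Or.inl rfl
        · exact Or.inr ⟨hbb, Or.inl rfl⟩
        · exact Or.inr ⟨hbb, Or.inr ⟨1, rfl⟩⟩
    have hseed : ∀ b, (e b).rank ≠ 1 →
        Seed (om J) (fun b => phi (e b)) bar (lieE J S₂) b ∧
        Fu (om J) (fun b => phi (e b)) bar (lieE J S₂) b := by
      intro b hb1
      have := hrank0 b
      rcases comp b with hb | hb | hb
      · exact absurd hb hb1
      · exact hseedH b (by omega) hb
      · exact hseedT b hb
    have hthin : ∀ b, (e b).rank = 1 → hbig.Thin b := by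
      intro b hb A hA
      obtain ⟨X, rfl⟩ := (phi (ι := ι) (K := K)).surjective A
      have hXe : X * e b = e b * X := H76RM.zlie_commute hone₂
        (fun s hs => hlin₂ s hs _ (hspl.mem b)) (mem_lieE.1 hA).1
      obtain ⟨n, P, Q, hn, hPQ, hQP⟩ : ∃ n, ∃ (P : Matrix ι (Fin n) K)
          (Q : Matrix (Fin n) ι K), n = 1 ∧ e b = P * Q ∧ Q * P = 1 := by
        obtain ⟨P, Q, h1, h2⟩ := idem_factor (hspl.idem b)
        exact ⟨_, P, Q, hb, h1, h2⟩
      subst hn
      refine ⟨(Q * X * P) 0 0, ?_⟩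
      rw [← map_mul, ← map_smul]
      congr 1
      have h1 : Q * X * P = ((Q * X * P) 0 0) • (1 : Matrix (Fin 1) (Fin 1) K) := by
        ext i j
        fin_cases i
        fin_cases j
        simp
      calc X * e b = X * (e b * e b) := by rw [hspl.idem]
        _ = e b * X * e b := by rw [← mul_assoc, hXe]
        _ = P * (Q * X * P) * Q := by rw [hPQ]; simp only [Matrix.mul_assoc]
        _ = _ := by
          rw [h1, Matrix.mul_smul, Matrix.smul_mul, Matrix.mul_one, ← hPQ]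
          simp
    have hall : ∀ b, (Seed (om J) (fun b => phi (e b)) bar (lieE J S₂) b ∧
        Fu (om J) (fun b => phi (e b)) bar (lieE J S₂) b) ∨ hbig.Thin b := by
      intro b
      by_cases hb1 : (e b).rank = 1
      · exact Or.inr (hthin b hb1)
      · exact Or.inl (hseed b hb1)
    rw [← hzar]
    refine group_mem hspl' hone₂ hmul₂ hlin₂ ?_ hJ hdet h𝓗₂ hadj hx
      (comm_span hxD) (hmult0 x hx c hc) hc ?_
    · intro b u w hcore
      by_cases hb : (e b).rank = 1
      · have hcu := hcore.1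
        have hcw := hcore.2.1
        rw [phi_apply] at hcu hcw
        have h0 : u = 0 ∨ w = 0 := by
          by_contra hcon
          push Not at hcon
          have := hiso b ⟨u, w, hcu, hcw, hcon.1, hcon.2, hcore.2.2.1⟩
          omega
        refine ⟨0, (zlie S₂).zero_mem, ?_, ?_, ?_, ?_⟩
        · intro v w
          rw [Matrix.zero_mulVec, Matrix.zero_mulVec, map_zero, map_zero, LinearMap.zero_apply,
            neg_zero]
        · rcases h0 with rfl | rfl
          · rw [map_zero, zero_mul, tw_zero_left]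
          · rw [map_zero, zero_mul, tw_zero_right]
        · rcases h0 with rfl | rfl
          · rw [map_zero, zero_mul, tw_zero_right]
          · rw [map_zero, zero_mul, tw_zero_left]
        · intro c _ _
          rw [map_zero, zero_mul]
      obtain ⟨A, hA, h1, h2, h3⟩ := hbig.main hall (hseed b hb) hcore
      obtain ⟨X, rfl⟩ := (phi (ι := ι) (K := K)).surjective A
      refine ⟨X, (mem_lieE.1 hA).1, ?_, h1, h2, h3⟩
      intro v w
      have := H76RM.skew_om hdet (mem_skewE.1 hA.2) v w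
      rwa [phi_apply, phi_apply] at this
    · intro a a₀ ha
      refine hchar a a₀ ?_ c hc
      intro n hn
      obtain ⟨y, hy, hyn⟩ := hsig' n hn
      have := ha y hy
      simpa only [hyn] using this

end Pool.Agent.H76U
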