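import Mathlib

/-!
# The special linear group is generated by transvections
-/

set_option autoImplicit false
namespace Pool.Agent.H76U
open Matrix

variable {n : Type*} [Fintype n] [DecidableEq n] {K : Type*} [Field K]

/-- `diag(a, 1/a)` in the plane of two basis vectors -/
theorem plane_diag {i j : n} (hij : i ≠ j) {a : K} (ha : a ≠ 0) :
    (transvection i j a * transvection j i (-a⁻¹) * transvection i j a) *
      (transvection i j (-1) * transvection j i 1 * transvection i j (-1)) =
    diagonal (fun k => if k = i then a else if k = j then a⁻¹ else 1) := by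
  set E : Matrix n n K := single i j 1 with hE
  set F : Matrix n n K := single j i 1 with hF
  have hEE : E * E = 0 := by rw [hE, single_mul_single_of_ne _ _ _ _ (Ne.symm hij)]
  have hFF : F * F = 0 := by rw [hF, single_mul_single_of_ne _ _ _ _ hij]
  have t1 : ∀ c : K, transvection i j c = 1 + c • E := by
    intro c
    rw [transvection, hE, smul_single, smul_eq_mul, mul_one]
  have t2 : ∀ c : K, transvection j i c = 1 + c • F := by
    intro c
    rw [transvection, hF, smul_single, smul_eq_mul, mul_one]
  have hEFE : E * F * E = E := by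
    rw [hE, hF, single_mul_single_same, single_mul_single_same]; simp
  have hFEF : F * E * F = F := by
    rw [hE, hF, single_mul_single_same, single_mul_single_same]; simp
  have hw : ∀ c : K, c ≠ 0 → (1 + c • E) * (1 + (-c⁻¹) • F) * (1 + c • E) =
      1 - E * F - F * E + c • E - c⁻¹ • F := by
    intro c hc
    have e1 : (1 + c • E) * (1 + (-c⁻¹) • F) * (1 + c • E) =
        1 + (c + c) • E + (-c⁻¹) • F + (c * -c⁻¹) • (E * F) + (-c⁻¹ * c) • (F * E) +
        (c * -c⁻¹ * c) • (E * F * E) + (c * c) • (E * E) := by
      simp only [add_mul, mul_add, one_mul, mul_one, smul_mul_assoc, mul_smul_comm, smul_smul]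
      module
    rw [e1, hEE, hEFE]
    have e2 : c * -c⁻¹ = -1 := by field_simp
    have e3 : -c⁻¹ * c = -1 := by field_simp
    rw [e2, e3]
    module
  have hw1 : (1 + (-1 : K) • E) * (1 + (1 : K) • F) * (1 + (-1 : K) • E) =
      1 - E * F - F * E - E + F := by
    have := hw (-1) (by norm_num)
    have e1 : -((-1 : K))⁻¹ = 1 := by norm_num
    have e2 : ((-1 : K))⁻¹ = -1 := by norm_num
    rw [e1, e2] at this
    rw [this]
    module
  rw [t1, t2, t1, t2, hw a ha, hw1]
  have hprod : (1 - E * F - F * E + a • E - a⁻¹ • F) * (1 - E * F - F * E - E + F) =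
      1 - E * F - F * E + a • (E * F) + a⁻¹ • (F * E) := by
    have r1 : E * F * (E * F) = E * F := by rw [← mul_assoc, hEFE]
    have r2 : F * E * (F * E) = F * E := by rw [← mul_assoc, hFEF]
    have r3 : E * F * (F * E) = 0 := by rw [mul_assoc, ← mul_assoc F F E, hFF]; simp
    have r4 : F * E * (E * F) = 0 := by rw [mul_assoc, ← mul_assoc E E F, hEE]; simp
    have r5 : E * (E * F) = 0 := by rw [← mul_assoc, hEE, zero_mul]
    have r6 : E * (F * E) = E := by rw [← mul_assoc, hEFE]
    have r7 : F * (E * F) = F := by rw [← mul_assoc, hFEF]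
    have r8 : F * (F * E) = 0 := by rw [← mul_assoc, hFF, zero_mul]
    have r9 : E * F * E = E := hEFE
    have r10 : F * E * F = F := hFEF
    have r11 : E * F * F = 0 := by rw [mul_assoc, hFF, mul_zero]
    have r12 : F * E * E = 0 := by rw [mul_assoc, hEE, mul_zero]
    simp only [sub_mul, add_mul, mul_sub, mul_add, one_mul, mul_one, smul_mul_assoc,
      r1, r2, r3, r4, r5, r6, r7, r8, r9, r10, r11, r12, hEE, hFF]
    module
  rw [hprod]
  have hEF : E * F = single i i 1 := by rw [hE, hF, single_mul_single_same, mul_one]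
  have hFE : F * E = single j j 1 := by rw [hE, hF, single_mul_single_same, mul_one]
  rw [hEF, hFE]
  ext x y
  by_cases hxy : x = y
  · subst hxy
    rw [diagonal_apply_eq]
    simp only [Matrix.add_apply, Matrix.sub_apply, Matrix.smul_apply, Matrix.one_apply_eq,
      single_apply, smul_eq_mul]
    by_cases h1 : x = i
    · subst h1
      simp [Ne.symm hij]
    · by_cases h2 : x = j
      · subst h2
        simp [Ne.symm hij, h1, hij]
      · simp [h1, h2, Ne.symm h1, Ne.symm h2]
  · rw [diagonal_apply_ne _ hxy]
    simp only [Matrix.add_apply, Matrix.sub_apply, Matrix.smul_apply, Matrix.one_apply_ne hxy,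
      single_apply, smul_eq_mul]
    have h1 : ¬ (i = x ∧ i = y) := fun h => hxy (h.1.symm.trans h.2)
    have h2 : ¬ (j = x ∧ j = y) := fun h => hxy (h.1.symm.trans h.2)
    simp [h1, h2]

open scoped Classical in
theorem diag_mem {Z : Set (Matrix n n K)} (h1 : (1 : Matrix n n K) ∈ Z)
    (hmul : ∀ a ∈ Z, ∀ b ∈ Z, a * b ∈ Z)
    (htr : ∀ i j, i ≠ j → ∀ c : K, transvection i j c ∈ Z) (k : ℕ) :
    ∀ D : n → K, ∏ i, D i = 1 → (Finset.univ.filter fun i => D i ≠ 1).card ≤ k →
      diagonal D ∈ Z := by
  induction k with
  | zero =>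
    intro D _ hk
    have hD1 : D = fun _ => 1 := by
      funext i
      by_contra hne
      have : i ∈ Finset.univ.filter fun i => D i ≠ 1 :=
        Finset.mem_filter.2 ⟨Finset.mem_univ i, hne⟩
      have h2 := Finset.card_pos.2 ⟨i, this⟩
      omega
    rw [hD1, diagonal_one]; exact h1
  | succ k ih =>
    intro D hD hk
    by_cases hall : ∀ i, D i = 1
    · have hD1 : D = fun _ => 1 := funext hall
      rw [hD1, diagonal_one]; exact h1
    push Not at hall
    obtain ⟨i, hi⟩ := hall
    obtain ⟨j, hji, hj⟩ : ∃ j, j ≠ i ∧ D j ≠ 1 := by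
      by_contra hcon
      push Not at hcon
      apply hi
      rw [Finset.prod_eq_single i (fun j _ hji => hcon j hji) (fun h => absurd
        (Finset.mem_univ i) h)] at hD
      exact hD
    have hi0 : D i ≠ 0 := by
      intro h0
      rw [Finset.prod_eq_zero (Finset.mem_univ i) h0] at hD
      exact zero_ne_one hD
    set D₁ : n → K := fun k => if k = i then D i else if k = j then (D i)⁻¹ else 1 with hD₁
    set D₂ : n → K := fun k => if k = i then 1 else if k = j then D j * D i else D k with hD₂
    have hprod : diagonal D = diagonal D₁ * diagonal D₂ := by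
      rw [diagonal_mul_diagonal]
      congr 1
      funext k
      simp only [hD₁, hD₂]
      by_cases h2 : k = i
      · simp [h2]
      · by_cases h3 : k = j
        · simp only [h3, hji, if_false, if_true]
          field_simp
        · simp [h2, h3]
    have hZ₁ : diagonal D₁ ∈ Z := by
      rw [hD₁, ← plane_diag (Ne.symm hji) hi0]
      refine hmul _ (hmul _ (hmul _ (htr _ _ (Ne.symm hji) _) _ (htr _ _ hji _)) _
        (htr _ _ (Ne.symm hji) _)) _ (hmul _ (hmul _ (htr _ _ (Ne.symm hji) _) _
        (htr _ _ hji _)) _ (htr _ _ (Ne.symm hji) _))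
    have hdet : ∏ k, D₂ k = 1 := by
      have h4 := congrArg Matrix.det hprod
      rw [Matrix.det_mul, Matrix.det_diagonal, Matrix.det_diagonal, Matrix.det_diagonal,
        hD] at h4
      have h5 : ∏ k, D₁ k = 1 := by
        have h6 : ∀ k, D₁ k = (if k = i then D i else 1) * (if k = j then (D i)⁻¹ else 1) := by
          intro k
          simp only [hD₁]
          by_cases h7 : k = i
          · subst h7
            simp [Ne.symm hji]
          · simp [h7]
        simp only [h6]
        rw [Finset.prod_mul_distrib, Finset.prod_ite_eq', Finset.prod_ite_eq']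
        simp [hi0]
      rw [h5, one_mul] at h4
      exact h4.symm
    rw [hprod]
    apply hmul _ hZ₁
    apply ih D₂ hdet
    have hlt : (Finset.univ.filter fun k => D₂ k ≠ 1) ⊂ Finset.univ.filter fun k => D k ≠ 1 := by
      refine Finset.ssubset_iff_subset_ne.2 ⟨?_, ?_⟩
      · intro k hk
        rw [Finset.mem_filter] at hk ⊢
        refine ⟨hk.1, ?_⟩
        have h8 := hk.2
        simp only [hD₂] at h8
        by_cases h9 : k = i
        · rw [h9]; exact hi
        · by_cases h10 : k = j
          · rw [h10]; exact hj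
          · simpa [h9, h10] using h8
      · intro heq
        have h8 : i ∈ Finset.univ.filter fun k => D k ≠ 1 :=
          Finset.mem_filter.2 ⟨Finset.mem_univ i, hi⟩
        rw [← heq, Finset.mem_filter] at h8
        apply h8.2
        simp [hD₂]
    have := Finset.card_lt_card hlt
    omega

/-- The special linear group is generated by transvections. -/
theorem sl_gen {Z : Set (Matrix n n K)} (h1 : (1 : Matrix n n K) ∈ Z)
    (hmul : ∀ a ∈ Z, ∀ b ∈ Z, a * b ∈ Z)
    (htr : ∀ i j, i ≠ j → ∀ c : K, transvection i j c ∈ Z) {M : Matrix n n K}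
    (hM : M.det = 1) : M ∈ Z := by
  obtain ⟨L, L', D, hLD⟩ := Matrix.Pivot.exists_list_transvec_mul_diagonal_mul_list_transvec M
  have hL : ∀ L : List (TransvectionStruct n K), (L.map TransvectionStruct.toMatrix).prod ∈ Z := by
    intro L
    induction L with
    | nil => simpa using h1
    | cons t L ih =>
      rw [List.map_cons, List.prod_cons]
      exact hmul _ (htr _ _ t.hij _) _ ih
  rw [hLD]
  refine hmul _ (hmul _ (hL L) _ ?_) _ (hL L')
  apply diag_mem h1 hmul htr _ D ?_ le_rfl
  have h2 := congrArg Matrix.det hLD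
  rw [hM, Matrix.det_mul, Matrix.det_mul, TransvectionStruct.det_toMatrix_prod,
    TransvectionStruct.det_toMatrix_prod, one_mul, mul_one, Matrix.det_diagonal] at h2
  exact h2.symm

end Pool.Agent.H76U
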