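import Mathlib

/-!
# Points of a subtorus: divisibility
-/

set_option autoImplicit false
set_option linter.unusedSectionVars false
namespace Pool.Agent.H76U

theorem baer_units (K : Type*) [Field K] [IsAlgClosed K] : Module.Baer ℤ (Additive Kˣ) := by
  letI : DivisibleBy (Additive Kˣ) ℤ := by
    apply divisibleByOfSMulRightSurj
    intro n hn a
    obtain ⟨a, rfl⟩ := Additive.ofMul.surjective a
    have hroot : ∀ n : ℕ, n ≠ 0 → ∃ z : Kˣ, z ^ n = a := by
      intro n hn
      obtain ⟨z, hz⟩ := IsAlgClosed.exists_pow_nat_eq (a : K) (Nat.pos_of_ne_zero hn)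
      have hz0 : z ≠ 0 := by
        rintro rfl
        rw [zero_pow hn] at hz
        exact a.ne_zero hz.symm
      exact ⟨Units.mk0 z hz0, Units.ext (by rw [Units.val_pow_eq_pow_val]; exact hz)⟩
    obtain ⟨z, hz⟩ := hroot n.natAbs (Int.natAbs_ne_zero.2 hn)
    rcases Int.natAbs_eq n with h | h
    · refine ⟨Additive.ofMul z, ?_⟩
      change n • Additive.ofMul z = _
      rw [h, ← ofMul_zpow, zpow_natCast, hz]
    · refine ⟨Additive.ofMul z⁻¹, ?_⟩
      change n • Additive.ofMul z⁻¹ = _
      rw [h, ← ofMul_zpow, zpow_neg, inv_zpow, inv_inv, zpow_natCast, hz]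
  exact Module.Baer.of_divisible _

theorem solve_chars {K : Type*} [Field K] [IsAlgClosed K] {B : Type*} [Fintype B] [DecidableEq B]
    {σ : Type*} [Fintype σ] [DecidableEq σ] (n : σ → B → ℤ) (δ : B → Kˣ)
    (h : ∀ a : B → ℤ, (∀ s, ∑ b, a b * n s b = 0) → ∏ b, δ b ^ a b = 1) :
    ∃ t : σ → Kˣ, ∀ b, δ b = ∏ s, t s ^ n s b := by
  let Φ : (B → ℤ) →+ (σ → ℤ) :=
    { toFun := fun a s => ∑ b, a b * n s b
      map_zero' := by
        funext s
        simp
      map_add' := by
        intro a a'
        funext s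
        simp only [Pi.add_apply, add_mul, Finset.sum_add_distrib] }
  let g : (B → ℤ) →+ Additive Kˣ :=
    { toFun := fun a => Additive.ofMul (∏ b, δ b ^ a b)
      map_zero' := by simp
      map_add' := by
        intro a a'
        rw [← ofMul_mul, ← Finset.prod_mul_distrib]
        simp only [Pi.add_apply, zpow_add] }
  have hker : Φ.rangeRestrict.ker ≤ g.ker := by
    intro a ha
    rw [AddMonoidHom.mem_ker] at ha ⊢
    have h1 : Φ a = 0 := congrArg Subtype.val ha
    change Additive.ofMul (∏ b, δ b ^ a b) = 0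
    rw [h a (fun s => congrFun h1 s)]
    rfl
  set g' := Φ.rangeRestrict.liftOfSurjective Φ.rangeRestrict_surjective ⟨g, hker⟩ with hg'
  have hg'a : ∀ a, g' (Φ.rangeRestrict a) = g a := fun a =>
    Φ.rangeRestrict.liftOfRightInverse_comp_apply _ _ ⟨g, hker⟩ a
  obtain ⟨E, hE⟩ := (baer_units K).extension_property_addMonoidHom Φ.range.subtype
    Subtype.val_injective g'
  refine ⟨fun s => (E (Pi.single s 1)).toMul, fun b => ?_⟩
  have h1 : g (Pi.single b 1) = Additive.ofMul (δ b) := by
    change Additive.ofMul (∏ c, δ c ^ (Pi.single b 1 : B → ℤ) c) = _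
    rw [Finset.prod_eq_single b]
    · rw [Pi.single_eq_same, zpow_one]
    · intro c _ hc
      rw [Pi.single_eq_of_ne hc, zpow_zero]
    · intro hb
      exact absurd (Finset.mem_univ b) hb
  have h2 : g (Pi.single b 1) = E (Φ (Pi.single b 1)) := by
    rw [← hg'a, ← hE]; rfl
  have h3 : Φ (Pi.single b 1) = fun s => n s b := by
    funext s
    change ∑ c, (Pi.single b 1 : B → ℤ) c * n s c = n s b
    rw [Finset.sum_eq_single b]
    · rw [Pi.single_eq_same, one_mul]
    · intro c _ hc
      rw [Pi.single_eq_of_ne hc, zero_mul]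
    · intro hb
      exact absurd (Finset.mem_univ b) hb
  have h4 : (fun s => n s b) = ∑ s, n s b • (Pi.single s 1 : σ → ℤ) := by
    funext s
    rw [Finset.sum_apply, Finset.sum_eq_single s]
    · simp
    · intro c _ hc
      rw [Pi.smul_apply, Pi.single_eq_of_ne (Ne.symm hc), smul_zero]
    · intro hb
      exact absurd (Finset.mem_univ s) hb
  rw [h3, h4, map_sum] at h2
  simp only [map_zsmul] at h2
  rw [h1] at h2
  apply Additive.ofMul.injective
  rw [h2, ofMul_prod]
  apply Finset.sum_congr rfl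
  intro s _
  rw [ofMul_zpow]
  rfl

end Pool.Agent.H76U
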