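import Pool.Agent.Lib.H76U.Grp4
import Pool.Agent.Lib.H76U.Chars

/-!
# Determinants on the ranges of idempotents
-/

set_option autoImplicit false
set_option linter.unusedSectionVars false
namespace Pool.Agent.H76U
open Module Matrix Pool.Agent.H53Toric

variable {ι : Type*} [Fintype ι] [DecidableEq ι] {K : Type*} [Field K]

/-- determinant of `x` on the range of the idempotent `p` (if `x` commutes with `p`) -/
noncomputable def detb (p x : Matrix ι ι K) : K := (1 - p + x * p).det

theorem detb_one (p : Matrix ι ι K) : detb p 1 = 1 := by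
  rw [detb, one_mul, sub_add_cancel, Matrix.det_one]

theorem detb_mul {p x y : Matrix ι ι K} (hp : p * p = p) (hy : y * p = p * y) :
    detb p (x * y) = detb p x * detb p y := by
  rw [detb, detb, detb, ← Matrix.det_mul]
  congr 1
  have h1 : (1 - p + x * p) * (1 - p + y * p) =
      1 - p - p + p * p + (y * p - p * (y * p)) + x * p - x * (p * p) + x * (p * y) * p := by
    noncomm_ring
  rw [h1, ← hy, hp, ← mul_assoc p y p, ← hy]
  have h2 : y * p * p = y * p := by rw [mul_assoc, hp]
  have h3 : x * (y * p) * p = x * y * p := by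
    rw [mul_assoc, h2, ← mul_assoc]
  rw [h2, h3]
  abel

theorem detb_inv {p x y : Matrix ι ι K} (hp : p * p = p) (hy : y * p = p * y)
    (hxy : x * y = 1) : detb p x * detb p y = 1 := by
  rw [← detb_mul hp hy, hxy, detb_one]

theorem detb_hodge {p h : Matrix ι ι K} (hp : p * p = p) (hh : h * h = h) (hhp : h * p = p * h)
    (t : K) : detb p (1 + (t - 1) • h) = t ^ (h * p).rank := by
  rw [detb]
  have h1 : 1 - p + (1 + (t - 1) • h) * p = 1 + (t - 1) • (h * p) := by
    rw [add_mul, one_mul, smul_mul_assoc]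
    abel
  rw [h1]
  apply det_one_add_idem
  calc h * p * (h * p) = h * (p * h) * p := by noncomm_ring
    _ = h * h * (p * p) := by rw [← hhp]; noncomm_ring
    _ = h * p := by rw [hh, hp]

/-- the determinant on the range as a polynomial in the entries -/
noncomputable def pdet (p : Matrix ι ι K) : MvPolynomial (ι × ι) K :=
  (Matrix.of fun i j => MvPolynomial.C ((1 - p) i j) +
    ∑ k, MvPolynomial.X (i, k) * MvPolynomial.C (p k j) : Matrix ι ι (MvPolynomial (ι × ι) K)).det

theorem ev_pdet (p x : Matrix ι ι K) : ev x (pdet p) = detb p x := by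
  rw [pdet, detb, ← AlgHom.coe_toRingHom, RingHom.map_det]
  congr 1
  ext i j
  change ev x (MvPolynomial.C ((1 - p) i j) +
    ∑ k, MvPolynomial.X (i, k) * MvPolynomial.C (p k j)) = _
  rw [map_add, ev_C, map_sum, Matrix.add_apply, Matrix.mul_apply]
  congr 1
  apply Finset.sum_congr rfl
  intro k _
  rw [map_mul, ev_X, ev_C]

/-- the multiplier as a polynomial in the entries -/
noncomputable def pmul (J : Matrix ι ι K) (k l : ι) : MvPolynomial (ι × ι) K :=
  ∑ j, (∑ i, MvPolynomial.X (i, k) * MvPolynomial.C (J i j)) * MvPolynomial.X (j, l)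

theorem ev_pmul (J x : Matrix ι ι K) (k l : ι) : ev x (pmul J k l) = (xᵀ * J * x) k l := by
  rw [pmul, map_sum, Matrix.mul_apply]
  apply Finset.sum_congr rfl
  intro j _
  rw [map_mul, map_sum, ev_X, Matrix.mul_apply]
  congr 1
  apply Finset.sum_congr rfl
  intro i _
  rw [map_mul, ev_X, ev_C, Matrix.transpose_apply]

theorem hodge_mult {J h : Matrix ι ι K} (h1 : hᵀ * J * h = 0) (h2 : hᵀ * J + J * h = J) (t : K) :
    (1 + (t - 1) • h)ᵀ * J * (1 + (t - 1) • h) = t • J := by
  have e : (1 + (t - 1) • h)ᵀ * J * (1 + (t - 1) • h) =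
      J + (t - 1) • (hᵀ * J + J * h) + ((t - 1) * (t - 1)) • (hᵀ * J * h) := by
    rw [Matrix.transpose_add, Matrix.transpose_one, Matrix.transpose_smul]
    simp only [add_mul, mul_add, mul_one, one_mul, smul_mul_assoc, mul_smul_comm]
    module
  rw [e, h1, h2, smul_zero, add_zero]
  module

end Pool.Agent.H76U
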