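import Pool.Agent.Lib.H76U.Defs
import Pool.Agent.Lib.H76U.Det4

/-!
# Splitting idempotents and change of fields
-/

set_option autoImplicit false
set_option linter.unusedSectionVars false
namespace Pool.Agent.H76U
open Module Matrix Pool.Agent.H53Toric
open Pool.Agent.H76RM (spanK)

variable {ι : Type*} [Fintype ι] [DecidableEq ι]
variable {M : Type*} [Field M] [CharZero M] {K : Type*} [Field K] [CharZero K]

theorem map_rat (i : M →+* K) (d : Matrix ι ι ℚ) :
    (d.map (algebraMap ℚ M)).map i = d.map (algebraMap ℚ K) := by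
  ext a b
  simp

theorem map_mul' (i : M →+* K) (x y : Matrix ι ι M) : (x * y).map i = x.map i * y.map i :=
  Matrix.map_mul

theorem map_smul' (i : M →+* K) (c : M) (x : Matrix ι ι M) : (c • x).map i = i c • x.map i := by
  ext a b
  simp

theorem spanK_map (i : M →+* K) {D : Subalgebra ℚ (Matrix ι ι ℚ)} {x : Matrix ι ι M}
    (hx : x ∈ spanK M D) : x.map i ∈ spanK K D := by
  refine Submodule.span_induction (p := fun x _ => x.map i ∈ spanK K D) ?_ ?_ ?_ ?_ hx
  · rintro _ ⟨d, hd, rfl⟩
    apply Submodule.subset_span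
    exact ⟨d, hd, map_rat i d⟩
  · rw [Matrix.map_zero i (map_zero i)]
    exact (spanK K D).zero_mem
  · intro a b _ _ ha hb
    rw [Matrix.map_add i (map_add i)]
    exact (spanK K D).add_mem ha hb
  · intro c a _ ha
    rw [map_smul' i]
    exact (spanK K D).smul_mem _ ha

theorem spanK_mul {D : Subalgebra ℚ (Matrix ι ι ℚ)} {x y : Matrix ι ι K}
    (hx : x ∈ spanK K D) (hy : y ∈ spanK K D) : x * y ∈ spanK K D := by
  refine Submodule.span_induction (p := fun x _ => x * y ∈ spanK K D) ?_ ?_ ?_ ?_ hx
  · rintro _ ⟨d, hd, rfl⟩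
    refine Submodule.span_induction (p := fun y _ => d.map (algebraMap ℚ K) * y ∈ spanK K D)
      ?_ ?_ ?_ ?_ hy
    · rintro _ ⟨d', hd', rfl⟩
      apply Submodule.subset_span
      exact ⟨d * d', D.mul_mem hd hd', by rw [Matrix.map_mul]⟩
    · rw [mul_zero]; exact (spanK K D).zero_mem
    · intro a b _ _ ha hb
      rw [mul_add]; exact (spanK K D).add_mem ha hb
    · intro c a _ ha
      rw [mul_smul_comm]; exact (spanK K D).smul_mem _ ha
  · rw [zero_mul]; exact (spanK K D).zero_mem
  · intro a b _ _ ha hb
    rw [add_mul]; exact (spanK K D).add_mem ha hb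
  · intro c a _ ha
    rw [smul_mul_assoc]; exact (spanK K D).smul_mem _ ha

theorem IsSplitting.map {D : Subalgebra ℚ (Matrix ι ι ℚ)} {ψ : Matrix ι ι ℚ} {m : ℕ}
    {bar : Fin m → Fin m} {e : Fin m → Matrix ι ι M} (h : IsSplitting D ψ bar e)
    (i : M →+* K) : IsSplitting D ψ bar (fun b => (e b).map i) where
  mem := fun b => spanK_map i (h.mem b)
  idem := by
    intro b
    rw [← map_mul', h.idem]
  ne_zero := by
    intro b h0
    apply h.ne_zero b
    ext j k
    have h1 := congrFun (congrFun h0 j) k
    rw [Matrix.map_apply, Matrix.zero_apply] at h1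
    rw [Matrix.zero_apply]
    exact (map_eq_zero i).1 h1
  barbar := h.barbar
  adj := by
    intro b
    have h1 := congrArg (fun x : Matrix ι ι M => x.map i) (h.adj b)
    simp only [map_mul', map_rat] at h1
    rw [← Matrix.transpose_map]
    exact h1
  corner := by
    intro b x hx
    refine Submodule.span_induction (p := fun x _ => ∃ c : K,
      (e b).map i * x * (e b).map i = c • (e b).map i) ?_ ?_ ?_ ?_ hx
    · rintro _ ⟨d, hd, rfl⟩
      obtain ⟨c, hc⟩ := h.corner b (d.map (algebraMap ℚ M)) (Submodule.subset_span ⟨d, hd, rfl⟩)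
      refine ⟨i c, ?_⟩
      rw [← map_smul', ← hc, map_mul', map_mul', map_rat]
    · exact ⟨0, by rw [mul_zero, zero_mul, zero_smul]⟩
    · rintro a a' _ _ ⟨c, hc⟩ ⟨c', hc'⟩
      exact ⟨c + c', by rw [mul_add, add_mul, hc, hc', add_smul]⟩
    · rintro k a _ ⟨c, hc⟩
      exact ⟨k * c, by rw [mul_smul_comm, smul_mul_assoc, hc, smul_smul]⟩
  orth := by
    intro b c hbc x hx
    refine Submodule.span_induction (p := fun x _ => (e b).map i * x * (e c).map i = 0)
      ?_ ?_ ?_ ?_ hx
    · rintro _ ⟨d, hd, rfl⟩
      have h1 := h.orth b c hbc (d.map (algebraMap ℚ M)) (Submodule.subset_span ⟨d, hd, rfl⟩)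
      rw [← map_rat i d, ← map_mul', ← map_mul', h1, Matrix.map_zero i (map_zero i)]
    · rw [mul_zero, zero_mul]
    · intro a a' _ _ ha ha'
      rw [mul_add, add_mul, ha, ha', add_zero]
    · intro k a _ ha
      rw [mul_smul_comm, smul_mul_assoc, ha, smul_zero]
  full := by
    have hvec : ∀ (x : Matrix ι ι M) (u : ι → M), (fun j => i ((x *ᵥ u) j)) =
        x.map i *ᵥ fun j => i (u j) := by
      intro x u
      funext j
      simp [Matrix.mulVec, dotProduct, map_sum]
    have h1 : ∀ v : ι → M, (fun j => i (v j)) ∈ Submodule.span K {w | ∃ x ∈ spanK K D, ∃ b,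
        ∃ u : ι → K, w = x *ᵥ ((e b).map i *ᵥ u)} := by
      intro v
      refine Submodule.span_induction (p := fun v _ => (fun j => i (v j)) ∈
        Submodule.span K {w | ∃ x ∈ spanK K D, ∃ b, ∃ u : ι → K,
          w = x *ᵥ ((e b).map i *ᵥ u)}) ?_ ?_ ?_ ?_ (h.full v)
      · rintro _ ⟨x, hx, b, u, rfl⟩
        apply Submodule.subset_span
        refine ⟨x.map i, spanK_map i hx, b, fun j => i (u j), ?_⟩
        rw [hvec, hvec]
      · have : (fun j => i ((0 : ι → M) j)) = 0 := by
          funext j
          simp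
        rw [this]
        exact Submodule.zero_mem _
      · intro a b _ _ ha hb
        have : (fun j => i ((a + b) j)) = (fun j => i (a j)) + fun j => i (b j) := by
          funext j
          simp
        rw [this]
        exact Submodule.add_mem _ ha hb
      · intro c a _ ha
        have : (fun j => i ((c • a) j)) = i c • fun j => i (a j) := by
          funext j
          simp
        rw [this]
        exact Submodule.smul_mem _ _ ha
    intro v
    have h2 : v = ∑ j, v j • (fun k => i ((Pi.single j (1 : M) : ι → M) k)) := by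
      funext k
      rw [Finset.sum_apply, Finset.sum_eq_single k]
      · simp
      · intro j _ hj
        simp [Pi.single_apply, Ne.symm hj]
      · intro hk
        exact absurd (Finset.mem_univ k) hk
    rw [h2]
    exact Submodule.sum_mem _ fun j _ => Submodule.smul_mem _ _ (h1 _)

/-- rank of an idempotent under field extensions -/
theorem rank_idem_map {p : Matrix ι ι M} (hp : p * p = p) (i : M →+* K) :
    (p.map i).rank = p.rank := by
  obtain ⟨P, Q, hPQ, hQP⟩ := idem_factor hp
  have h1 : p.map i = P.map i * Q.map i := by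
    rw [← Matrix.map_mul, ← hPQ]
  have h2 : Q.map i * P.map i = (1 : Matrix (Fin p.rank) (Fin p.rank) K) := by
    rw [← Matrix.map_mul, hQP, Matrix.map_one i (map_zero i) (map_one i)]
  apply le_antisymm
  · rw [h1]
    refine (Matrix.rank_mul_le_left _ _).trans ?_
    exact (Matrix.rank_le_card_width (P.map i)).trans (Fintype.card_fin _).le
  · have h3 : (1 : Matrix (Fin p.rank) (Fin p.rank) K).rank = p.rank := by
      rw [Matrix.rank_one, Fintype.card_fin]
    have h4 : (1 : Matrix (Fin p.rank) (Fin p.rank) K) = Q.map i * (p.map i * P.map i) := by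
      rw [h1, Matrix.mul_assoc, h2, Matrix.mul_one, h2]
    calc p.rank = (1 : Matrix (Fin p.rank) (Fin p.rank) K).rank := h3.symm
      _ = (Q.map i * (p.map i * P.map i)).rank := by rw [← h4]
      _ ≤ (p.map i * P.map i).rank := Matrix.rank_mul_le_right _ _
      _ ≤ (p.map i).rank := Matrix.rank_mul_le_left _ _

/-- two splittings: every idempotent of the first is equivalent to one of the second -/
theorem IsSplitting.conj {D : Subalgebra ℚ (Matrix ι ι ℚ)} {ψ : Matrix ι ι ℚ} {m : ℕ}
    {bar : Fin m → Fin m} {e e' : Fin m → Matrix ι ι K} (h : IsSplitting D ψ bar e)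
    (h' : IsSplitting D ψ bar e') (b : Fin m) :
    ∃ c, (∃ d ∈ spanK K D, e' b * d * e c ≠ 0) ∧
      ∀ x : Matrix ι ι K, (∀ d ∈ spanK K D, x * d = d * x) → detb (e' b) x = detb (e c) x := by
  have hb := h'.ne_zero b
  have hspan : ∀ {f : Fin m → Matrix ι ι K}, IsSplitting D ψ bar f → ∀ y : Matrix ι ι K, y ≠ 0 →
      ∃ c, ∃ d ∈ spanK K D, y * d * f c ≠ 0 := by
    intro f hf y hy
    by_contra hcon
    push Not at hcon
    apply hy
    apply (phi (ι := ι) (K := K)).injective
    apply LinearMap.ext
    intro v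
    rw [map_zero, LinearMap.zero_apply, phi_apply]
    refine Submodule.span_induction (p := fun v _ => y *ᵥ v = 0) ?_ ?_ ?_ ?_ (hf.full v)
    · rintro _ ⟨x, hx, c, u, rfl⟩
      rw [Matrix.mulVec_mulVec, Matrix.mulVec_mulVec, hcon c x hx, Matrix.zero_mulVec]
    · rw [Matrix.mulVec_zero]
    · intro a b _ _ ha hb
      rw [Matrix.mulVec_add, ha, hb, add_zero]
    · intro a v _ hv
      rw [Matrix.mulVec_smul, hv, smul_zero]
  obtain ⟨c, d, hd, hne⟩ := hspan h (e' b) hb
  refine ⟨c, ⟨d, hd, hne⟩, ?_⟩
  obtain ⟨b', d', hd', hne'⟩ := hspan h' _ hne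
  have hdd : d * e c * d' ∈ spanK K D := spanK_mul (spanK_mul hd (h.mem c)) hd'
  have hbb' : b = b' := by
    by_contra hbb
    apply hne'
    have := h'.orth b b' hbb _ hdd
    calc e' b * d * e c * d' * e' b' = e' b * (d * e c * d') * e' b' := by noncomm_ring
      _ = 0 := this
  subst hbb'
  obtain ⟨s, hs⟩ := h'.corner b _ hdd
  have hs0 : s ≠ 0 := by
    rintro rfl
    apply hne'
    calc e' b * d * e c * d' * e' b = e' b * (d * e c * d') * e' b := by noncomm_ring
      _ = 0 := by rw [hs, zero_smul]
  set α := e' b * d * e c with hα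
  set β := s⁻¹ • (e c * d' * e' b) with hβ
  have hαD : α ∈ spanK K D := spanK_mul (spanK_mul (h'.mem b) hd) (h.mem c)
  have hβD : β ∈ spanK K D :=
    (spanK K D).smul_mem _ (spanK_mul (spanK_mul (h.mem c) hd') (h'.mem b))
  have hαβ : α * β = e' b := by
    rw [hβ, mul_smul_comm]
    have : e' b * d * e c * (e c * d' * e' b) = e' b * (d * e c * d') * e' b := by
      calc e' b * d * e c * (e c * d' * e' b) = e' b * d * (e c * e c) * d' * e' b := by
            noncomm_ring
        _ = _ := by rw [h.idem]; noncomm_ring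
    rw [this, hs, smul_smul, inv_mul_cancel₀ hs0, one_smul]
  have hβα : β * α = e c := by
    obtain ⟨t, ht⟩ := h.corner c (d' * e' b * d) (spanK_mul (spanK_mul hd' (h'.mem b)) hd)
    have h1 : β * α = (s⁻¹ * t) • e c := by
      rw [hβ, smul_mul_assoc]
      have : e c * d' * e' b * (e' b * d * e c) = e c * (d' * e' b * d) * e c := by
        calc e c * d' * e' b * (e' b * d * e c) = e c * d' * (e' b * e' b) * d * e c := by
              noncomm_ring
          _ = _ := by rw [h'.idem]; noncomm_ring
      rw [this, ht, smul_smul]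
    have h2 : (β * α) * (β * α) = β * α := by
      calc (β * α) * (β * α) = β * (α * β) * α := by noncomm_ring
        _ = β * α := by
          rw [hαβ, hα]
          calc β * e' b * (e' b * d * e c) = β * (e' b * e' b) * d * e c := by noncomm_ring
            _ = β * (e' b * d * e c) := by rw [h'.idem]; noncomm_ring
    have hec : e c ≠ 0 := by
      intro h0
      apply hne
      rw [hα, h0, mul_zero]
    rw [h1] at h2 ⊢
    rw [smul_mul_smul_comm, h.idem, ← sub_eq_zero, ← sub_smul] at h2
    rcases smul_eq_zero.1 h2 with h3 | h3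
    · have h4 : (s⁻¹ * t) * ((s⁻¹ * t) - 1) = 0 := by linear_combination h3
      rcases mul_eq_zero.1 h4 with h5 | h5
      · exfalso
        have h6 : α * β * (α * β) = 0 := by
          calc α * β * (α * β) = α * (β * α) * β := by noncomm_ring
            _ = 0 := by rw [h1, h5, zero_smul, mul_zero, zero_mul]
        rw [hαβ, h'.idem] at h6
        exact hb h6
      · rw [sub_eq_zero.1 h5, one_smul]
    · exact absurd h3 hec
  intro x hx
  have hxα : x * α = α * x := hx α hαD
  have hxβ : x * β = β * x := hx β hβD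
  rw [detb, detb, ← hαβ, ← hβα]
  have e1 : 1 - α * β + x * (α * β) = 1 + ((x - 1) * α) * β := by noncomm_ring
  have e2 : 1 - β * α + x * (β * α) = 1 + β * ((x - 1) * α) := by
    have : β * ((x - 1) * α) = β * x * α - β * α := by noncomm_ring
    rw [this, ← hxβ]
    noncomm_ring
  rw [e1, e2, Matrix.det_one_add_mul_comm]

end Pool.Agent.H76U
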