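import Pool.Agent.Lib.H76U.Odd4

/-!
# Components of symplectic type with an element of odd rank (continued)
-/

set_option autoImplicit false
set_option linter.unusedSectionVars false
namespace Pool.Agent.H76U
open Module Matrix Pool.Agent.H53Toric
open Pool.Agent.H76RM (zar_commute zlie_commute)

variable {ι : Type*} [Fintype ι] [DecidableEq ι] {K : Type*} [Field K]

/-- components are irreducible -/
theorem irr_comp {B : Type*} [Fintype B] [DecidableEq B] {J : Matrix ι ι K}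
    {DD : Submodule K (Matrix ι ι K)}
    {bar : B → B} {e : B → Matrix ι ι K} (h : Split4 J DD bar e) (b : B)
    {S : Set (Matrix ι ι K)}
    (semis : ∀ W : Submodule K (ι → K), (∀ s ∈ S, ∀ w ∈ W, s *ᵥ w ∈ W) →
      ∃ W' : Submodule K (ι → K), (∀ s ∈ S, ∀ w ∈ W', s *ᵥ w ∈ W') ∧ IsCompl W W')
    (commt : ∀ y : Matrix ι ι K, (∀ s ∈ S, y * s = s * y) → y ∈ DD)
    {U : Submodule K (ι → K)} (hU : ∀ s ∈ S, ∀ w ∈ U, s *ᵥ w ∈ U)
    (hUb : ∀ w ∈ U, e b *ᵥ w = w) : U = ⊥ ∨ ∀ v, e b *ᵥ v = v → v ∈ U := by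
  obtain ⟨W', hst', hcompl⟩ := semis U hU
  set π : Module.End K (ι → K) := U.subtype ∘ₗ U.projectionOnto W' hcompl with hπ
  have hπW : ∀ w ∈ U, π w = w := by
    intro w hw
    change ((U.projectionOnto W' hcompl w : U) : ι → K) = w
    rw [Submodule.projectionOnto_apply_left hcompl ⟨w, hw⟩]
  have hπW' : ∀ w ∈ W', π w = 0 := by
    intro w hw
    change ((U.projectionOnto W' hcompl w : U) : ι → K) = 0
    rw [(Submodule.projectionOnto_apply_eq_zero_iff hcompl).2 hw]; rfl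
  have hπm : ∀ w, π w ∈ U := fun w => (U.projectionOnto W' hcompl w).2
  obtain ⟨p, hp⟩ := (phi (ι := ι) (K := K)).surjective π
  have hpD : p ∈ DD := by
    apply commt
    intro s hs
    apply (phi (ι := ι) (K := K)).injective
    rw [map_mul, map_mul, hp]
    apply LinearMap.ext
    intro w
    obtain ⟨w1, hw1, w2, hw2, rfl⟩ := Submodule.mem_sup.1
      (show w ∈ U ⊔ W' by rw [hcompl.sup_eq_top]; trivial)
    change π (phi s (w1 + w2)) = phi s (π (w1 + w2))
    rw [map_add, map_add, map_add, hπW w1 hw1, hπW' w2 hw2, add_zero, phi_apply, phi_apply,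
      hπW _ (hU s hs w1 hw1), hπW' _ (hst' s hs w2 hw2), add_zero]
  obtain ⟨c, hc⟩ := h.corner b p hpD
  have hcor : ∀ w, e b *ᵥ (π (e b *ᵥ w)) = c • (e b *ᵥ w) := by
    intro w
    have := congrArg (fun m => m *ᵥ w) hc
    simp only [Matrix.smul_mulVec, ← Matrix.mulVec_mulVec] at this
    rw [← hp, phi_apply]
    exact this
  by_cases hbot : U = ⊥
  · exact Or.inl hbot
  right
  obtain ⟨u, hu, hu0⟩ := (Submodule.ne_bot_iff U).1 hbot
  have hc1 : c = 1 := by
    have h1 := hcor u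
    rw [hUb u hu, hπW u hu, hUb u hu] at h1
    have h2 : (c - 1) • u = 0 := by rw [sub_smul, one_smul, ← h1, sub_self]
    rcases smul_eq_zero.1 h2 with h3 | h3
    · exact sub_eq_zero.1 h3
    · exact absurd h3 hu0
  intro v hv
  have h1 := hcor v
  rw [hv, hc1, one_smul, hUb _ (hπm v)] at h1
  rw [← h1]
  exact hπm v

section
variable {n : ℕ} {P : Matrix ι (Fin n) K} {Q : Matrix (Fin n) ι K} {p : Matrix ι ι K}

/-- operators on a component -/
noncomputable def Lb (J : Matrix ι ι K) (S : Set (Matrix ι ι K)) (P : Matrix ι (Fin n) K)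
    (Q : Matrix (Fin n) ι K) : Submodule K (Module.End K (Fin n → K)) :=
  ((preL J S).map (cmp P Q)).map (phi (ι := Fin n) (K := K)).toLinearMap

theorem mem_Lb {J : Matrix ι ι K} {S : Set (Matrix ι ι K)} {X : Matrix (Fin n) (Fin n) K} :
    phi X ∈ Lb J S P Q ↔ ∃ A ∈ preL J S, cmp P Q A = X := by
  constructor
  · rintro ⟨_, ⟨A, hA, rfl⟩, hX⟩
    exact ⟨A, hA, (phi (ι := Fin n) (K := K)).injective hX⟩
  · rintro ⟨A, hA, rfl⟩
    exact ⟨_, ⟨A, hA, rfl⟩, rfl⟩

end

section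
variable [IsAlgClosed K] [CharZero K] {B : Type*} [Fintype B] [DecidableEq B]
    {J : Matrix ι ι K} {DD : Submodule K (Matrix ι ι K)}
    {bar : B → B} {e : B → Matrix ι ι K} (h : Split4 J DD bar e) {b : B} (hb : bar b = b)
    (hJ : Jᵀ = -J) (hdet : IsUnit J.det)
    {n : ℕ} {P : Matrix ι (Fin n) K} {Q : Matrix (Fin n) ι K}
    (hPQ : e b = P * Q) (hQP : Q * P = 1)
    {S : Set (Matrix ι ι K)} (hS1 : (1 : Matrix ι ι K) ∈ S)
    (hSD : ∀ s ∈ S, ∀ d ∈ DD, s * d = d * s)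
    (semis : ∀ W : Submodule K (ι → K), (∀ s ∈ S, ∀ w ∈ W, s *ᵥ w ∈ W) →
      ∃ W' : Submodule K (ι → K), (∀ s ∈ S, ∀ w ∈ W', s *ᵥ w ∈ W') ∧ IsCompl W W')
    (commt : ∀ y : Matrix ι ι K, (∀ s ∈ S, y * s = s * y) → y ∈ DD)
    {𝓗 : Set (Matrix ι ι K)} (h𝓗z : ∀ x ∈ 𝓗, x ∈ zlie S) (h𝓗i : ∀ x ∈ 𝓗, x * x = x)
    (hadj : ∀ x ∈ 𝓗, xᵀ * J + J * x = J)
    (hgen : S ⊆ zar (Submonoid.closure {m | ∃ h ∈ 𝓗, ∃ t : K, t ≠ 0 ∧
      m = 1 + (t - 1) • h} : Set (Matrix ι ι K)))

include h hS1 hSD in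
theorem preL_e {A : Matrix ι ι K} (hA : A ∈ preL J S) : A * e b = e b * A :=
  preL_commute hS1 (fun s hs => hSD s hs _ (h.mem b)) hA

include h hb hJ hdet hPQ hQP hS1 hSD semis commt h𝓗z h𝓗i hadj hgen in
theorem amb_comp : Amb (Lb J S P Q) (adjE (Pᵀ * J * P)) := by
  have hpJ : (e b)ᵀ * J = J * e b := by
    have := h.adj b
    rwa [hb] at this
  have hdb := det_cmp hPQ hQP hpJ hdet
  have hJb : (Pᵀ * J * P)ᵀ = -(Pᵀ * J * P) := by
    rw [Matrix.transpose_mul, Matrix.transpose_mul, Matrix.transpose_transpose, hJ,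
      Matrix.neg_mul, Matrix.mul_neg, Matrix.mul_assoc]
  have h𝓗L : ∀ x ∈ 𝓗, x ∈ preL J S := by
    intro x hx
    refine ⟨⟨0, x, h𝓗z x hx, by rw [zero_smul, add_zero]⟩, 1, ?_⟩
    rw [hadj x hx, one_smul]
  have hone : (1 : Matrix ι ι K) ∈ preL J S := by
    refine ⟨⟨1, 0, (zlie S).zero_mem, by rw [one_smul, zero_add]⟩, 2, ?_⟩
    rw [Matrix.transpose_one, one_mul, mul_one, two_smul]
  constructor
  · -- lie
    intro X hX Y hY
    obtain ⟨x, rfl⟩ := (phi (ι := Fin n) (K := K)).surjective X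
    obtain ⟨y, rfl⟩ := (phi (ι := Fin n) (K := K)).surjective Y
    obtain ⟨A, hA, rfl⟩ := mem_Lb.1 hX
    obtain ⟨A', hA', rfl⟩ := mem_Lb.1 hY
    rw [← map_mul (phi (ι := Fin n) (K := K)), ← map_mul (phi (ι := Fin n) (K := K)),
      ← map_sub (phi (ι := Fin n) (K := K)), ← cmp_mul hPQ hQP (preL_e h hS1 hSD hA'),
      ← cmp_mul hPQ hQP (preL_e h hS1 hSD hA), ← map_sub]
    obtain ⟨h1, h2⟩ := preL_bracket hA hA'
    exact mem_Lb.2 ⟨_, ⟨⟨0, _, h1, by rw [zero_smul, add_zero]⟩, 0, by rw [h2, zero_smul]⟩, rfl⟩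
  · exact adjE_mul hdb
  · exact adjE_adjE hJb hdb
  · exact adjE_tr hdb
  · -- irr
    intro W hW
    have h1 : ∀ x ∈ 𝓗, ∀ w ∈ W, cmp P Q x *ᵥ w ∈ W := by
      intro x hx w hw
      have hxe := preL_e (b := b) h hS1 hSD (h𝓗L x hx)
      have h2 : phi ((2 : K) • cmp P Q x - 1) ∈ invol (Lb J S P Q) (adjE (Pᵀ * J * P)) := by
        refine ⟨?_, ?_, ?_⟩
        · refine mem_Lb.2 ⟨(2 : K) • x - 1, (preL J S).sub_mem
            ((preL J S).smul_mem _ (h𝓗L x hx)) hone, ?_⟩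
          rw [map_sub, map_smul, cmp_one hPQ hQP]
        · rw [← map_mul, ← map_one (phi (ι := Fin n) (K := K))]
          congr 1
          have h3 : cmp P Q x * cmp P Q x = cmp P Q x := by
            rw [← cmp_mul hPQ hQP hxe, h𝓗i x hx]
          simp only [sub_mul, mul_sub, smul_mul_assoc, mul_smul_comm, h3, mul_one, one_mul]
          module
        · rw [skew_iff hdb]
          have h3 := cmp_sim hPQ hQP hpJ hxe
          rw [hadj x hx] at h3
          rw [Matrix.transpose_sub, Matrix.transpose_smul, Matrix.transpose_one]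
          simp only [sub_mul, mul_sub, smul_mul_assoc, mul_smul_comm, mul_one, one_mul]
          have h4 : (2 : K) • ((cmp P Q x)ᵀ * (Pᵀ * J * P)) - Pᵀ * J * P +
              ((2 : K) • (Pᵀ * J * P * cmp P Q x) - Pᵀ * J * P) =
              (2 : K) • ((cmp P Q x)ᵀ * (Pᵀ * J * P) + Pᵀ * J * P * cmp P Q x) -
              (2 : K) • (Pᵀ * J * P) := by module
          rw [h4, h3, sub_self]
      have h3 := hW _ h2 w hw
      rw [phi_apply, Matrix.sub_mulVec, Matrix.smul_mulVec, Matrix.one_mulVec] at h3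
      have h4 := W.smul_mem (1 / 2 : K) (W.add_mem h3 hw)
      rw [sub_add_cancel, smul_smul] at h4
      norm_num at h4
      exact h4
    set U : Submodule K (ι → K) := W.map P.mulVecLin with hU
    have hUst : ∀ s ∈ S, ∀ w ∈ U, s *ᵥ w ∈ U := by
      intro s hs
      refine zar_stable ?_ (hgen hs)
      intro m hm
      refine Submonoid.closure_induction (motive := fun m _ => ∀ w ∈ U, m *ᵥ w ∈ U)
        ?_ ?_ ?_ hm
      · rintro _ ⟨x, hx, t, -, rfl⟩ _ ⟨w, hw, rfl⟩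
        rw [Matrix.mulVecLin_apply, Matrix.add_mulVec, Matrix.one_mulVec, Matrix.smul_mulVec]
        apply U.add_mem ⟨w, hw, rfl⟩
        apply U.smul_mem
        refine ⟨cmp P Q x *ᵥ w, h1 x hx w hw, ?_⟩
        rw [Matrix.mulVecLin_apply, Matrix.mulVec_mulVec, Matrix.mulVec_mulVec,
          P_cmp hPQ hQP (preL_e h hS1 hSD (h𝓗L x hx))]
      · intro w hw
        rw [Matrix.one_mulVec]; exact hw
      · intro x y _ _ hx hy w hw
        rw [← Matrix.mulVec_mulVec]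
        exact hx _ (hy w hw)
    have hUb : ∀ w ∈ U, e b *ᵥ w = w := by
      rintro _ ⟨w, -, rfl⟩
      rw [Matrix.mulVecLin_apply, Matrix.mulVec_mulVec, p_P hPQ hQP]
    rcases irr_comp h b semis commt hUst hUb with h2 | h2
    · left
      rw [eq_bot_iff]
      intro w hw
      have h3 : P *ᵥ w ∈ U := ⟨w, hw, rfl⟩
      rw [h2, Submodule.mem_bot] at h3
      rw [Submodule.mem_bot]
      have h4 : w = Q *ᵥ (P *ᵥ w) := by rw [Matrix.mulVec_mulVec, hQP, Matrix.one_mulVec]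
      rw [h4, h3, Matrix.mulVec_zero]
    · right
      rw [eq_top_iff]
      intro w _
      obtain ⟨w', hw', hww⟩ := h2 (P *ᵥ w) (by
        rw [Matrix.mulVec_mulVec, p_P hPQ hQP])
      rw [Matrix.mulVecLin_apply] at hww
      have h4 : w' = w := by
        have h5 := congrArg (fun v => Q *ᵥ v) hww
        simp only [Matrix.mulVec_mulVec, hQP, Matrix.one_mulVec] at h5
        exact h5
      rw [← h4]
      exact hw'

include h hb hJ hdet hPQ hQP hS1 hSD semis commt h𝓗z h𝓗i hadj hgen in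
/-- all the transvections of the component -/
theorem fu_odd {N : Matrix ι ι K} (hNz : N ∈ zlie S) (hN2 : N * N = 0)
    (hNs : Nᵀ * J + J * N = 0) (hodd : Odd (N * e b).rank) {u : ι → K}
    (hu : e b *ᵥ u = u) :
    ∃ A ∈ zlie S, Aᵀ * J + J * A = 0 ∧ phi A * phi (e b) = tw (om J) u u := by
  have hpJ : (e b)ᵀ * J = J * e b := by
    have := h.adj b
    rwa [hb] at this
  have hdb := det_cmp hPQ hQP hpJ hdet
  have hJb : (Pᵀ * J * P)ᵀ = -(Pᵀ * J * P) := by
    rw [Matrix.transpose_mul, Matrix.transpose_mul, Matrix.transpose_transpose, hJ,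
      Matrix.neg_mul, Matrix.mul_neg, Matrix.mul_assoc]
  have hNL : N ∈ preL J S :=
    ⟨⟨0, N, hNz, by rw [zero_smul, add_zero]⟩, 0, by rw [hNs, zero_smul]⟩
  have hNe := preL_e (b := b) h hS1 hSD hNL
  have hamb := amb_comp h hb hJ hdet hPQ hQP hS1 hSD semis commt h𝓗z h𝓗i hadj hgen
  have hrank := rank_cmp hPQ hQP hNe
  rcases Nat.eq_zero_or_pos n with hn | hn
  · exfalso
    subst hn
    rw [← hrank] at hodd
    have : (cmp P Q N).rank ≤ 0 := (Matrix.rank_le_card_height _).trans (by simp)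
    rw [Nat.le_zero.1 this] at hodd
    exact Nat.not_odd_zero hodd
  have : Nonempty (Fin n) := ⟨⟨0, hn⟩⟩
  have hfull := fun {X : Module.End K (Fin n → K)} (hX : adjE (Pᵀ * J * P) X = -X) =>
    hamb.full (N := phi (cmp P Q N)) (mem_Lb.2 ⟨N, hNL, rfl⟩)
      (by rw [← map_mul, ← cmp_mul hPQ hQP hNe, hN2, map_zero, map_zero])
      ((skew_iff hdb _).2 (by rw [cmp_sim hPQ hQP hpJ hNe, hNs]; simp))
      (by
        change Odd (cmp P Q N).rank
        rw [hrank]; exact hodd) hX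
  set d := Q *ᵥ u with hd
  have hPd : P *ᵥ d = u := by rw [hd, Matrix.mulVec_mulVec, ← hPQ, hu]
  set X := Matrix.vecMulVec d ((Pᵀ * J * P) *ᵥ d) with hX
  have hXphi : phi X = trv (om (Pᵀ * J * P)) d := phi_trv _ _
  have hX2 : X * X = 0 := by
    apply (phi (ι := Fin n) (K := K)).injective
    rw [map_mul, hXphi, map_zero, trv_sq (om_alt hJb)]
  have hXg := hfull ((skew_iff hdb X).2 (trv_skew hJb d))
  have hsetup := hamb.setup
  obtain ⟨M, hM, hXMX⟩ := exists_partner hsetup.lie hsetup.irr hsetup.tr hXg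
    (by rw [← map_mul, hX2, map_zero])
  obtain ⟨m, rfl⟩ := (phi (ι := Fin n) (K := K)).surjective M
  have hsub : Submodule.span K (invol (Lb J S P Q) (adjE (Pᵀ * J * P))) ≤ Lb J S P Q :=
    Submodule.span_le.2 fun y hy => hy.1
  obtain ⟨A, hA, hAX⟩ := mem_Lb.1 (hsub hXg)
  obtain ⟨C, hC, hCm⟩ := mem_Lb.1 (hsub hM)
  have e1 : X * m * X = X := by
    apply (phi (ι := Fin n) (K := K)).injective
    rw [map_mul, map_mul, hXMX]
  have hAe := preL_e (b := b) h hS1 hSD hA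
  have hCe := preL_e (b := b) h hS1 hSD hC
  obtain ⟨h1, h2⟩ := preL_bracket hA hC
  have hE : A * C - C * A ∈ preL J S :=
    ⟨⟨0, _, h1, by rw [zero_smul, add_zero]⟩, 0, by rw [h2, zero_smul]⟩
  have hEe := preL_e (b := b) h hS1 hSD hE
  obtain ⟨h3, h4⟩ := preL_bracket hE hA
  have e2 : cmp P Q ((A * C - C * A) * A - A * (A * C - C * A)) = (2 : K) • X := by
    rw [map_sub, cmp_mul hPQ hQP hAe, cmp_mul hPQ hQP hEe, map_sub, cmp_mul hPQ hQP hCe,
      cmp_mul hPQ hQP hAe, hAX, hCm]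
    have : (X * m - m * X) * X - X * (X * m - m * X) =
        (2 : K) • (X * m * X) - m * (X * X) - (X * X) * m := by
      rw [two_smul]; noncomm_ring
    rw [this, e1, hX2]; simp
  set E := (A * C - C * A) * A - A * (A * C - C * A) with hEdef
  have hEL : E ∈ preL J S :=
    ⟨⟨0, _, h3, by rw [zero_smul, add_zero]⟩, 0, by rw [h4, zero_smul]⟩
  have hEe' := preL_e (b := b) h hS1 hSD hEL
  refine ⟨(1 / 2 : K) • E, (zlie S).smul_mem _ h3, ?_, ?_⟩
  · rw [Matrix.transpose_smul, smul_mul_assoc, mul_smul_comm, ← smul_add, h4, smul_zero]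
  · rw [← map_mul]
    apply LinearMap.ext
    intro v
    rw [phi_apply, tw_apply, smul_mul_assoc, Matrix.smul_mulVec]
    have h5 : E * e b = P * cmp P Q E * Q := by
      rw [P_cmp hPQ hQP hEe', Matrix.mul_assoc, ← hPQ]
    rw [h5, e2, Matrix.mul_smul, Matrix.smul_mul, Matrix.smul_mulVec, smul_smul]
    norm_num
    rw [← Matrix.mulVec_mulVec, ← Matrix.mulVec_mulVec, ← phi_apply X, hXphi, trv_apply,
      Matrix.mulVec_smul, hPd, om_cmp hPQ hQP hpJ, hPd, Matrix.mulVec_mulVec _ P Q, ← hPQ,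
      h.self, hb, hu]

end

end Pool.Agent.H76U
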