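import Pool.Agent.Lib.H76U.Indep2

/-!
# The Lie algebra contains the core operators of all components
-/

set_option autoImplicit false
set_option linter.unusedSectionVars false
namespace Pool.Agent.H76U
open Module Pool.Agent.H53Toric

variable {K : Type*} [Field K] {V : Type*} [AddCommGroup V] [Module K V]
variable {B : Type*} [Fintype B] [DecidableEq B] {Γ : Type*} [Group Γ]
variable {ω : V →ₗ[K] V →ₗ[K] K} {e : B → Module.End K V} {bar : B → B}
    {g : Submodule K (Module.End K V)} {r : Γ →* Module.End K V} {𝓗 : Set (Module.End K V)}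

namespace Big

variable (h : Big ω e bar g r 𝓗)
include h

/-- the ideal of the elements vanishing on several components -/
def killT (_h : Big ω e bar g r 𝓗) (T : Finset B) : Submodule K (Module.End K V) where
  carrier := {A | A ∈ g ∧ ∀ c ∈ T, A * e c = 0}
  add_mem' := fun {_ _} ha hb => ⟨g.add_mem ha.1 hb.1, fun c hc => by
    rw [add_mul, ha.2 c hc, hb.2 c hc, add_zero]⟩
  zero_mem' := ⟨g.zero_mem, fun c _ => zero_mul _⟩
  smul_mem' := fun a _ ha => ⟨g.smul_mem a ha.1, fun c hc => by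
    rw [smul_mul_assoc, ha.2 c hc, smul_zero]⟩

theorem killT_le (T : Finset B) : h.killT T ≤ g := fun _ hA => hA.1

theorem killT_ideal (T : Finset B) : ∀ X ∈ g, ∀ Z ∈ h.killT T, X * Z - Z * X ∈ h.killT T := by
  intro X hX Z hZ
  refine ⟨h.lie X hX Z hZ.1, fun c hc => ?_⟩
  rw [h.mul_e' hX hZ.1, hZ.2 c hc, mul_zero, zero_mul, sub_zero]

/-- the pair of a seed is a core pair -/
theorem seed_core {b : B} (hs : Seed ω e bar g b) :
    ∃ u w, Core ω e bar b u w ∧ u ≠ 0 ∧ w ≠ 0 := by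
  obtain ⟨M, hM, hM2, u, w, hu, hw, hu0, hw0, hMb⟩ := hs
  by_cases hb : bar b = b
  · exact ⟨u, u, h.core_self hb hu, hu0, hu0⟩
  · exact ⟨u, w, h.core_isot hb hu hw (h.isotropic hM hM2 hu0 hw0 hMb), hu0, hw0⟩

theorem tw_nonscalar {b : B} {u w : V} (huw : ω u w = 0) (hu0 : u ≠ 0) (hw0 : w ≠ 0) {s : K}
    (hs : s ≠ 0) (a : K) : s • tw ω u w ≠ a • e b := by
  intro h0
  have h1 : (s • tw ω u w) * (s • tw ω u w) = 0 := by
    rw [smul_mul_smul_comm, tw_sq huw, smul_zero]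
  have h2 : a • e b = 0 := by
    rw [h0, smul_mul_smul_comm, h.idem] at h1
    rcases smul_eq_zero.1 h1 with h3 | h3
    · rw [mul_self_eq_zero.1 h3, zero_smul]
    · rw [h3, smul_zero]
  rw [← h0] at h2
  rcases smul_eq_zero.1 h2 with h3 | h3
  · exact hs h3
  · exact h.tw_ne hu0 hw0 h3

/-- the Lie algebra acts by scalars -/
def Thin (_h : Big ω e bar g r 𝓗) (b : B) : Prop := ∀ A ∈ g, ∃ s : K, A * e b = s • e b

theorem thin_comm {b : B} (hb : h.Thin b) {A C : Module.End K V} (hA : A ∈ g) (hC : C ∈ g) :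
    (A * C - C * A) * e b = 0 := by
  obtain ⟨s, hs⟩ := hb A hA
  obtain ⟨t, ht⟩ := hb C hC
  rw [h.mul_e' hA hC, hs, ht, smul_mul_smul_comm, smul_mul_smul_comm, mul_comm s t, sub_self]

theorem fu_killT [CharZero K] [FiniteDimensional K V]
    (hall : ∀ b, (Seed ω e bar g b ∧ Fu ω e bar g b) ∨ h.Thin b)
    (b : B) (hb : Seed ω e bar g b ∧ Fu ω e bar g b)
    (T : Finset B) (hT : ∀ c ∈ T, c ≠ b ∧ c ≠ bar b) :
    Fu ω e bar (h.killT T) b := by
  induction T using Finset.induction_on with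
  | empty =>
    intro u w hc
    obtain ⟨A, hA, hAb⟩ := hb.2 u w hc
    exact ⟨A, ⟨hA, fun c hc => absurd hc (Finset.notMem_empty c)⟩, hAb⟩
  | insert c T hcT ih =>
    have ih' := ih fun c' hc' => hT c' (Finset.mem_insert_of_mem hc')
    obtain ⟨hcb, hcb'⟩ := hT c (Finset.mem_insert_self c T)
    have hbc' : b ≠ bar c := by
      intro h0
      exact hcb' (by rw [h0, h.barbar])
    obtain ⟨u, w, hcore, hu0, hw0⟩ := h.seed_core hb.1
    obtain ⟨x, hx1, hx2⟩ := h.prime2 (h.cf u w) (h.cf' u w) (h.ex hcore.1 hcore.2.1 hu0 hw0)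
      (h.ex' hcore.1 hcore.2.1 hu0 hw0)
    obtain ⟨A₁, hA₁, hA₁b⟩ := ih' u w hcore
    obtain ⟨A₂, hA₂, hA₂b, hA₂c⟩ : ∃ A₂ ∈ g, A₂ * e b = tw ω (r x u) (r x w) ∧
        (A₁ * A₂ - A₂ * A₁) * e c = 0 := by
      rcases hall c with hc | hc
      · obtain ⟨A₀, hA₀, hA₀c, hA₀b⟩ := h.indep (Ne.symm hcb) hbc' hb.1 hc.2
        have hfc : Fu ω e bar (h.kill c) b :=
          h.ideal_full (h.kill_le c) (h.kill_ideal c) hb.2 ⟨hA₀, hA₀c⟩ hA₀b
        obtain ⟨A₂, hA₂, hA₂b⟩ := hfc _ _ (h.core_r hcore x)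
        refine ⟨A₂, hA₂.1, hA₂b, ?_⟩
        rw [h.mul_e' hA₁.1 hA₂.1, hA₂.2, mul_zero, zero_mul, sub_zero]
      · obtain ⟨A₂, hA₂, hA₂b⟩ := hb.2 _ _ (h.core_r hcore x)
        exact ⟨A₂, hA₂, hA₂b, h.thin_comm hc hA₁.1 hA₂⟩
    have hZb := h.dbl_e hA₁.1 hA₂ b (by rw [hA₁b, tw_sq hcore.2.2.1])
    rw [hA₁b, hA₂b, tw_mid, tw_apply, map_smul, LinearMap.smul_apply, smul_eq_mul,
      smul_smul] at hZb
    refine h.ideal_full (h.killT_le _) (h.killT_ideal _) hb.2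
      (Z := A₁ * (A₁ * A₂ - A₂ * A₁) - (A₁ * A₂ - A₂ * A₁) * A₁) ?_ ?_
    · refine ⟨h.dbl hA₁.1 hA₂, ?_⟩
      intro c' hc'
      rw [Finset.mem_insert] at hc'
      have hcomm : (A₁ * A₂ - A₂ * A₁) * e c' = 0 := by
        rcases hc' with rfl | hc'
        · exact hA₂c
        · rw [h.mul_e' hA₁.1 hA₂, hA₁.2 c' hc', mul_zero, zero_mul, sub_zero]
      rw [h.mul_e' hA₁.1 (h.lie A₁ hA₁.1 A₂ hA₂), hcomm, mul_zero, zero_mul, sub_zero]
    · intro a
      rw [hZb]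
      exact h.tw_nonscalar hcore.2.2.1 hu0 hw0
        (mul_ne_zero (by norm_num) (mul_ne_zero hx2 hx1)) a

/-- **The Lie algebra contains the core operators of all components.** -/
theorem main [CharZero K] [FiniteDimensional K V]
    (hall : ∀ b, (Seed ω e bar g b ∧ Fu ω e bar g b) ∨ h.Thin b) {b : B}
    (hb : Seed ω e bar g b ∧ Fu ω e bar g b) {u w : V} (hc : Core ω e bar b u w) :
    ∃ A ∈ g, A * e b = tw ω u w ∧ A * e (bar b) = tw ω w u ∧
      ∀ c, c ≠ b → c ≠ bar b → A * e c = 0 := by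
  obtain ⟨A, hA, hAb⟩ := h.fu_killT hall b hb
    (Finset.univ.filter fun c => c ≠ b ∧ c ≠ bar b) (by
      intro c hc
      exact (Finset.mem_filter.1 hc).2) u w hc
  refine ⟨A, hA.1, hAb, h.skew_bar hA.1 hc.1 hAb, ?_⟩
  intro c h1 h2
  exact hA.2 c (Finset.mem_filter.2 ⟨Finset.mem_univ c, h1, h2⟩)

end Big

end Pool.Agent.H76U
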