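import Pool.Agent.Lib.H76U.PP

/-!
# Functions in the algebra generated by the matrix coefficients
-/

set_option autoImplicit false
set_option linter.unusedSectionVars false
namespace Pool.Agent.H76U
open Module Pool.Agent.H53Toric

variable {K : Type*} [Field K] {V : Type*} [AddCommGroup V] [Module K V]
variable {B : Type*} [Fintype B] [DecidableEq B] {Γ : Type*} [Group Γ]
variable {ω : V →ₗ[K] V →ₗ[K] K} {e : B → Module.End K V} {bar : B → B}
    {g : Submodule K (Module.End K V)} {r : Γ →* Module.End K V} {𝓗 : Set (Module.End K V)}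

namespace Big

variable (h : Big ω e bar g r 𝓗)
include h

theorem move (x : Γ) : ∃ c : K, c ≠ 0 ∧ (∀ a w, ω (r x a) (r x w) = c * ω a w) ∧
    (∀ a w, ω (r x a) w = c * ω a (r x⁻¹ w)) ∧ (∀ a w, ω (r x⁻¹ a) w = c⁻¹ * ω a (r x w)) := by
  obtain ⟨c, hc, hs⟩ := h.sim x
  refine ⟨c, hc, hs, ?_, ?_⟩
  · intro a w
    rw [← hs, h.rr]
  · intro a w
    have := hs (r x⁻¹ a) w
    rw [h.rr] at this
    rw [this]
    field_simp

theorem surj [FiniteDimensional K V] (f : V →ₗ[K] K) : ∃ a, ∀ v, f v = ω v a := by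
  have hinj : Function.Injective ω := by
    rw [← LinearMap.ker_eq_bot, LinearMap.ker_eq_bot']
    intro u hu
    apply h.nd
    intro w
    rw [hu]; rfl
  have hfin : finrank K V = finrank K (V →ₗ[K] K) := by
    rw [← Subspace.dual_finrank_eq (K := K) (V := V)]
  obtain ⟨u, hu⟩ := (LinearMap.injective_iff_surjective_of_finrank_eq_finrank hfin).1 hinj f
  refine ⟨-u, fun v => ?_⟩
  rw [map_neg, ← hu, h.anti u v]

theorem cf_dual [FiniteDimensional K V] (f : V →ₗ[K] K) (u : V) :
    (fun x => f (r x u)) ∈ coef ω r := by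
  obtain ⟨a, ha⟩ := h.surj f
  have h1 : (fun x => f (r x u)) = fun x => ω (r x u) a := by
    funext x
    exact ha _
  rw [h1]
  exact h.cf u a

theorem cf2 [FiniteDimensional K V] (X Y : Module.End K V) (u w : V) :
    (fun x => ω (X (r x u)) (Y (r x w))) ∈ coef ω r := by
  set bs := Module.finBasis K V with hbs
  have h1 : (fun x => ω (X (r x u)) (Y (r x w))) =
      ∑ i, (fun x => (bs.coord i ∘ₗ Y) (r x w)) * (fun x => (ω.flip (bs i) ∘ₗ X) (r x u)) := by
    funext x
    rw [Finset.sum_apply]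
    simp only [Pi.mul_apply, LinearMap.comp_apply, LinearMap.flip_apply, Basis.coord_apply]
    conv_lhs => rw [← bs.sum_repr (Y (r x w))]
    rw [map_sum]
    apply Finset.sum_congr rfl
    intro i _
    rw [map_smul, smul_eq_mul]
  rw [h1]
  exact sum_mem fun i _ => mul_mem (h.cf_dual _ _) (h.cf_dual _ _)

theorem cfL [FiniteDimensional K V] (x : Γ) (u w : V) :
    (fun y => ω (r (x * y) u) w) ∈ coef ω r := by
  have h1 : (fun y => ω (r (x * y) u) w) = fun y => (ω.flip w ∘ₗ r x) (r y u) := by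
    funext y
    rw [h.rmul]; rfl
  rw [h1]
  exact h.cf_dual _ _

theorem cfL' [FiniteDimensional K V] (x : Γ) (u w : V) :
    (fun y => ω u (r (x * y) w)) ∈ coef ω r := by
  have h1 : (fun y => ω u (r (x * y) w)) = fun y => (ω u ∘ₗ r x) (r y w) := by
    funext y
    rw [h.rmul]; rfl
  rw [h1]
  exact h.cf_dual _ _

/-- From the relations of types two and three to multiplicativity. -/
theorem mult_of [FiniteDimensional K V] {u w u' w' : V}
    (h2 : ∀ x, ω (r x u) w * ω u (r x w) = ω (r x u') w' * ω u' (r x w'))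
    (h3 : ∀ x y, ω (r x u) w * ω (r y u) w * ω u (r (x * y) w) =
      ω (r x u') w' * ω (r y u') w' * ω u' (r (x * y) w'))
    (hne : ∃ x, ω u (r x w) ≠ 0) (x y : Γ) :
    ω (r x u) w * ω (r y u) w * ω (r (x * y) u') w' =
      ω (r x u') w' * ω (r y u') w' * ω (r (x * y) u) w := by
  rw [← sub_eq_zero]
  have key : ∀ y, ω u (r (x * y) w) * (ω (r x u) w * ω (r y u) w * ω (r (x * y) u') w' -
      ω (r x u') w' * ω (r y u') w' * ω (r (x * y) u) w) = 0 := by
    intro y
    linear_combination ω (r (x * y) u') w' * h3 x y -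
      ω (r x u') w' * ω (r y u') w' * h2 (x * y)
  rcases h.prime (fun y => ω u (r (x * y) w)) (h.cfL' x u w)
    (fun y => ω (r x u) w * ω (r y u) w * ω (r (x * y) u') w' -
      ω (r x u') w' * ω (r y u') w' * ω (r (x * y) u) w) (by
      refine sub_mem (mul_mem (mul_mem ?_ (h.cf u w)) (h.cfL x u' w'))
        (mul_mem (mul_mem ?_ (h.cf u' w')) (h.cfL x u w))
      · exact (coef ω r).algebraMap_mem (ω (r x u) w)
      · exact (coef ω r).algebraMap_mem (ω (r x u') w')) key with h4 | h4
  · exfalso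
    obtain ⟨z, hz⟩ := hne
    apply hz
    have := h4 (x⁻¹ * z)
    simp only [mul_inv_cancel_left] at this
    exact this
  · exact h4 y

end Big

end Pool.Agent.H76U
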