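import Pool.Agent.Lib.H76U.Full

/-!
# Core pairs, ideals
-/

set_option autoImplicit false
set_option linter.unusedSectionVars false
namespace Pool.Agent.H76U
open Module Pool.Agent.H53Toric

variable {K : Type*} [Field K] {V : Type*} [AddCommGroup V] [Module K V]
variable {B : Type*} [Fintype B] [DecidableEq B] {Γ : Type*} [Group Γ]
variable {ω : V →ₗ[K] V →ₗ[K] K} {e : B → Module.End K V} {bar : B → B}
    {g : Submodule K (Module.End K V)} {r : Γ →* Module.End K V} {𝓗 : Set (Module.End K V)}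

/-- pairs `(u, w)` such that `tw u w` is the operator of rank one which should be in the Lie
algebra -/
def Core (ω : V →ₗ[K] V →ₗ[K] K) (e : B → Module.End K V) (bar : B → B) (b : B) (u w : V) :
    Prop :=
  e b u = u ∧ e (bar b) w = w ∧ ω u w = 0 ∧ (bar b = b → ∃ a : K, w = a • u)

/-- all core pairs are induced by elements of `k` -/
def Fu (ω : V →ₗ[K] V →ₗ[K] K) (e : B → Module.End K V) (bar : B → B)
    (k : Submodule K (Module.End K V)) (b : B) : Prop :=
  ∀ u w, Core ω e bar b u w → ∃ A ∈ k, A * e b = tw ω u w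

namespace Big

variable (h : Big ω e bar g r 𝓗)
include h

theorem rne {x : Γ} {v : V} (hv : v ≠ 0) : r x v ≠ 0 := by
  intro h0
  apply hv
  rw [← h.rr' x v, h0, map_zero]

theorem core_r {b : B} {u w : V} (hc : Core ω e bar b u w) (x : Γ) :
    Core ω e bar b (r x u) (r x w) := by
  obtain ⟨c, hc0, hs, -, -⟩ := h.move x
  refine ⟨h.fixr x hc.1, h.fixr x hc.2.1, by rw [hs, hc.2.2.1, mul_zero], ?_⟩
  intro hb
  obtain ⟨a, ha⟩ := hc.2.2.2 hb
  exact ⟨a, by rw [ha, map_smul]⟩

theorem core_self {b : B} (hb : bar b = b) {d : V} (hd : e b d = d) : Core ω e bar b d d :=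
  ⟨hd, by rw [hb]; exact hd, h.alt d, fun _ => ⟨1, (one_smul K d).symm⟩⟩

theorem core_isot {b : B} (hb : bar b ≠ b) {u w : V} (hu : e b u = u) (hw : e (bar b) w = w)
    (huw : ω u w = 0) : Core ω e bar b u w := ⟨hu, hw, huw, fun hcon => absurd hcon hb⟩

/-- test for scalars -/
theorem core_test [CharZero K] {b : B} {Z : Module.End K V} (hZ : Z ∈ g)
    (hall : ∀ u w, Core ω e bar b u w → ω (Z u) w = 0) : ∃ a : K, Z * e b = a • e b := by
  by_cases hb : bar b = b
  · refine ⟨0, ?_⟩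
    rw [zero_smul]
    have h1 : ∀ d, e b d = d → ω (Z d) d = 0 := fun d hd => hall d d (h.core_self hb hd)
    ext v
    change Z (e b v) = 0
    apply h.nd' (b := b) (h.fixA hZ (h.idem' b v))
    intro w hw
    rw [hb] at hw
    have hv := h.idem' b v
    have h2 := h1 (e b v + w) (by rw [map_add, hv, hw])
    have h3 := h1 (e b v) hv
    have h4 := h1 w hw
    have h5 : ω (Z w) (e b v) = ω (Z (e b v)) w := by
      rw [h.skew Z hZ, h.anti w]; ring
    simp only [map_add, LinearMap.add_apply, h3, h4, h5] at h2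
    have h6 : (2 : K) * ω (Z (e b v)) w = 0 := by linear_combination h2
    exact (mul_eq_zero.1 h6).resolve_left (by norm_num)
  · -- `Z u` is a multiple of `u` for all `u`
    have h1 : ∀ u, e b u = u → u ≠ 0 → ∃ a : K, Z u = a • u := by
      intro u hu hu0
      obtain ⟨w0, hw0, hne⟩ : ∃ w0, e (bar b) w0 = w0 ∧ ω u w0 ≠ 0 := by
        by_contra hcon
        push Not at hcon
        exact hu0 (h.nd' hu hcon)
      refine ⟨ω (Z u) w0 * (ω u w0)⁻¹, ?_⟩
      rw [← sub_eq_zero]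
      apply h.nd' (b := b) (by rw [map_sub, map_smul, h.fixA hZ hu, hu])
      intro w hw
      have h2 := hall u (w - (ω u w * (ω u w0)⁻¹) • w0) (h.core_isot hb hu
        (by rw [map_sub, map_smul, hw, hw0])
        (by rw [map_sub, map_smul, smul_eq_mul, mul_assoc, inv_mul_cancel₀ hne, mul_one,
          sub_self]))
      rw [map_sub, map_smul, smul_eq_mul] at h2
      rw [map_sub, map_smul, LinearMap.sub_apply, LinearMap.smul_apply, smul_eq_mul]
      linear_combination h2
    by_cases hz : ∀ u, e b u = u → u = 0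
    · refine ⟨0, ?_⟩
      ext v
      rw [zero_smul]
      change Z (e b v) = 0
      rw [hz _ (h.idem' b v), map_zero]
    · push Not at hz
      obtain ⟨u₀, hu₀, hu₀0⟩ := hz
      obtain ⟨a, ha⟩ := h1 u₀ hu₀ hu₀0
      refine ⟨a, ?_⟩
      have key : ∀ v, e b v = v → Z v = a • v := by
        intro v hv
        by_cases hv0 : v = 0
        · rw [hv0, map_zero, smul_zero]
        obtain ⟨a', ha'⟩ := h1 v hv hv0
        by_cases hs : u₀ + v = 0
        · have hv' : v = -u₀ := by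
            rw [eq_neg_iff_add_eq_zero, add_comm]; exact hs
          rw [hv', map_neg, ha, smul_neg]
        obtain ⟨a'', ha''⟩ := h1 (u₀ + v) (by rw [map_add, hu₀, hv]) hs
        rw [map_add, ha, ha', smul_add] at ha''
        have h2 : (a - a'') • u₀ + (a' - a'') • v = 0 := by
          rw [sub_smul, sub_smul]
          have h3 : a • u₀ + a' • v - (a'' • u₀ + a'' • v) = 0 := sub_eq_zero.2 ha''
          rw [← h3]; abel
        by_cases h3 : a' - a'' = 0
        · rw [h3, zero_smul, add_zero] at h2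
          have h4 := (smul_eq_zero.1 h2).resolve_right hu₀0
          have : a' = a := by linear_combination h3 - h4
          rw [ha', this]
        · have h4 : v = (-((a' - a'')⁻¹ * (a - a''))) • u₀ := by
            have h5 : (a' - a'') • v = -((a - a'') • u₀) := by
              rw [eq_neg_iff_add_eq_zero, add_comm]; exact h2
            rw [neg_smul, mul_smul, ← smul_neg, ← h5, smul_smul, inv_mul_cancel₀ h3, one_smul]
          rw [h4, map_smul, ha, smul_comm]
      ext v
      change Z (e b v) = a • e b v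
      exact key _ (h.idem' b v)

/-- elements of an ideal with a nonvanishing coefficient -/
theorem ideal_mid [CharZero K] {k : Submodule K (Module.End K V)} (hk : k ≤ g)
    (hid : ∀ X ∈ g, ∀ Z ∈ k, X * Z - Z * X ∈ k) {b : B} (hfu : Fu ω e bar g b) {u w : V}
    (hc : Core ω e bar b u w) {Z : Module.End K V} (hZ : Z ∈ k) (hne : ω (Z u) w ≠ 0) :
    ∃ Z' ∈ k, Z' * e b = tw ω u w := by
  obtain ⟨X, hX, hXb⟩ := hfu u w hc
  have h1 := h.dbl_e hX (hk hZ) b (by rw [hXb, tw_sq hc.2.2.1])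
  rw [hXb, tw_mid] at h1
  have h2 : (Z * e b) u = Z u := by
    change Z (e b u) = Z u
    rw [hc.1]
  rw [h2, smul_smul] at h1
  refine ⟨(-2 * ω (Z u) w)⁻¹ • (X * (X * Z - Z * X) - (X * Z - Z * X) * X),
    k.smul_mem _ (hid X hX _ (hid X hX Z hZ)), ?_⟩
  have h3 : (-2 * ω (Z u) w) ≠ 0 := mul_ne_zero (by norm_num) hne
  rw [smul_mul_assoc, h1, smul_smul, inv_mul_cancel₀ h3, one_smul]

/-- An ideal which acts on a component by non scalars induces all core pairs. -/
theorem ideal_full [CharZero K] [FiniteDimensional K V] {k : Submodule K (Module.End K V)}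
    (hk : k ≤ g) (hid : ∀ X ∈ g, ∀ Z ∈ k, X * Z - Z * X ∈ k) {b : B} (hfu : Fu ω e bar g b)
    {Z : Module.End K V} (hZ : Z ∈ k) (hns : ∀ a : K, Z * e b ≠ a • e b) :
    Fu ω e bar k b := by
  obtain ⟨u₁, w₁, hc₁, hne⟩ : ∃ u w, Core ω e bar b u w ∧ ω (Z u) w ≠ 0 := by
    by_contra hcon
    push Not at hcon
    obtain ⟨a, ha⟩ := h.core_test (hk hZ) hcon
    exact hns a ha
  obtain ⟨Z₁, hZ₁, hZ₁b⟩ := h.ideal_mid hk hid hfu hc₁ hZ hne
  have hu₁0 : u₁ ≠ 0 := by
    rintro rfl
    exact hne (by rw [map_zero, map_zero]; rfl)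
  have hw₁0 : w₁ ≠ 0 := by
    rintro rfl
    exact hne (map_zero _)
  intro u w hc
  by_cases hu0 : u = 0
  · exact ⟨0, k.zero_mem, by rw [zero_mul, hu0, tw_zero_left]⟩
  by_cases hw0 : w = 0
  · exact ⟨0, k.zero_mem, by rw [zero_mul, hw0, tw_zero_right]⟩
  obtain ⟨x, hx1, hx2, hx3, hx4⟩ := h.prime4 (h.cf u₁ w₁) (h.cf' u₁ w₁) (h.cf' u w₁)
    (h.cf u₁ w) (h.ex hc₁.1 hc₁.2.1 hu₁0 hw₁0) (h.ex' hc₁.1 hc₁.2.1 hu₁0 hw₁0)
    (h.ex' hc.1 hc₁.2.1 hu0 hw₁0) (h.ex hc₁.1 hc.2.1 hu₁0 hw0)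
  have hc₂ := h.core_r hc₁ x
  obtain ⟨Z₂, hZ₂, hZ₂b⟩ := h.ideal_mid hk hid hfu hc₂ hZ₁ (by
    rw [h.app_e hZ₁b hc₂.1, map_smul, LinearMap.smul_apply, smul_eq_mul]
    exact mul_ne_zero hx1 hx2)
  exact h.ideal_mid hk hid hfu hc hZ₂ (by
    rw [h.app_e hZ₂b hc.1, map_smul, LinearMap.smul_apply, smul_eq_mul]
    exact mul_ne_zero hx3 hx4)

end Big

end Pool.Agent.H76U
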