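import Mathlib

/-!
# Galois descent for zero sets
-/

set_option autoImplicit false
set_option linter.unusedSectionVars false
namespace Pool.Agent.H76U
open MvPolynomial

theorem roots_zero {K : Type*} [Field K] {T : Type*} [Fintype T] (a : T → K) :
    (∀ j < Fintype.card T, (∏ t, (Polynomial.X - Polynomial.C (a t))).coeff j = 0) ↔
      ∀ t, a t = 0 := by
  constructor
  · intro h t
    have hmon : (∏ t, (Polynomial.X - Polynomial.C (a t))).Monic :=
      Polynomial.monic_prod_X_sub_C a Finset.univ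
    have hdeg : (∏ t, (Polynomial.X - Polynomial.C (a t))).natDegree = Fintype.card T := by
      rw [Polynomial.natDegree_finsetProd_X_sub_C_eq_card]; rfl
    have hX : ∏ t, (Polynomial.X - Polynomial.C (a t)) = Polynomial.X ^ Fintype.card T := by
      ext j
      rw [Polynomial.coeff_X_pow]
      rcases lt_trichotomy j (Fintype.card T) with hj | hj | hj
      · rw [h j hj, if_neg (ne_of_lt hj)]
      · rw [hj, if_pos rfl, ← hdeg]
        exact hmon
      · rw [if_neg (ne_of_gt hj)]
        apply Polynomial.coeff_eq_zero_of_natDegree_lt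
        rw [hdeg]; exact hj
    have h1 := congrArg (Polynomial.eval (a t)) hX
    rw [Polynomial.eval_prod, Polynomial.eval_pow, Polynomial.eval_X,
      Finset.prod_eq_zero (Finset.mem_univ t) (by simp)] at h1
    have hT : Fintype.card T ≠ 0 := (Fintype.card_pos_iff.2 ⟨t⟩).ne'
    exact (pow_eq_zero_iff hT).1 h1.symm
  · intro h j hj
    have hX : ∏ t, (Polynomial.X - Polynomial.C (a t)) = Polynomial.X ^ Fintype.card T := by
      simp [h, Finset.prod_const, Finset.card_univ]
    rw [hX, Polynomial.coeff_X_pow, if_neg (ne_of_lt hj)]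

theorem descent {M : Type*} [Field M] [NumberField M] [IsGalois ℚ M] {σ : Type*}
    (F : MvPolynomial σ M) :
    ∃ P : Set (MvPolynomial σ ℚ), ∀ (K : Type) [Field K] [Algebra ℚ K] (i : M →+* K)
      (x : σ → K), (∀ f ∈ P, aeval x f = 0) ↔
        ∀ τ : M ≃ₐ[ℚ] M, eval₂ (i.comp (τ : M →+* M)) x F = 0 := by
  classical
  set F' : (M ≃ₐ[ℚ] M) → MvPolynomial σ M := fun τ => MvPolynomial.map (τ : M →+* M) F with hF'
  set Q : Polynomial (MvPolynomial σ M) := ∏ τ, (Polynomial.X - Polynomial.C (F' τ)) with hQ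
  have hQinv : ∀ τ' : M ≃ₐ[ℚ] M, Q.map (MvPolynomial.map (τ' : M →+* M)) = Q := by
    intro τ'
    rw [hQ, Polynomial.map_prod]
    refine Fintype.prod_equiv (Equiv.mulLeft τ') _ _ ?_
    intro τ
    rw [Polynomial.map_sub, Polynomial.map_X, Polynomial.map_C]
    congr 2
    change MvPolynomial.map (τ' : M →+* M) (MvPolynomial.map (τ : M →+* M) F) =
      MvPolynomial.map ((τ' * τ : M ≃ₐ[ℚ] M) : M →+* M) F
    rw [MvPolynomial.map_map]
    rfl
  have hcoef : ∀ j, ∃ q : MvPolynomial σ ℚ, MvPolynomial.map (algebraMap ℚ M) q = Q.coeff j := by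
    intro j
    have h1 : Q.coeff j ∈ Set.range (MvPolynomial.map (σ := σ) (algebraMap ℚ M)) := by
      rw [MvPolynomial.mem_range_map_iff_coeffs_subset]
      intro c hc
      obtain ⟨m, -, rfl⟩ := MvPolynomial.mem_coeffs_iff.1 (Finset.mem_coe.1 hc)
      rw [IsGalois.mem_range_algebraMap_iff_fixed]
      intro τ'
      have h2 := congrArg (fun q : Polynomial (MvPolynomial σ M) => (q.coeff j).coeff m)
        (hQinv τ')
      simp only [Polynomial.coeff_map, MvPolynomial.coeff_map] at h2
      exact h2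
    exact h1
  choose q hq using hcoef
  refine ⟨{f | ∃ j < Fintype.card (M ≃ₐ[ℚ] M), f = q j}, ?_⟩
  intro K _ _ i x
  set φ : MvPolynomial σ M →+* K := MvPolynomial.eval₂Hom i x with hφ
  have h1 : ∀ j, aeval x (q j) = (Q.map φ).coeff j := by
    intro j
    rw [Polynomial.coeff_map, ← hq j]
    change _ = MvPolynomial.eval₂ i x (MvPolynomial.map (algebraMap ℚ M) (q j))
    rw [MvPolynomial.eval₂_map, MvPolynomial.aeval_def]
    congr 1
    exact Subsingleton.elim _ _
  have h2 : Q.map φ = ∏ τ : M ≃ₐ[ℚ] M,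
      (Polynomial.X - Polynomial.C (eval₂ (i.comp (τ : M →+* M)) x F)) := by
    rw [hQ, Polynomial.map_prod]
    apply Finset.prod_congr rfl
    intro τ _
    rw [Polynomial.map_sub, Polynomial.map_X, Polynomial.map_C]
    congr 2
    change MvPolynomial.eval₂ i x (MvPolynomial.map (τ : M →+* M) F) = _
    rw [MvPolynomial.eval₂_map]
  rw [← roots_zero]
  constructor
  · intro h j hj
    rw [← h2, ← h1]
    exact h _ ⟨j, hj, rfl⟩
  · rintro h _ ⟨j, hj, rfl⟩
    rw [h1, h2]
    exact h j hj

end Pool.Agent.H76U
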