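import Pool.Agent.Lib.H76U.Grp4
import Pool.Agent.Lib.H76U.Gam

/-!
# The consequence of the theorem of Faltings
-/

set_option autoImplicit false
set_option linter.unusedSectionVars false
namespace Pool.Agent.H76U
open Module Matrix Pool.Agent.H53Toric

variable {ι : Type*} [Fintype ι] [DecidableEq ι] {K : Type*} [Field K]
variable {B : Type*} [Fintype B] [DecidableEq B]

theorem exists_falt4 [CharZero K] {J : Matrix ι ι K} {DD : Submodule K (Matrix ι ι K)}
    {bar : B → B} {e : B → Matrix ι ι K}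
    (h : Split4 J DD bar e) (hJ : Jᵀ = -J) (hdet : IsUnit J.det) {S : Set (Matrix ι ι K)}
    (hS1 : (1 : Matrix ι ι K) ∈ S) (hS : ∀ a ∈ S, ∀ b ∈ S, a * b ∈ S)
    (semis : ∀ W : Submodule K (ι → K), (∀ s ∈ S, ∀ w ∈ W, s *ᵥ w ∈ W) →
      ∃ W' : Submodule K (ι → K), (∀ s ∈ S, ∀ w ∈ W', s *ᵥ w ∈ W') ∧ IsCompl W W')
    (commt : ∀ y : Matrix ι ι K, (∀ s ∈ S, y * s = s * y) → y ∈ DD)
    (u v : ι → K) (hu : (∑ b, phi (e b)) u = u) (hv : (∑ b, phi (e b)) v = v)
    (huv : ∀ s ∈ S, om J (s *ᵥ v) u = 0) (b : B) :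
    phi (e b) v = 0 ∨ phi (e (bar b)) u = 0 := by
  set W : Submodule K (ι → K) := Submodule.span K {w | ∃ s ∈ S, w = s *ᵥ v} with hW
  have hst : ∀ s ∈ S, ∀ w ∈ W, s *ᵥ w ∈ W := by
    intro s hs w hw
    refine Submodule.span_induction (p := fun w _ => s *ᵥ w ∈ W) ?_ ?_ ?_ ?_ hw
    · rintro _ ⟨y, hy, rfl⟩
      apply Submodule.subset_span
      exact ⟨s * y, hS s hs y hy, by rw [Matrix.mulVec_mulVec]⟩
    · rw [Matrix.mulVec_zero]; exact W.zero_mem
    · intro a c _ _ ha hc
      rw [Matrix.mulVec_add]; exact W.add_mem ha hc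
    · intro a w _ hw
      rw [Matrix.mulVec_smul]; exact W.smul_mem _ hw
  obtain ⟨W', hst', hcompl⟩ := semis W hst
  set π : Module.End K (ι → K) := W.subtype ∘ₗ W.projectionOnto W' hcompl with hπ
  have hπW : ∀ w ∈ W, π w = w := by
    intro w hw
    change ((W.projectionOnto W' hcompl w : W) : ι → K) = w
    rw [Submodule.projectionOnto_apply_left hcompl ⟨w, hw⟩]
  have hπW' : ∀ w ∈ W', π w = 0 := by
    intro w hw
    change ((W.projectionOnto W' hcompl w : W) : ι → K) = 0
    rw [(Submodule.projectionOnto_apply_eq_zero_iff hcompl).2 hw]; rfl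
  have hπm : ∀ w, π w ∈ W := fun w => (W.projectionOnto W' hcompl w).2
  obtain ⟨p, hp⟩ := (phi (ι := ι) (K := K)).surjective π
  have hpD : p ∈ DD := by
    apply commt
    intro s hs
    apply (phi (ι := ι) (K := K)).injective
    rw [map_mul, map_mul, hp]
    apply LinearMap.ext
    intro w
    obtain ⟨w1, hw1, w2, hw2, rfl⟩ := Submodule.mem_sup.1
      (show w ∈ W ⊔ W' by rw [hcompl.sup_eq_top]; trivial)
    change π (phi s (w1 + w2)) = phi s (π (w1 + w2))
    rw [map_add, map_add, map_add, hπW w1 hw1, hπW' w2 hw2, add_zero, phi_apply, phi_apply,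
      hπW _ (hst s hs w1 hw1), hπW' _ (hst' s hs w2 hw2), add_zero]
  have hvW : v ∈ W := by
    apply Submodule.subset_span
    exact ⟨1, hS1, by rw [Matrix.one_mulVec]⟩
  have hanti : ∀ v w, om J v w = - om J w v := omega_antisymm (om_alt hJ)
  have huW : ∀ w ∈ W, om J u w = 0 := by
    intro w hw
    refine Submodule.span_induction (p := fun w _ => om J u w = 0) ?_ ?_ ?_ ?_ hw
    · rintro _ ⟨s, hs, rfl⟩
      rw [hanti, huv s hs, neg_zero]
    · rw [map_zero]
    · intro a c _ _ ha hc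
      rw [map_add, ha, hc, add_zero]
    · intro a w _ hw
      rw [map_smul, hw, smul_zero]
  obtain ⟨c, hc⟩ := h.corner b p hpD
  have hcor : ∀ w, phi (e b) (π (phi (e b) w)) = c • phi (e b) w := by
    intro w
    have := congrArg (fun m => phi m w) hc
    simp only [map_mul, map_smul, hp] at this
    exact this
  have horth : ∀ b' c', b' ≠ c' → ∀ w, phi (e b') (π (phi (e c') w)) = 0 := by
    intro b' c' hbc w
    have := congrArg (fun m => phi m w) (h.orth b' c' hbc p hpD)
    simp only [map_mul, map_zero, hp] at this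
    exact this
  by_cases hv0 : phi (e b) v = 0
  · exact Or.inl hv0
  right
  have hc1 : c = 1 := by
    have h1 : phi (e b) (π v) = c • phi (e b) v := by
      conv_lhs => rw [← hv]
      rw [LinearMap.sum_apply, map_sum, map_sum, Finset.sum_eq_single b]
      · exact hcor v
      · intro b' _ hb'
        exact horth b b' (Ne.symm hb') v
      · intro hb
        exact absurd (Finset.mem_univ b) hb
    rw [hπW v hvW] at h1
    have h2 : (c - 1) • phi (e b) v = 0 := by
      rw [sub_smul, one_smul, ← h1, sub_self]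
    rcases smul_eq_zero.1 h2 with h3 | h3
    · exact sub_eq_zero.1 h3
    · exact absurd h3 hv0
  have hself : ∀ b' v w, om J (phi (e b') v) w = om J v (phi (e (bar b')) w) := by
    intro b' v w
    rw [phi_apply, phi_apply]
    exact h.self b' v w
  apply om_nd hdet
  intro w
  rw [hanti, hself, h.barbar, neg_eq_zero]
  have h1 := huW _ (hπm (phi (e b) w))
  rw [← hu, LinearMap.sum_apply, map_sum, LinearMap.sum_apply] at h1
  rw [Finset.sum_eq_single (bar b)] at h1
  · rw [hself, h.barbar, hcor, hc1, one_smul] at h1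
    exact h1
  · intro b' _ hb'
    rw [hself, horth (bar b') b (fun h0 => hb' (by rw [← h0, h.barbar])) w, map_zero]
  · intro hb
    exact absurd (Finset.mem_univ _) hb

/-- The linear condition passes to the Zariski closure. -/
theorem zar_lin {J : Matrix ι ι K} {S : Set (Matrix ι ι K)} {u v : ι → K}
    (hS : ∀ s ∈ S, om J (s *ᵥ v) u = 0) {x : Matrix ι ι K} (hx : x ∈ zar S) :
    om J (x *ᵥ v) u = 0 := by
  let F : MvPolynomial (ι × ι) K :=
    ∑ i, ∑ j, MvPolynomial.X (i, j) * MvPolynomial.C (v j * (J *ᵥ u) i)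
  have hF : ∀ y : Matrix ι ι K, ev y F = om J (y *ᵥ v) u := by
    intro y
    have h1 : ∀ i j, ev y (MvPolynomial.X (i, j) * MvPolynomial.C (v j * (J *ᵥ u) i)) =
        y i j * (v j * (J *ᵥ u) i) := by
      intro i j
      rw [map_mul, ev_X, ev_C]
    simp only [F]
    rw [map_sum]
    simp only [map_sum, h1]
    rw [om_apply, dotProduct]
    apply Finset.sum_congr rfl
    intro i _
    have h2 : (y *ᵥ v) i = ∑ j, y i j * v j := rfl
    rw [h2, Finset.sum_mul]
    apply Finset.sum_congr rfl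
    intro j _
    ring
  rw [← hF]
  apply hx
  intro s hs
  rw [hF]
  exact hS s hs

/-- `hmon` and matrices. -/
theorem hmon_phi {𝓗 : Set (Matrix ι ι K)} {m : Matrix ι ι K}
    (hm : m ∈ Submonoid.closure {m | ∃ h ∈ 𝓗, ∃ t : K, t ≠ 0 ∧ m = 1 + (t - 1) • h}) :
    phi m ∈ hmon ((fun x => phi x) '' 𝓗) := by
  refine Submonoid.closure_induction (motive := fun m _ => phi m ∈ hmon ((fun x => phi x) '' 𝓗))
    ?_ ?_ ?_ hm
  · rintro _ ⟨h, hh, t, ht, rfl⟩
    apply Submonoid.subset_closure
    exact ⟨phi h, ⟨h, hh, rfl⟩, t, ht, by rw [map_add, map_one, map_smul]⟩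
  · rw [map_one]; exact Submonoid.one_mem _
  · intro a b _ _ ha hb
    rw [map_mul]; exact Submonoid.mul_mem _ ha hb

end Pool.Agent.H76U
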