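import Pool.Agent.Lib.H76U.Coef

/-!
# Hodge projectors are not orthogonal to the orbit of an element of rank one
-/

set_option autoImplicit false
set_option linter.unusedSectionVars false
namespace Pool.Agent.H76U
open Module Pool.Agent.H53Toric

variable {K : Type*} [Field K] {V : Type*} [AddCommGroup V] [Module K V]
variable {B : Type*} [Fintype B] [DecidableEq B] {Γ : Type*} [Group Γ]
variable {ω : V →ₗ[K] V →ₗ[K] K} {e : B → Module.End K V} {bar : B → B}
    {g : Submodule K (Module.End K V)} {r : Γ →* Module.End K V} {𝓗 : Set (Module.End K V)}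

namespace Big

variable (h : Big ω e bar g r 𝓗)
include h

/-- conjugates of an element of square zero and rank one -/
theorem seed_conj {M : Module.End K V} (hM : M ∈ g) (hM2 : M * M = 0) {b : B} {u w : V}
    (hMb : M * e b = tw ω u w) (x : Γ) :
    ∃ M' ∈ g, M' * M' = 0 ∧ M' * e b = tw ω (r x u) (r x w) := by
  obtain ⟨c, hc, hsim, h2⟩ := h.conj_tw x
  have h1 : r x⁻¹ * r x = 1 := by rw [← map_mul, inv_mul_cancel, map_one]
  refine ⟨c • (r x * M * r x⁻¹), g.smul_mem _ (h.conj x M hM), ?_, ?_⟩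
  · rw [smul_mul_smul_comm]
    have : r x * M * r x⁻¹ * (r x * M * r x⁻¹) = r x * (M * (r x⁻¹ * r x) * M) * r x⁻¹ := by
      simp only [mul_assoc]
    rw [this, h1, mul_one, hM2, mul_zero, zero_mul, smul_zero]
  · have h3 : r x * M * r x⁻¹ * e b = r x * (M * e b) * r x⁻¹ := by
      rw [mul_assoc, mul_assoc, ← h.rcomm, mul_assoc, mul_assoc]
    rw [smul_mul_assoc, h3, hMb, h2, smul_smul, mul_inv_cancel₀ hc, one_smul]

theorem hadj' {k : Module.End K V} (hk : k ∈ 𝓗) (v w : V) : ω (k v) w = ω v (w - k w) := by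
  rw [map_sub, ← h.hadj k hk v w]; ring

/-- a Hodge projector is nontrivial on every component -/
theorem hnon' [CharZero K] {k : Module.End K V} (hk : k ∈ 𝓗) {b : B} {u w : V}
    (hu : e b u = u) (hw : e (bar b) w = w) (hu0 : u ≠ 0) (hw0 : w ≠ 0) (huw : ω u w = 0) :
    k * e b ≠ 0 ∧ k * e b ≠ e b := by
  by_cases hb : bar b = b
  swap
  · exact h.hnon k hk b hb ⟨u, w, hu, hw, hu0, hw0, huw⟩
  constructor
  · intro h0
    apply hu0
    have hz : ∀ v, e b v = v → k v = 0 := by
      intro v hv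
      have := congrArg (fun f : Module.End K V => f v) h0
      simp only [Module.End.mul_apply, hv] at this
      exact this
    apply h.nd' hu
    rw [hb]
    intro w hw
    rw [← h.hadj k hk u w, hz u hu, hz w hw, map_zero, map_zero, LinearMap.zero_apply, add_zero]
  · intro h0
    apply hu0
    have hz : ∀ v, e b v = v → k v = v := by
      intro v hv
      have := congrArg (fun f : Module.End K V => f v) h0
      simp only [Module.End.mul_apply, hv] at this
      exact this
    apply h.nd' hu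
    rw [hb]
    intro w hw
    have h1 := h.hadj k hk u w
    rw [hz u hu, hz w hw] at h1
    linear_combination h1

theorem isotropic {M : Module.End K V} (hM : M ∈ g) (hM2 : M * M = 0) {b : B} {u w : V}
    (hu0 : u ≠ 0) (hw0 : w ≠ 0) (hMb : M * e b = tw ω u w) : ω u w = 0 := by
  have h1 : tw ω u w * tw ω u w = 0 := by
    rw [← hMb, ← h.mul_e hM hM, hM2, zero_mul]
  rw [tw_mul] at h1
  exact (smul_eq_zero.1 h1).resolve_right (h.tw_ne hu0 hw0)

theorem hodge_ne [CharZero K] [FiniteDimensional K V] {M : Module.End K V} (hM : M ∈ g)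
    (hM2 : M * M = 0) {b : B} {u w : V} (hu : e b u = u) (hw : e (bar b) w = w) (hu0 : u ≠ 0)
    (hw0 : w ≠ 0) (hMb : M * e b = tw ω u w) {k : Module.End K V} (hk : k ∈ 𝓗) :
    ∃ z, ω (k (r z u)) (r z w) ≠ 0 := by
  by_contra hcon
  push Not at hcon
  have hru : ∀ x, e b (r x u) = r x u := fun x => h.fixr x hu
  have hrw : ∀ x, e (bar b) (r x w) = r x w := fun x => h.fixr x hw
  -- first variation
  have h1 : ∀ x₁ x₂, ω (r x₂ u) (r x₁ w) * ω (k (r x₁ u)) (r x₂ w) =
      ω (r x₁ u) (r x₂ w) * ω (k (r x₂ u)) (r x₁ w) := by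
    intro x₁ x₂
    obtain ⟨M', hM', hM'2, hM'b⟩ := h.seed_conj hM hM2 hMb x₂
    obtain ⟨y, hy⟩ := h.exp M' hM' hM'2 1
    have h2 := hcon (y * x₁)
    rw [h.rmul, h.rmul, hy] at h2
    have h3 := h.app_e hM'b (hru x₁)
    have h4 := h.app_e (h.skew_bar hM' (hru x₂) hM'b) (hrw x₁)
    simp only [LinearMap.add_apply, LinearMap.smul_apply, Module.End.one_apply, one_smul, h3, h4,
      map_add, map_smul, smul_eq_mul, hcon x₁, hcon x₂] at h2
    rw [h.anti (r x₁ w) (r x₂ u)] at h2
    linear_combination -h2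
  have hsplit : ∀ x₁ x₂, ω (r x₂ u) (k (r x₁ w)) * ω (k (r x₁ u)) (r x₂ w) =
      ω (r x₁ u - k (r x₁ u)) (r x₂ w) * ω (r x₂ u) (r x₁ w - k (r x₁ w)) := by
    intro x₁ x₂
    have h2 := h1 x₁ x₂
    have h3 := h.hadj k hk (r x₂ u) (r x₁ w)
    simp only [map_sub, LinearMap.sub_apply]
    linear_combination h2 + ω (r x₁ u) (r x₂ w) * h3
  have hzero : ∀ x₁ x₂, ω (r x₂ u) (k (r x₁ w)) * ω (k (r x₁ u)) (r x₂ w) = 0 := by
    intro x₁ x₂
    obtain ⟨μ, hμ⟩ := h.hexp k hk 2 (by norm_num)
    have h2 := hsplit x₁ x₂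
    have h3 := hsplit (μ * x₁) x₂
    have hkk : ∀ v, k (k v) = k v := by
      intro v
      have := congrArg (fun f : Module.End K V => f v) (h.hidem k hk)
      exact this
    have e1 : (2 : K) - 1 = 1 := by norm_num
    rw [h.rmul, h.rmul, hμ] at h3
    simp only [e1, LinearMap.add_apply, one_smul, Module.End.one_apply, map_add, map_sub,
      LinearMap.sub_apply, LinearMap.add_apply, hkk] at h3
    simp only [map_sub, LinearMap.sub_apply] at h2
    have h4 : (3 : K) * (ω (r x₂ u) (k (r x₁ w)) * ω (k (r x₁ u)) (r x₂ w)) = 0 := by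
      linear_combination h3 - h2
    exact (mul_eq_zero.1 h4).resolve_left (by norm_num)
  have hzero' : ∀ x₁ x₂, ω (r x₁ u - k (r x₁ u)) (r x₂ w) *
      ω (r x₂ u) (r x₁ w - k (r x₁ w)) = 0 := by
    intro x₁ x₂
    rw [← hsplit, hzero]
  have hrne : ∀ x (v : V), v ≠ 0 → r x v ≠ 0 := by
    intro x v hv h0
    apply hv
    rw [← h.rr' x v, h0, map_zero]
  -- dichotomy at each point
  have hdich : ∀ x, k (r x u) = r x u ∨ k (r x u) = 0 := by
    intro x
    by_cases hkw : k (r x w) = 0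
    · left
      have hw1 : r x w - k (r x w) ≠ 0 := by
        rw [hkw, sub_zero]; exact hrne x w hw0
      have hw2 : e (bar b) (r x w - k (r x w)) = r x w - k (r x w) := by
        rw [map_sub, hrw, h.fixh hk (hrw x)]
      by_contra hne
      have hu1 : r x u - k (r x u) ≠ 0 := sub_ne_zero.2 (Ne.symm hne)
      have hu2 : e b (r x u - k (r x u)) = r x u - k (r x u) := by
        rw [map_sub, hru, h.fixh hk (hru x)]
      obtain ⟨y, hy1, hy2⟩ := h.prime2 (h.cf' (r x u - k (r x u)) w)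
        (h.cf u (r x w - k (r x w))) (h.ex' hu2 hw hu1 hw0) (h.ex hu hw2 hu0 hw1)
      exact mul_ne_zero hy1 hy2 (hzero' x y)
    · right
      by_contra hne
      obtain ⟨y, hy1, hy2⟩ := h.prime2 (h.cf u (k (r x w))) (h.cf' (k (r x u)) w)
        (h.ex hu (h.fixh hk (hrw x)) hu0 hkw) (h.ex' (h.fixh hk (hru x)) hw hne hw0)
      exact mul_ne_zero hy1 hy2 (hzero x y)
  have hkdual : ∀ a : V, (fun x => ω (k (r x u)) a) ∈ coef ω r := by
    intro a
    exact h.cf_dual (ω.flip a ∘ₗ k) u
  have hkdual' : ∀ a : V, (fun x => ω (r x u - k (r x u)) a) ∈ coef ω r := by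
    intro a
    exact h.cf_dual (ω.flip a ∘ₗ (1 - k)) u
  obtain ⟨hn1, hn2⟩ := h.hnon' hk hu hw hu0 hw0 (h.isotropic hM hM2 hu0 hw0 hMb)
  by_cases hall : ∀ x, k (r x u) = 0
  · apply hn1
    ext v
    change k (e b v) = 0
    by_contra hne
    have hkv : e b (k (e b v)) = k (e b v) := h.fixh hk (h.idem' b v)
    obtain ⟨w', hw', hne'⟩ : ∃ w', e (bar b) w' = w' ∧ ω (k (e b v)) w' ≠ 0 := by
      by_contra hcon2
      push Not at hcon2
      exact hne (h.nd' hkv hcon2)
    rw [h.hadj' hk] at hne'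
    have hy0 : w' - k w' ≠ 0 := by
      intro h0
      rw [h0, map_zero] at hne'
      exact hne' rfl
    obtain ⟨x, hx⟩ := h.ex hu (show e (bar b) (w' - k w') = w' - k w' by
      rw [map_sub, hw', h.fixh hk hw']) hu0 hy0
    rw [← h.hadj' hk, hall x, map_zero] at hx
    exact hx rfl
  · push Not at hall
    obtain ⟨x₀, hx₀⟩ := hall
    obtain ⟨a, ha⟩ : ∃ a, ω (k (r x₀ u)) a ≠ 0 := by
      by_contra hcon2
      push Not at hcon2
      exact hx₀ (h.nd _ hcon2)
    have hall' : ∀ x, k (r x u) = r x u := by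
      intro x
      by_contra hne
      have hne1 : r x u - k (r x u) ≠ 0 := sub_ne_zero.2 (Ne.symm hne)
      obtain ⟨a', ha'⟩ : ∃ a', ω (r x u - k (r x u)) a' ≠ 0 := by
        by_contra hcon2
        push Not at hcon2
        exact hne1 (h.nd _ hcon2)
      obtain ⟨y, hy1, hy2⟩ := h.prime2 (hkdual a) (hkdual' a') ⟨x₀, ha⟩ ⟨x, ha'⟩
      rcases hdich y with h5 | h5
      · apply hy2
        change ω (r y u - k (r y u)) a' = 0
        rw [h5, sub_self, map_zero]; rfl
      · apply hy1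
        change ω (k (r y u)) a = 0
        rw [h5, map_zero]; rfl
    apply hn2
    ext v
    change k (e b v) = e b v
    by_contra hne
    have hkv : e b (k (e b v) - e b v) = k (e b v) - e b v := by
      rw [map_sub, h.fixh hk (h.idem' b v), h.idem']
    obtain ⟨w', hw', hne'⟩ : ∃ w', e (bar b) w' = w' ∧ ω (k (e b v) - e b v) w' ≠ 0 := by
      by_contra hcon2
      push Not at hcon2
      exact sub_ne_zero.2 hne (h.nd' hkv hcon2)
    have h6 : ω (k (e b v) - e b v) w' = - ω (e b v) (k w') := by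
      rw [map_sub, LinearMap.sub_apply, ← h.hadj k hk (e b v) w']; ring
    rw [h6] at hne'
    have hy0 : k w' ≠ 0 := by
      intro h0
      rw [h0, map_zero, neg_zero] at hne'
      exact hne' rfl
    obtain ⟨x, hx⟩ := h.ex hu (h.fixh hk hw') hu0 hy0
    have h7 := h.hadj k hk (r x u) w'
    rw [hall' x] at h7
    exact hx (by linear_combination h7)

end Big

end Pool.Agent.H76U
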