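import Pool.Agent.Lib.H76U.PP

/-!
# Thin components
-/

set_option autoImplicit false
set_option linter.unusedSectionVars false
namespace Pool.Agent.H76U
open Module Pool.Agent.H53Toric

variable {K : Type*} [Field K] {V : Type*} [AddCommGroup V] [Module K V]
variable {B : Type*} [Fintype B] [DecidableEq B] {Γ : Type*} [Group Γ]
variable {ω : V →ₗ[K] V →ₗ[K] K} {e : B → Module.End K V} {bar : B → B}
    {g : Submodule K (Module.End K V)} {r : Γ →* Module.End K V} {𝓗 : Set (Module.End K V)}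

/-- the vector determines the functional -/
def Thin (ω : V →ₗ[K] V →ₗ[K] K) (e : B → Module.End K V) (bar : B → B)
    (g : Submodule K (Module.End K V)) (b : B) : Prop :=
  ∀ u w w', u ≠ 0 → w ≠ 0 → PP ω e bar g b u w → PP ω e bar g b u w' → ∃ a : K, w' = a • w

namespace Big

variable (h : Big ω e bar g r 𝓗)
include h

theorem thin_sym {b : B} (ht : Thin ω e bar g b) {u w u' w' : V} (hp : PP ω e bar g b u w)
    (hp' : PP ω e bar g b u' w') (hw : w ≠ 0) (hu' : u' ≠ 0) (h2 : ω u w' ≠ 0) :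
    ω u' w ≠ 0 := by
  intro h1
  have h3 := h.PP_transfer hp hp' h1 h2
  have hw' : w' ≠ 0 := by
    rintro rfl
    exact h2 (map_zero _)
  obtain ⟨a, ha⟩ := ht u' w' w hu' hw' hp' h3
  have h4 := hp.2.2.1
  rw [ha, map_smul, smul_eq_mul] at h4
  rcases mul_eq_zero.1 h4 with h5 | h5
  · rw [h5, zero_smul] at ha
    exact hw ha
  · exact h2 h5

theorem thin_triple [CharZero K] {b : B} (ht : Thin ω e bar g b) {u₁ w₁ u₂ w₂ u₃ w₃ : V}
    (hp₁ : PP ω e bar g b u₁ w₁) (hp₂ : PP ω e bar g b u₂ w₂) (hp₃ : PP ω e bar g b u₃ w₃)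
    (hu₁ : u₁ ≠ 0) (hw₁ : w₁ ≠ 0) (hu₂ : u₂ ≠ 0) (hw₂ : w₂ ≠ 0) (hu₃ : u₃ ≠ 0) (hw₃ : w₃ ≠ 0) :
    ω u₂ w₁ * ω u₃ w₂ * ω u₁ w₃ = -(ω u₁ w₂ * ω u₃ w₁ * ω u₂ w₃) := by
  by_cases h12 : ω u₁ w₂ = 0
  · have h21 : ω u₂ w₁ = 0 := by
      by_contra hne
      exact h.thin_sym ht hp₂ hp₁ hw₂ hu₁ hne h12
    rw [h12, h21]; ring
  by_cases h31 : ω u₃ w₁ = 0
  · have h13 : ω u₁ w₃ = 0 := by
      by_contra hne
      exact h.thin_sym ht hp₁ hp₃ hw₁ hu₃ hne h31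
    rw [h31, h13]; ring
  set s : K := ω u₃ w₂ / (ω u₁ w₂ * ω u₃ w₁) with hs
  have hP := h.PP_exp hp₁ hp₂ s
  set U := u₂ + (s * ω u₂ w₁) • u₁ with hU
  set W := w₂ - (s * ω u₁ w₂) • w₁ with hW
  have hW0 : W ≠ 0 := by
    intro h0
    apply h12
    have h1 : w₂ = (s * ω u₁ w₂) • w₁ := sub_eq_zero.1 h0
    rw [h1, map_smul, hp₁.2.2.1, smul_zero]
  have h3W : ω u₃ W = 0 := by
    rw [hW, map_sub, map_smul, smul_eq_mul, hs]
    field_simp
    ring
  have hU3 : ω U w₃ = 0 := by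
    by_contra hne
    exact h.thin_sym ht hP hp₃ hW0 hu₃ hne h3W
  rw [hU, map_add, LinearMap.add_apply, map_smul, LinearMap.smul_apply, smul_eq_mul, hs] at hU3
  field_simp at hU3
  linear_combination hU3

end Big

end Pool.Agent.H76U
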