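import Pool.Agent.Lib.H76U.Twist
import Pool.Agent.Lib.H76U.Thin
import Pool.Agent.Lib.H76U.Hodge

/-!
# Components of unitary type are full
-/

set_option autoImplicit false
set_option linter.unusedSectionVars false
namespace Pool.Agent.H76U
open Module Pool.Agent.H53Toric

variable {K : Type*} [Field K] {V : Type*} [AddCommGroup V] [Module K V]
variable {B : Type*} [Fintype B] [DecidableEq B] {Γ : Type*} [Group Γ]
variable {ω : V →ₗ[K] V →ₗ[K] K} {e : B → Module.End K V} {bar : B → B}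
    {g : Submodule K (Module.End K V)} {r : Γ →* Module.End K V} {𝓗 : Set (Module.End K V)}

theorem finrank_inf_ker [FiniteDimensional K V] (W : Submodule K V) (f : V →ₗ[K] K) :
    finrank K W ≤ finrank K (W ⊓ LinearMap.ker f : Submodule K V) + 1 := by
  have h1 := Submodule.finrank_sup_add_finrank_inf_eq W (LinearMap.ker f)
  have h2 := LinearMap.finrank_range_add_finrank_ker f
  have h3 : finrank K (LinearMap.range f) ≤ 1 := by
    have := Submodule.finrank_le (LinearMap.range f)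
    rwa [finrank_self] at this
  have h4 := Submodule.finrank_le (W ⊔ LinearMap.ker f)
  omega

namespace Big

variable (h : Big ω e bar g r 𝓗)
include h

/-- A component of unitary type is not thin. -/
theorem not_thin [CharZero K] [FiniteDimensional K V] {b : B} (hbb : bar b ≠ b)
    {M : Module.End K V} (hM : M ∈ g) (hM2 : M * M = 0) {u w : V} (hu : e b u = u)
    (hw : e (bar b) w = w) (hu0 : u ≠ 0) (hw0 : w ≠ 0) (hMb : M * e b = tw ω u w) :
    ¬ Thin ω e bar g b := by
  intro ht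
  have huw := h.isotropic hM hM2 hu0 hw0 hMb
  have hP : PP ω e bar g b u w := ⟨hu, hw, huw, M, hM, hMb⟩
  have hrne : ∀ x (v : V), v ≠ 0 → r x v ≠ 0 := by
    intro x v hv h0
    apply hv
    rw [← h.rr' x v, h0, map_zero]
  apply h.twist (b := b) (c := bar b) (Ne.symm hbb) hu hw hw (by rw [h.barbar]; exact hu)
    hu0 hw0 hw0 hu0 huw (by rw [h.anti, huw, neg_zero]) ?_
    (fun k hk => h.hodge_ne hM hM2 hu hw hu0 hw0 hMb hk)
  intro x y
  obtain ⟨c, hc, hs, -, -⟩ := h.move x
  have h1 := h.thin_triple ht hP (h.PP_r hP x) (h.PP_r hP (x * y)) hu0 hw0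
    (hrne x u hu0) (hrne x w hw0) (hrne _ u hu0) (hrne _ w hw0)
  rw [h.rmul x y u, h.rmul x y w, hs, hs] at h1
  rw [h.anti u (r x (r y w)), h.anti u (r x w), h.anti u (r y w)] at h1
  rw [h.rmul, h.rmul]
  have h2 : c * (ω (r x u) w * ω (r y u) w * ω (r x (r y w)) u -
      ω (r x w) u * ω (r y w) u * ω (r x (r y u)) w) = 0 := by
    linear_combination -h1
  exact sub_eq_zero.1 ((mul_eq_zero.1 h2).resolve_left hc)

/-- the functionals occurring with `u` -/
def FF {b : B} {u : V} (hu : e b u = u) : Submodule K V where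
  carrier := {w | PP ω e bar g b u w}
  add_mem' := fun {_ _} ha hb => h.PP_add_right ha hb
  zero_mem' := h.PP_zero_right hu
  smul_mem' := fun c _ ha => h.PP_smul_right ha c

theorem mem_FF {b : B} {u : V} (hu : e b u = u) {w : V} :
    w ∈ h.FF hu ↔ PP ω e bar g b u w := Iff.rfl

theorem fin_le [FiniteDimensional K V] {b : B} {u u' : V} (hu : e b u = u)
    (hu' : e b u' = u') (x : Γ) (hx : u' = r x u) :
    finrank K (h.FF hu) ≤ finrank K (h.FF hu') := by
  have hinj : Function.Injective (r x) := by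
    intro a c hac
    rw [← h.rr' x a, hac, h.rr']
  rw [(Submodule.equivMapOfInjective (r x) hinj (h.FF hu)).finrank_eq]
  apply Submodule.finrank_mono
  rintro _ ⟨w, hw, rfl⟩
  rw [h.mem_FF, hx]
  exact h.PP_r hw x

theorem fin_eq [FiniteDimensional K V] {b : B} {u : V} (hu : e b u = u) (x : Γ) :
    finrank K (h.FF (h.fixr x hu)) = finrank K (h.FF hu) :=
  le_antisymm (h.fin_le (h.fixr x hu) hu x⁻¹ (h.rr' x u).symm)
    (h.fin_le hu (h.fixr x hu) x rfl)

/-- transfer of subspaces -/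
theorem ff_transfer {b : B} {u w u' : V} (hu : e b u = u) (hu' : e b u' = u')
    (hp : PP ω e bar g b u' w) (hne : ω u w ≠ 0) :
    h.FF hu ⊓ LinearMap.ker (ω u') ≤ h.FF hu' := by
  rintro w' ⟨hw1, hw2⟩
  exact h.PP_transfer hw1 hp (LinearMap.mem_ker.1 hw2) hne

theorem ff_perp {b : B} {u : V} (hu : e b u = u) : h.FF hu ≤ LinearMap.ker (ω u) := by
  intro w hw
  exact LinearMap.mem_ker.2 hw.2.2.1

/-- If some vector has two independent functionals then all functionals orthogonal to it occur. -/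
theorem ff_max [FiniteDimensional K V] {b : B} {u w₁ w₂ : V} (hu : e b u = u) (hu0 : u ≠ 0)
    (hw₁0 : w₁ ≠ 0) (hp₁ : PP ω e bar g b u w₁) (hp₂ : PP ω e bar g b u w₂)
    (hli : ∀ a : K, w₂ ≠ a • w₁) {w : V} (hw : e (bar b) w = w) (huw : ω u w = 0) :
    PP ω e bar g b u w := by
  have hw₁ := hp₁.2.1
  have hrne : ∀ x (v : V), v ≠ 0 → r x v ≠ 0 := by
    intro x v hv h0
    apply hv
    rw [← h.rr' x v, h0, map_zero]
  set d := finrank K (h.FF hu) with hd
  -- `d ≥ 2`
  have hd2 : 2 ≤ d := by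
    have h1 : LinearIndependent K ![(⟨w₁, hp₁⟩ : h.FF hu), ⟨w₂, hp₂⟩] := by
      rw [LinearIndependent.pair_iff' (by
        intro h0
        exact hw₁0 (congrArg Subtype.val h0))]
      intro a ha
      exact hli a (congrArg Subtype.val ha).symm
    have h2 := h1.fintype_card_le_finrank
    simpa using h2
  have hlow : ∀ (W : Submodule K V) (v : V), finrank K W = d →
      d ≤ finrank K (W ⊓ LinearMap.ker (ω v) : Submodule K V) + 1 := by
    intro W v hW
    rw [← hW]
    exact finrank_inf_ker W (ω v)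
  -- a first conjugate
  obtain ⟨x₁, hx₁⟩ := h.ex' hu hw₁ hu0 hw₁0
  set u₁ := r x₁ u with hu₁d
  have hu₁ : e b u₁ = u₁ := h.fixr x₁ hu
  have hp₁' : PP ω e bar g b u₁ (r x₁ w₁) := h.PP_r hp₁ x₁
  have hR1 : h.FF hu ⊓ LinearMap.ker (ω u₁) ≤ h.FF hu₁ := h.ff_transfer hu hu₁ hp₁' hx₁
  have hu₁0 : u₁ ≠ 0 := hrne x₁ u hu0
  have hfu₁ : finrank K (h.FF hu₁) = d := h.fin_eq hu x₁
  -- upper bound for the rank of `R`
  have hRup : finrank K (h.FF hu ⊓ LinearMap.ker (ω u₁) : Submodule K V) < d := by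
    have hlt : h.FF hu ⊓ LinearMap.ker (ω u₁) < h.FF hu₁ := by
      refine lt_of_le_of_ne hR1 ?_
      intro heq
      have h1 : r x₁ w₁ ∈ h.FF hu ⊓ LinearMap.ker (ω u₁) := by
        rw [heq]; exact hp₁'
      exact hx₁ (LinearMap.mem_ker.1 (h.ff_perp hu h1.1))
    have := Submodule.finrank_lt_finrank_of_lt hlt
    omega
  have hRlow := hlow (h.FF hu) u₁ rfl
  set R := h.FF hu ⊓ LinearMap.ker (ω u₁) with hR
  obtain ⟨wR, hwR, hwR0⟩ : ∃ wR ∈ R, wR ≠ 0 := by
    by_contra hcon
    push Not at hcon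
    have : R = ⊥ := (Submodule.eq_bot_iff _).2 hcon
    rw [this, finrank_bot] at hRlow
    omega
  -- `Φ`
  set Φ := h.FF hu ⊔ h.FF hu₁ with hΦ
  have hΦall : ∀ w, e (bar b) w = w → w ∈ Φ := by
    intro w hw
    by_contra hcon
    obtain ⟨f, hf0, hfΦ⟩ := Submodule.exists_le_ker_of_notMem hcon
    obtain ⟨a, ha⟩ := h.surj f
    set z := e b a with hz
    have hza : ∀ w', e (bar b) w' = w' → f w' = -ω z w' := by
      intro w' hw'
      rw [ha, h.anti, hz, h.self, hw']
    have hz1 : e b z = z := h.idem' b a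
    have hz0 : z ≠ 0 := by
      intro h0
      apply hf0
      rw [hza w hw, h0, map_zero, LinearMap.zero_apply, neg_zero]
    obtain ⟨y, hy1, hy2, hy3, hy4⟩ := h.prime4 (h.cf' u w₁) (h.cf' u₁ w₁) (h.cf u wR)
      (h.cf' z w₁) (h.ex' hu hw₁ hu0 hw₁0) (h.ex' hu₁ hw₁ hu₁0 hw₁0)
      (h.ex hu hwR.1.2.1 hu0 hwR0) (h.ex' hz1 hw₁ hz0 hw₁0)
    set uy := r y u with huyd
    have huy : e b uy = uy := h.fixr y hu
    have hpy : PP ω e bar g b uy (r y w₁) := h.PP_r hp₁ y
    have hQ1 : h.FF hu ⊓ LinearMap.ker (ω uy) ≤ h.FF huy := h.ff_transfer hu huy hpy hy1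
    have hQ2 : h.FF hu₁ ⊓ LinearMap.ker (ω uy) ≤ h.FF huy := h.ff_transfer hu₁ huy hpy hy2
    have hl1 := hlow (h.FF hu) uy rfl
    have hl2 := hlow (h.FF hu₁) uy hfu₁
    set Q1 := h.FF hu ⊓ LinearMap.ker (ω uy) with hQ1d
    set Q2 := h.FF hu₁ ⊓ LinearMap.ker (ω uy) with hQ2d
    have hlt : Q1 ⊔ Q2 < h.FF huy := by
      refine lt_of_le_of_ne (sup_le hQ1 hQ2) ?_
      intro heq
      have h1 : r y w₁ ∈ Q1 ⊔ Q2 := by rw [heq]; exact hpy
      have h2 : r y w₁ ∈ Φ := by
        have : Q1 ⊔ Q2 ≤ Φ := sup_le (inf_le_left.trans le_sup_left)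
          (inf_le_left.trans le_sup_right)
        exact this h1
      have h3 := LinearMap.mem_ker.1 (hfΦ h2)
      rw [hza _ hpy.2.1, neg_eq_zero] at h3
      exact hy4 h3
    have h5 := Submodule.finrank_lt_finrank_of_lt hlt
    have h6 : finrank K (h.FF huy) = d := h.fin_eq hu y
    have h7 : Q1 = Q1 ⊔ Q2 := Submodule.eq_of_le_of_finrank_le le_sup_left (by omega)
    have h8 : Q2 = Q1 ⊔ Q2 := Submodule.eq_of_le_of_finrank_le le_sup_right (by omega)
    have h9 : Q1 ≤ R := by
      intro v hv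
      refine ⟨hv.1, ?_⟩
      have : v ∈ Q2 := by rw [h8, ← h7]; exact hv
      exact h.ff_perp hu₁ this.1
    have h10 : Q1 = R := Submodule.eq_of_le_of_finrank_le h9 (by omega)
    have h11 : wR ∈ Q1 := by rw [h10]; exact hwR
    exact hy3 (LinearMap.mem_ker.1 h11.2)
  -- dimensions
  set W : Submodule K V := LinearMap.range (e (bar b)) with hW
  have hmemW : ∀ {v}, v ∈ W ↔ e (bar b) v = v := by
    intro v
    constructor
    · rintro ⟨a, rfl⟩
      exact h.idem' _ a
    · intro hv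
      exact ⟨v, hv⟩
  have hWΦ : W ≤ Φ := fun v hv => hΦall v (hmemW.1 hv)
  have hle : h.FF hu ≤ W ⊓ LinearMap.ker (ω u) := fun v hv =>
    ⟨hmemW.2 hv.2.1, h.ff_perp hu hv⟩
  have h1 := Submodule.finrank_sup_add_finrank_inf_eq (h.FF hu) (h.FF hu₁)
  rw [← hΦ] at h1
  have h2 : R ≤ h.FF hu ⊓ h.FF hu₁ := le_inf inf_le_left hR1
  have h3 := Submodule.finrank_mono h2
  have h4 := Submodule.finrank_mono hWΦ
  have h5 : finrank K (W ⊓ LinearMap.ker (ω u) : Submodule K V) < finrank K W := by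
    apply Submodule.finrank_lt_finrank_of_lt
    refine lt_of_le_of_ne inf_le_left ?_
    intro heq
    apply hu0
    apply h.nd' hu
    intro w hw
    have : w ∈ W ⊓ LinearMap.ker (ω u) := by rw [heq]; exact hmemW.2 hw
    exact LinearMap.mem_ker.1 this.2
  have h6 : h.FF hu = W ⊓ LinearMap.ker (ω u) :=
    Submodule.eq_of_le_of_finrank_le hle (by omega)
  have h7 : w ∈ h.FF hu := by
    rw [h6]
    exact ⟨hmemW.2 hw, LinearMap.mem_ker.2 huw⟩
  exact h7

theorem PP_add_left {b : B} {u u' w : V} (hp : PP ω e bar g b u w)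
    (hp' : PP ω e bar g b u' w) : PP ω e bar g b (u + u') w := by
  obtain ⟨hu, hw, huw, A, hA, hAb⟩ := hp
  obtain ⟨hu', -, huw', A', hA', hAb'⟩ := hp'
  refine ⟨by rw [map_add, hu, hu'], hw, by rw [map_add, LinearMap.add_apply, huw, huw', add_zero],
    A + A', g.add_mem hA hA', ?_⟩
  rw [add_mul, hAb, hAb', tw_add_left]

/-- addition of vectors all of whose orthogonal functionals occur -/
theorem max_add [CharZero K] {b : B} {u v : V} (hu : e b u = u) (hv : e b v = v) (hu0 : u ≠ 0)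
    (hU : ∀ w, e (bar b) w = w → ω u w = 0 → PP ω e bar g b u w)
    (hV : ∀ w, e (bar b) w = w → ω v w = 0 → PP ω e bar g b v w) :
    ∀ w, e (bar b) w = w → ω (u + v) w = 0 → PP ω e bar g b (u + v) w := by
  intro w hw huvw
  by_cases hex : ∃ w'', e (bar b) w'' = w'' ∧ ω u w'' = 0 ∧ ω v w'' ≠ 0
  · obtain ⟨w0, hw0, hu0', hv0'⟩ := hex
    set w'' := (ω v w0)⁻¹ • w0 with hw''d
    have hw'' : e (bar b) w'' = w'' := by rw [hw''d, map_smul, hw0]
    have huw'' : ω u w'' = 0 := by rw [hw''d, map_smul, hu0', smul_zero]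
    have hvw'' : ω v w'' = 1 := by rw [hw''d, map_smul, smul_eq_mul, inv_mul_cancel₀ hv0']
    have hp1 := hU w'' hw'' huw''
    rw [map_add, LinearMap.add_apply] at huvw
    have hp2 := hV (w + (ω u w) • w'') (by rw [map_add, map_smul, hw, hw'']) (by
      rw [map_add, map_smul, hvw'', smul_eq_mul, mul_one]
      linear_combination huvw)
    have hp3 := h.PP_exp hp1 hp2 1
    rw [one_mul, one_mul, hvw'', one_smul, map_add, map_smul, huw'', smul_zero, add_zero,
      add_sub_cancel_right, add_comm v u] at hp3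
    exact hp3
  · push Not at hex
    obtain ⟨w0, hw0, hne⟩ : ∃ w0, e (bar b) w0 = w0 ∧ ω u w0 ≠ 0 := by
      by_contra hcon
      push Not at hcon
      exact hu0 (h.nd' hu hcon)
    have hvu : v = (ω v w0 * (ω u w0)⁻¹) • u := by
      rw [← sub_eq_zero]
      apply h.nd' (b := b) (by rw [map_sub, map_smul, hv, hu])
      intro w' hw'
      have h1 := hex (w' - (ω u w' * (ω u w0)⁻¹) • w0) (by rw [map_sub, map_smul, hw', hw0]) (by
        rw [map_sub, map_smul, smul_eq_mul, mul_assoc, inv_mul_cancel₀ hne, mul_one, sub_self])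
      rw [map_sub, map_smul, smul_eq_mul] at h1
      rw [map_sub, map_smul, LinearMap.sub_apply, LinearMap.smul_apply, smul_eq_mul]
      linear_combination h1
    by_cases huw : ω u w = 0
    · have hvw : ω v w = 0 := by rw [hvu, map_smul, LinearMap.smul_apply, huw, smul_zero]
      exact h.PP_add_left (hU w hw huw) (hV w hw hvw)
    · set a := ω v w0 * (ω u w0)⁻¹ with ha
      have h1 : u + v = 0 := by
        rw [hvu]
        have h2 : (1 + a) * ω u w = 0 := by
          rw [hvu] at huvw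
          rw [map_add, map_smul, LinearMap.add_apply, LinearMap.smul_apply, smul_eq_mul] at huvw
          linear_combination huvw
        have h3 : 1 + a = 0 := (mul_eq_zero.1 h2).resolve_right huw
        have : u + a • u = (1 + a) • u := by rw [add_smul, one_smul]
        rw [this, h3, zero_smul]
      rw [h1]
      exact h.PP_zero_left hw

/-- **Components of unitary type are full.** -/
theorem full_unitary [CharZero K] [FiniteDimensional K V] {b : B} (hbb : bar b ≠ b)
    {M : Module.End K V} (hM : M ∈ g) (hM2 : M * M = 0) {u w : V} (hu : e b u = u)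
    (hw : e (bar b) w = w) (hu0 : u ≠ 0) (hw0 : w ≠ 0) (hMb : M * e b = tw ω u w)
    {v z : V} (hv : e b v = v) (hz : e (bar b) z = z) (hvz : ω v z = 0) :
    PP ω e bar g b v z := by
  have hnt := h.not_thin hbb hM hM2 hu hw hu0 hw0 hMb
  rw [Thin] at hnt
  push Not at hnt
  obtain ⟨u₁, w₁, w₂, hu₁0, hw₁0, hp₁, hp₂, hli⟩ := hnt
  have hu₁ := hp₁.1
  set W : Submodule K V :=
    { carrier := {v | e b v = v ∧ ∀ w, e (bar b) w = w → ω v w = 0 → PP ω e bar g b v w}
      add_mem' := fun {a c} ha hc => by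
        refine ⟨by rw [map_add, ha.1, hc.1], ?_⟩
        by_cases ha0 : a = 0
        · rw [ha0, zero_add]; exact hc.2
        · exact h.max_add ha.1 hc.1 ha0 ha.2 hc.2
      zero_mem' := ⟨map_zero _, fun w hw _ => h.PP_zero_left hw⟩
      smul_mem' := fun c a ha => by
        refine ⟨by rw [map_smul, ha.1], ?_⟩
        intro w hw haw
        by_cases hc : c = 0
        · rw [hc, zero_smul]; exact h.PP_zero_left hw
        · rw [map_smul, LinearMap.smul_apply, smul_eq_mul] at haw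
          exact h.PP_smul_left (ha.2 w hw ((mul_eq_zero.1 haw).resolve_left hc)) c } with hW
  have hu₁W : u₁ ∈ W := ⟨hu₁, fun w hw huw => h.ff_max hu₁ hu₁0 hw₁0 hp₁ hp₂ hli hw huw⟩
  have hstab : ∀ x, r x u₁ ∈ W := by
    intro x
    refine ⟨h.fixr x hu₁, ?_⟩
    intro w hw hxw
    obtain ⟨c, hc, hs, h1, h2⟩ := h.move x
    rw [h1] at hxw
    have h3 := hu₁W.2 (r x⁻¹ w) (h.fixr x⁻¹ hw) ((mul_eq_zero.1 hxw).resolve_left hc)
    have h4 := h.PP_r h3 x
    rwa [h.rr] at h4
  have hvW : v ∈ W := by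
    by_contra hcon
    obtain ⟨f, hf0, hfW⟩ := Submodule.exists_le_ker_of_notMem hcon
    obtain ⟨a, ha⟩ := h.surj f
    have h1 : ∀ x, ω (r x u₁) (e (bar b) a) = 0 := by
      intro x
      rw [← h.self, h.fixr x hu₁, ← ha]
      exact LinearMap.mem_ker.1 (hfW (hstab x))
    have h2 : e (bar b) a = 0 := by
      by_contra hne
      obtain ⟨x, hx⟩ := h.ex hu₁ (h.idem' _ a) hu₁0 hne
      exact hx (h1 x)
    apply hf0
    rw [ha, ← hv, h.self, h2, map_zero]
  exact hvW.2 z hz hvz

end Big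

end Pool.Agent.H76U
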