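import Pool.Agent.Lib.H76U.All

/-!
# Seeds from elements of small rank
-/

set_option autoImplicit false
set_option linter.unusedSectionVars false
namespace Pool.Agent.H76U
open Module Pool.Agent.H53Toric

variable {K : Type*} [Field K] {V : Type*} [AddCommGroup V] [Module K V]
variable {B : Type*} [Fintype B] [DecidableEq B] {Γ : Type*} [Group Γ]
variable {ω : V →ₗ[K] V →ₗ[K] K} {e : B → Module.End K V} {bar : B → B}
    {g : Submodule K (Module.End K V)} {r : Γ →* Module.End K V} {𝓗 : Set (Module.End K V)}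

namespace Big

variable (h : Big ω e bar g r 𝓗)
include h

/-- the symplectic components -/
theorem setup_self : H76RM.Setup ω (fun b : {b // bar b = b} => e b.1) g r where
  alt := h.alt
  lie := h.lie
  skew := h.skew
  sim := h.sim
  conj := h.conj
  idem := fun b => h.idem b.1
  orth := fun b c hbc => h.orth b.1 c.1 fun hcon => hbc (Subtype.ext hcon)
  nd := h.nd
  self := by
    intro b v w
    have := h.self b.1 v w
    rw [b.2] at this
    exact this
  gcomm := fun b => h.gcomm b.1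
  rcomm := fun b => h.rcomm b.1
  gen := by
    intro u₁ v₁ u₂ v₂ u₃ v₃ h1 h2 h3
    exact h.prime3 (h.cf' u₁ v₁) (h.cf' u₂ v₂) (h.cf' u₃ v₃) h1 h2 h3
  falt := by
    intro u v hu hv hx b
    have hf : ∀ z, (∑ b : {b // bar b = b}, e b.1) z = z → (∑ b, e b) z = z := by
      intro z hz
      have h1 : ∀ c : {b // bar b = b}, (∑ b, e b) (e c.1 z) = e c.1 z := fun c =>
        h.fsum (h.idem' c.1 z)
      conv_lhs => rw [← hz]
      rw [LinearMap.sum_apply (f := fun b : {b // bar b = b} => e b.1), map_sum]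
      simp only [h1]
      conv_rhs => rw [← hz]
      rw [LinearMap.sum_apply (f := fun b : {b // bar b = b} => e b.1)]
    have h1 := h.faltr (hf u hu) (hf v hv) (by
      intro x
      rw [h.anti, hx, neg_zero]) b.1
    rw [b.2] at h1
    exact h1

/-- seeds of symplectic components -/
theorem seed_self [IsAlgClosed K] [CharZero K] [FiniteDimensional K V] {b : B} (hb : bar b = b)
    {N : Module.End K V} (hN : N ∈ g) (hN2 : N * N = 0) (h0 : N * e b ≠ 0)
    (hr : finrank K (LinearMap.range (N * e b)) ≤ 2) :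
    Seed ω e bar g b ∧ Fu ω e bar g b := by
  obtain ⟨M, hM, hM2, d, hd, hd0, hMd⟩ :=
    h.setup_self.seed_of_small (b := ⟨b, hb⟩) hN hN2 h0 hr
  constructor
  · exact ⟨M, hM, hM2, d, d, hd, by rw [hb]; exact hd, hd0, hd0, hMd⟩
  · intro u w hc
    obtain ⟨a, ha⟩ := hc.2.2.2 hb
    obtain ⟨-, A, hA, hAb⟩ := h.setup_self.full (b := ⟨b, hb⟩) ⟨hd, M, hM, hMd⟩ hd0 hc.1
    refine ⟨a • A, g.smul_mem _ hA, ?_⟩
    rw [smul_mul_assoc, ha, tw_smul_right]
    congr 1

/-- operators of rank one -/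
theorem exists_tw [FiniteDimensional K V] {b : B} {N : Module.End K V} (hN : N ∈ g)
    (h0 : N * e b ≠ 0) (hr : finrank K (LinearMap.range (N * e b)) ≤ 1) :
    ∃ u w, e b u = u ∧ e (bar b) w = w ∧ u ≠ 0 ∧ w ≠ 0 ∧ N * e b = tw ω u w := by
  obtain ⟨⟨u, hu⟩, hspan⟩ := finrank_le_one_iff.1 hr
  have hNe : ∀ v, (N * e b) v = N (e b v) := fun _ => rfl
  have hub : e b u = u := by
    obtain ⟨z, hz⟩ := hu
    rw [← hz, hNe]
    exact h.fixA hN (h.idem' b z)
  have hline : ∀ v, ∃ c : K, (N * e b) v = c • u := by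
    intro v
    obtain ⟨c, hc⟩ := hspan ⟨(N * e b) v, v, rfl⟩
    exact ⟨c, (congrArg Subtype.val hc).symm⟩
  have hu0 : u ≠ 0 := by
    rintro rfl
    apply h0
    ext v
    obtain ⟨c, hc⟩ := hline v
    rw [hc, smul_zero]; rfl
  obtain ⟨q, hq⟩ : ∃ q, ω u q = 1 := by
    obtain ⟨q, hq⟩ : ∃ q, ω u q ≠ 0 := by
      by_contra hcon
      push Not at hcon
      exact hu0 (h.nd u hcon)
    exact ⟨(ω u q)⁻¹ • q, by rw [map_smul, smul_eq_mul, inv_mul_cancel₀ hq]⟩
  obtain ⟨a, ha⟩ := h.surj (ω.flip q ∘ₗ (N * e b))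
  have hNb : N * e b = tw ω u (e (bar b) a) := by
    ext v
    obtain ⟨c, hc⟩ := hline v
    have h1 : ω v (e (bar b) a) = c := by
      rw [← h.self, ← ha]
      change ω ((N * e b) (e b v)) q = c
      rw [hNe, h.idem', ← hNe, hc, map_smul, LinearMap.smul_apply, hq, smul_eq_mul, mul_one]
    rw [hc, tw_apply, h1]
  refine ⟨u, e (bar b) a, hub, h.idem' _ a, hu0, ?_, hNb⟩
  intro h1
  apply h0
  rw [hNb, h1, tw_zero_right]

/-- seeds of unitary components -/
theorem seed_unit [CharZero K] [FiniteDimensional K V] {b : B} (hb : bar b ≠ b)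
    {N : Module.End K V} (hN : N ∈ g) (hN2 : N * N = 0) (h0 : N * e b ≠ 0)
    (hr : finrank K (LinearMap.range (N * e b)) ≤ 1) :
    Seed ω e bar g b ∧ Fu ω e bar g b := by
  obtain ⟨u, w, hu, hw, hu0, hw0, hNb⟩ := h.exists_tw hN h0 hr
  refine ⟨⟨N, hN, hN2, u, w, hu, hw, hu0, hw0, hNb⟩, ?_⟩
  intro v z hc
  exact (h.full_unitary hb hN hN2 hu hw hu0 hw0 hNb hc.1 hc.2.1 hc.2.2.1).2.2.2

end Big

end Pool.Agent.H76U
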