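import Pool.Agent.Lib.H76RM.Mk
import Pool.Agent.Lib.H76U.Seeds
import Pool.Agent.Lib.H76U.SL
import Pool.Agent.Lib.H76U.Factor

/-!
# From the Lie algebra to the group: symplectic and unitary components
-/

set_option autoImplicit false
set_option linter.unusedSectionVars false
namespace Pool.Agent.H76U
open Module Matrix Pool.Agent.H53Toric
open Pool.Agent.H76RM (zar_commute zlie_commute Vb mem_Vb omb omb_apply)

variable {ι : Type*} [Fintype ι] [DecidableEq ι] {K : Type*} [Field K]
variable {B : Type*} [Fintype B] [DecidableEq B]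

/-- primitive idempotents, one for each simple factor; `bar` gives the adjoints -/
structure Split4 (J : Matrix ι ι K) (DD : Submodule K (Matrix ι ι K)) (bar : B → B)
    (e : B → Matrix ι ι K) : Prop where
  one : (1 : Matrix ι ι K) ∈ DD
  mem : ∀ b, e b ∈ DD
  idem : ∀ b, e b * e b = e b
  barbar : ∀ b, bar (bar b) = b
  adj : ∀ b, (e b)ᵀ * J = J * e (bar b)
  corner : ∀ b, ∀ x ∈ DD, ∃ c : K, e b * x * e b = c • e b
  orth : ∀ b c, b ≠ c → ∀ x ∈ DD, e b * x * e c = 0
  full : ∀ v : ι → K, v ∈ Submodule.span K {w | ∃ x ∈ DD, ∃ b, ∃ u : ι → K,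
    w = x *ᵥ (e b *ᵥ u)}

namespace Split4

variable {J : Matrix ι ι K} {DD : Submodule K (Matrix ι ι K)} {bar : B → B}
  {e : B → Matrix ι ι K} (h : Split4 J DD bar e)
include h

theorem orth1 {b c : B} (hbc : b ≠ c) : e b * e c = 0 := by
  have := h.orth b c hbc 1 h.one
  rwa [mul_one] at this

theorem ext_comm {x y : Matrix ι ι K} (hx : ∀ d ∈ DD, x * d = d * x)
    (hy : ∀ d ∈ DD, y * d = d * y) (hxy : ∀ b, x * e b = y * e b) : x = y := by
  have key : ∀ v : ι → K, x *ᵥ v = y *ᵥ v := by
    intro v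
    refine Submodule.span_induction (p := fun v _ => x *ᵥ v = y *ᵥ v) ?_ ?_ ?_ ?_ (h.full v)
    · rintro _ ⟨d, hd, b, u, rfl⟩
      rw [Matrix.mulVec_mulVec, Matrix.mulVec_mulVec, Matrix.mulVec_mulVec,
        Matrix.mulVec_mulVec]
      congr 1
      rw [hx d hd, hy d hd, mul_assoc, mul_assoc, hxy b]
    · rw [Matrix.mulVec_zero, Matrix.mulVec_zero]
    · intro a b _ _ ha hb
      rw [Matrix.mulVec_add, Matrix.mulVec_add, ha, hb]
    · intro a v _ hv
      rw [Matrix.mulVec_smul, Matrix.mulVec_smul, hv]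
  apply (phi (ι := ι) (K := K)).injective
  apply LinearMap.ext
  intro v
  rw [phi_apply, phi_apply]
  exact key v

theorem self (b : B) (v w : ι → K) : om J (e b *ᵥ v) w = om J v (e (bar b) *ᵥ w) := by
  rw [om_apply, om_apply, Matrix.mulVec_mulVec, ← h.adj b, ← Matrix.mulVec_mulVec,
    Matrix.dotProduct_mulVec v, Matrix.vecMul_transpose]

end Split4

section
variable {J : Matrix ι ι K} {DD : Submodule K (Matrix ι ι K)} {bar : B → B}
  {e : B → Matrix ι ι K}
  (h : Split4 J DD bar e) {S : Set (Matrix ι ι K)} (hS1 : (1 : Matrix ι ι K) ∈ S)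
  (hS : ∀ a ∈ S, ∀ b ∈ S, a * b ∈ S) (hSD : ∀ s ∈ S, ∀ d ∈ DD, s * d = d * s)
  (hA : ∀ b u w, Core (om J) (fun b => phi (e b)) bar b u w → ∃ X ∈ zlie S,
    (∀ v w, om J (X *ᵥ v) w = - om J v (X *ᵥ w)) ∧ phi X * phi (e b) = tw (om J) u w ∧
    phi X * phi (e (bar b)) = tw (om J) w u ∧ ∀ c, c ≠ b → c ≠ bar b → phi X * phi (e c) = 0)
  (hJ : Jᵀ = -J) (hdet : IsUnit J.det)

include h hS1 hSD hA hJ in
theorem one_add_core [CharZero K] {b : B} {u w : ι → K}
    (hc : Core (om J) (fun b => phi (e b)) bar b u w) (a : K) :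
    ∃ y ∈ zar S, (∀ v w, om J (y *ᵥ v) (y *ᵥ w) = om J v w) ∧
      (∀ v, e b *ᵥ v = v → y *ᵥ v = v + (a * om J v w) • u) ∧
      ∀ c, c ≠ b → c ≠ bar b → y * e c = e c := by
  obtain ⟨X, hXz, hXs, hXb, hXb', hXc⟩ := hA b u w hc
  have hcomm : ∀ d ∈ DD, X * d = d * X := fun d hd =>
    zlie_commute hS1 (fun s hs => hSD s hs d hd) hXz
  have hXc' : ∀ c, c ≠ b → c ≠ bar b → X * e c = 0 := by
    intro c h1 h2
    apply (phi (ι := ι) (K := K)).injective
    rw [map_mul, hXc c h1 h2, map_zero]
  have hsq : ∀ c, X * X * e c = (X * e c) * (X * e c) := by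
    intro c
    calc X * X * e c = X * X * (e c * e c) := by rw [h.idem]
      _ = X * (X * e c) * e c := by noncomm_ring
      _ = X * (e c * X) * e c := by rw [hcomm _ (h.mem c)]
      _ = _ := by noncomm_ring
  have hXX : X * X = 0 := by
    apply h.ext_comm
    · intro d hd
      rw [mul_assoc, hcomm d hd, ← mul_assoc, hcomm d hd, mul_assoc]
    · intro d _
      rw [zero_mul, mul_zero]
    · intro c
      rw [zero_mul, hsq]
      apply (phi (ι := ι) (K := K)).injective
      rw [map_mul, map_mul, map_zero]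
      by_cases h1 : c = b
      · subst h1
        rw [hXb, tw_sq hc.2.2.1]
      by_cases h2 : c = bar b
      · subst h2
        rw [hXb', tw_sq]
        rw [H76RM.anti0 (om_alt hJ), hc.2.2.1, neg_zero]
      · rw [hXc c h1 h2, mul_zero]
  have hXXv : ∀ v, X *ᵥ (X *ᵥ v) = 0 := by
    intro v
    rw [Matrix.mulVec_mulVec, hXX, Matrix.zero_mulVec]
  refine ⟨1 + a • X, ?_, ?_, ?_, ?_⟩
  · have := zlie_exp hXz hXX 1 hS1 a
    rwa [one_mul] at this
  · intro v w
    simp only [Matrix.add_mulVec, Matrix.one_mulVec, Matrix.smul_mulVec, map_add, map_smul,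
      LinearMap.add_apply, LinearMap.smul_apply, smul_eq_mul, hXs]
    rw [hXXv, map_zero]
    ring
  · intro v hv
    have e1 : X *ᵥ v = om J v w • u := by
      rw [← tw_apply, ← hXb]
      change _ = phi X (phi (e b) v)
      rw [phi_apply (e b), hv, phi_apply]
    rw [Matrix.add_mulVec, Matrix.one_mulVec, Matrix.smul_mulVec, e1, smul_smul]
  · intro c h1 h2
    rw [add_mul, one_mul, smul_mul_assoc, hXc' c h1 h2, smul_zero, add_zero]

include h hS1 hS hSD hA hJ hdet in
/-- isometries of one symplectic component -/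
theorem comp_self [CharZero K] {b : B} (hb : bar b = b) (x : Module.End K (Vb e b))
    (hx : ∀ v w, omb J e b (x v) (x w) = omb J e b v w) :
    ∃ y ∈ zar S, (∀ v w, om J (y *ᵥ v) (y *ᵥ w) = om J v w) ∧
      (∀ v : Vb e b, y *ᵥ v.1 = (x v).1) ∧ ∀ c, c ≠ b → c ≠ bar b → y * e c = e c := by
  have h1 := sp_mem (ω := omb J e b)
    (Z := {x | ∃ y ∈ zar S, (∀ v w, om J (y *ᵥ v) (y *ᵥ w) = om J v w) ∧
      (∀ v : Vb e b, y *ᵥ v.1 = (x v).1) ∧ ∀ c, c ≠ b → c ≠ bar b → y * e c = e c})
    (by
      intro v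
      rw [omb_apply]
      exact om_alt hJ _) (by
      intro v hv
      apply Subtype.ext
      apply om_nd hdet
      intro w
      have hvb := (mem_Vb (h.idem b)).1 v.2
      have h2 := h.self b w v.1
      rw [hb, hvb] at h2
      rw [← h2]
      have := hv ⟨e b *ᵥ w, (mem_Vb (h.idem b)).2 (by rw [Matrix.mulVec_mulVec, h.idem])⟩
      rw [omb_apply] at this
      exact this)
    ⟨1, subset_zar S hS1, by intro v w; rw [Matrix.one_mulVec, Matrix.one_mulVec],
      by intro v; rw [Matrix.one_mulVec]; rfl, by intro c _ _; rw [one_mul]⟩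
    (by
      rintro a ⟨ya, hya, hia, h2, h3⟩ c ⟨yc, hyc, hic, h4, h5⟩
      refine ⟨ya * yc, zar_mul hS hya hyc, ?_, ?_, ?_⟩
      · intro v w
        rw [← Matrix.mulVec_mulVec, ← Matrix.mulVec_mulVec, hia, hic]
      · intro v
        rw [← Matrix.mulVec_mulVec, h4, h2]; rfl
      · intro k hk hk'
        rw [mul_assoc, h5 k hk hk', h3 k hk hk'])
    (by
      intro a d
      have hd := (mem_Vb (h.idem b)).1 d.2
      have hcd : Core (om J) (fun b => phi (e b)) bar b d.1 d.1 := by
        refine ⟨by rw [phi_apply]; exact hd, by rw [hb, phi_apply]; exact hd, om_alt hJ _,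
          fun _ => ⟨1, (one_smul K d.1).symm⟩⟩
      obtain ⟨y, hy, hi, h2, h3⟩ := one_add_core h hS1 hSD hA hJ hcd a
      refine ⟨y, hy, hi, ?_, h3⟩
      intro v
      rw [h2 v.1 ((mem_Vb (h.idem b)).1 v.2)]
      rw [LinearMap.add_apply, LinearMap.smul_apply, trv_apply, omb_apply, smul_smul]
      rfl)
    (finrank K (Vb e b)) x hx (Nat.le_add_left _ _)
  exact h1

include h hS1 hS hSD hA hJ hdet in
/-- operators of determinant one of a unitary component -/
theorem comp_unit [CharZero K] {b : B} (hb : bar b ≠ b) {n : ℕ} {P : Matrix ι (Fin n) K}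
    {Q : Matrix (Fin n) ι K} (hPQ : e b = P * Q) (hQP : Q * P = 1)
    {M : Matrix (Fin n) (Fin n) K} (hM : M.det = 1) :
    ∃ y ∈ zar S, (∀ v w, om J (y *ᵥ v) (y *ᵥ w) = om J v w) ∧
      y * P = P * M ∧ ∀ c, c ≠ b → c ≠ bar b → y * e c = e c := by
  refine sl_gen (Z := {M | ∃ y ∈ zar S, (∀ v w, om J (y *ᵥ v) (y *ᵥ w) = om J v w) ∧
      y * P = P * M ∧ ∀ c, c ≠ b → c ≠ bar b → y * e c = e c}) ?_ ?_ ?_ hM
  · exact ⟨1, subset_zar S hS1, by intro v w; rw [Matrix.one_mulVec, Matrix.one_mulVec],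
      by rw [Matrix.one_mul, Matrix.mul_one], by intro c _ _; rw [one_mul]⟩
  · rintro a ⟨ya, hya, hia, h2, h3⟩ c ⟨yc, hyc, hic, h4, h5⟩
    refine ⟨ya * yc, zar_mul hS hya hyc, ?_, ?_, ?_⟩
    · intro v w
      rw [← Matrix.mulVec_mulVec, ← Matrix.mulVec_mulVec, hia, hic]
    · rw [Matrix.mul_assoc, h4, ← Matrix.mul_assoc, h2, Matrix.mul_assoc]
    · intro k hk hk'
      rw [mul_assoc, h5 k hk hk', h3 k hk hk']
  · intro i j hij a
    have heP : e b * P = P := by rw [hPQ, Matrix.mul_assoc, hQP, Matrix.mul_one]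
    -- the functional
    have hsurj : ∃ w, ∀ v, (Q *ᵥ v) j = om J v w := by
      refine ⟨J⁻¹ *ᵥ (fun k => Q j k), fun v => ?_⟩
      rw [om_apply, Matrix.mulVec_mulVec, Matrix.mul_nonsing_inv _ hdet, Matrix.one_mulVec,
        dotProduct_comm]
      rfl
    obtain ⟨w₀, hw₀⟩ := hsurj
    set u := P *ᵥ Pi.single i 1 with hu
    set w := e (bar b) *ᵥ w₀ with hw
    have hub : e b *ᵥ u = u := by rw [hu, Matrix.mulVec_mulVec, heP]
    have hwb : e (bar b) *ᵥ w = w := by rw [hw, Matrix.mulVec_mulVec, h.idem]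
    have hvw : ∀ v, e b *ᵥ v = v → om J v w = (Q *ᵥ v) j := by
      intro v hv
      rw [hw, ← h.self, hv, hw₀]
    have huw : om J u w = 0 := by
      rw [hvw u hub, hu, Matrix.mulVec_mulVec, hQP, Matrix.one_mulVec]
      simp [Ne.symm hij]
    have hcore : Core (om J) (fun b => phi (e b)) bar b u w :=
      ⟨by rw [phi_apply]; exact hub, by rw [phi_apply]; exact hwb, huw,
        fun hcon => absurd hcon hb⟩
    obtain ⟨y, hy, hi, h2, h3⟩ := one_add_core h hS1 hSD hA hJ hcore a
    refine ⟨y, hy, hi, ?_, h3⟩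
    have hcol : ∀ k, y *ᵥ (P *ᵥ Pi.single k 1) =
        (P * Matrix.transvection i j a) *ᵥ Pi.single k 1 := by
      intro k
      have hpk : e b *ᵥ (P *ᵥ Pi.single k 1) = P *ᵥ Pi.single k 1 := by
        rw [Matrix.mulVec_mulVec, heP]
      have hq : Q *ᵥ (P *ᵥ Pi.single k 1) = Pi.single k 1 := by
        rw [Matrix.mulVec_mulVec, hQP, Matrix.one_mulVec]
      rw [h2 _ hpk, hvw _ hpk, hq,
        ← Matrix.mulVec_mulVec, Matrix.transvection, Matrix.add_mulVec, Matrix.one_mulVec,
        Matrix.mulVec_add]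
      congr 1
      rw [hu, ← Matrix.mulVec_smul]
      congr 1
      funext l
      by_cases hjk : j = k
      · subst hjk
        by_cases hil : l = i
        · subst hil
          simp
        · simp [Ne.symm hil, hil]
      · by_cases hil : l = i
        · subst hil
          simp [hjk]
        · simp [hjk, Ne.symm hil, hil]
    ext l k
    have := congrFun (hcol k) l
    rw [Matrix.mulVec_mulVec, Matrix.mulVec_single_one, Matrix.mulVec_single_one] at this
    exact this

include h hS1 hS hSD hA hJ hdet in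
/-- one component at a time -/
theorem comp_fac [CharZero K] {Y : Matrix ι ι K}
    (hY : ∀ v w, om J (Y *ᵥ v) (Y *ᵥ w) = om J v w) (hYD : ∀ d ∈ DD, Y * d = d * Y)
    (hYdet : ∀ b, bar b ≠ b → (1 - e b + Y * e b).det = 1) (b : B) :
    ∃ z ∈ zar S, z * e b = Y * e b ∧ z * e (bar b) = Y * e (bar b) ∧
      ∀ c, c ≠ b → c ≠ bar b → z * e c = e c := by
  by_cases hb : bar b = b
  · have hmem : ∀ v : Vb e b, Y *ᵥ v.1 ∈ Vb e b := by
      intro v
      rw [mem_Vb (h.idem b), Matrix.mulVec_mulVec, ← hYD _ (h.mem b), ← Matrix.mulVec_mulVec,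
        (mem_Vb (h.idem b)).1 v.2]
    set x : Module.End K (Vb e b) :=
      { toFun := fun v => ⟨Y *ᵥ v.1, hmem v⟩
        map_add' := by
          intro v w
          apply Subtype.ext
          change Y *ᵥ (v.1 + w.1) = Y *ᵥ v.1 + Y *ᵥ w.1
          rw [Matrix.mulVec_add]
        map_smul' := by
          intro a v
          apply Subtype.ext
          change Y *ᵥ (a • v.1) = a • (Y *ᵥ v.1)
          rw [Matrix.mulVec_smul] } with hx
    obtain ⟨y, hy, _, h2, h3⟩ := comp_self h hS1 hS hSD hA hJ hdet hb x (by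
      intro v w
      rw [omb_apply, omb_apply]
      exact hY v.1 w.1)
    have h4 : y * e b = Y * e b := by
      apply (phi (ι := ι) (K := K)).injective
      apply LinearMap.ext
      intro v
      rw [phi_apply, phi_apply, ← Matrix.mulVec_mulVec, ← Matrix.mulVec_mulVec]
      exact h2 ⟨e b *ᵥ v, (mem_Vb (h.idem b)).2 (by rw [Matrix.mulVec_mulVec, h.idem])⟩
    exact ⟨y, hy, h4, by rw [hb]; exact h4, h3⟩
  · obtain ⟨n, P, Q, hPQ, hQP⟩ : ∃ n, ∃ (P : Matrix ι (Fin n) K) (Q : Matrix (Fin n) ι K),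
        e b = P * Q ∧ Q * P = 1 := ⟨_, idem_factor (h.idem b)⟩
    have hM : (Q * Y * P).det = 1 := by
      rw [← det_on hPQ hQP (hYD _ (h.mem b))]
      exact hYdet b hb
    obtain ⟨y, hy, hi, h2, h3⟩ := comp_unit h hS1 hS hSD hA hJ hdet hb hPQ hQP hM
    have hyD : ∀ d ∈ DD, y * d = d * y := fun d hd =>
      zar_commute (fun s hs => hSD s hs d hd) hy
    have h4 : y * e b = Y * e b := by
      have e1 : P * (Q * Y * P) = Y * P := by
        calc P * (Q * Y * P) = (P * Q) * Y * P := by simp only [Matrix.mul_assoc]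
          _ = e b * Y * P := by rw [hPQ]
          _ = Y * e b * P := by rw [hYD _ (h.mem b)]
          _ = Y * (P * (Q * P)) := by rw [hPQ]; simp only [Matrix.mul_assoc]
          _ = Y * P := by rw [hQP, Matrix.mul_one]
      rw [e1] at h2
      rw [hPQ, ← Matrix.mul_assoc, h2, Matrix.mul_assoc]
    refine ⟨y, hy, h4, ?_, h3⟩
    apply (phi (ι := ι) (K := K)).injective
    apply LinearMap.ext
    intro v₀
    rw [phi_apply, phi_apply, ← Matrix.mulVec_mulVec, ← Matrix.mulVec_mulVec]
    set v := e (bar b) *ᵥ v₀ with hv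
    have hvb : e (bar b) *ᵥ v = v := by rw [hv, Matrix.mulVec_mulVec, h.idem]
    rw [← sub_eq_zero]
    apply om_nd hdet
    intro w
    have hYi : IsUnit Y.det := by
      rw [isUnit_iff_ne_zero]
      intro h0
      obtain ⟨a, ha, ha'⟩ := Matrix.exists_mulVec_eq_zero_iff.2 h0
      apply ha
      apply om_nd hdet
      intro c
      rw [← hY, ha', map_zero]
    set w' := Y⁻¹ *ᵥ (e b *ᵥ w) with hw'
    have e2 : Y *ᵥ w' = e b *ᵥ w := by
      rw [hw', Matrix.mulVec_mulVec, Matrix.mul_nonsing_inv _ hYi, Matrix.one_mulVec]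
    have e3 : e b *ᵥ w' = w' := by
      have e4 : Y *ᵥ (e b *ᵥ w') = Y *ᵥ w' := by
        rw [Matrix.mulVec_mulVec, hYD _ (h.mem b), ← Matrix.mulVec_mulVec, e2,
          Matrix.mulVec_mulVec, h.idem]
      have e5 := congrArg (fun t => Y⁻¹ *ᵥ t) e4
      simp only [Matrix.mulVec_mulVec] at e5
      rw [← Matrix.mul_assoc, Matrix.nonsing_inv_mul _ hYi, Matrix.one_mul,
        Matrix.one_mulVec] at e5
      exact e5
    have e6 : y *ᵥ w' = Y *ᵥ w' := by
      have e8 : (y * e b) *ᵥ w' = (Y * e b) *ᵥ w' := by rw [h4]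
      rw [← Matrix.mulVec_mulVec, ← Matrix.mulVec_mulVec, e3] at e8
      exact e8
    have e9 : ∀ x : Matrix ι ι K, x * e (bar b) = e (bar b) * x →
        x *ᵥ v = e (bar b) *ᵥ (x *ᵥ v) := by
      intro x hx
      have e10 : (x * e (bar b)) *ᵥ v = (e (bar b) * x) *ᵥ v := by rw [hx]
      rw [← Matrix.mulVec_mulVec v x, ← Matrix.mulVec_mulVec v (e (bar b)) x, hvb] at e10
      exact e10
    have e7 : y *ᵥ v - Y *ᵥ v = e (bar b) *ᵥ (y *ᵥ v - Y *ᵥ v) := by
      rw [Matrix.mulVec_sub, ← e9 y (hyD _ (h.mem _)), ← e9 Y (hYD _ (h.mem _))]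
    rw [e7, ← h.self, ← e2, map_sub, hY, ← e6, hi, sub_self]

include h hS1 hS hSD hA hJ hdet in
/-- the closure contains every isometry with trivial determinants at the unitary places -/
theorem iso_mem4 [CharZero K] {Y : Matrix ι ι K}
    (hY : ∀ v w, om J (Y *ᵥ v) (Y *ᵥ w) = om J v w) (hYD : ∀ d ∈ DD, Y * d = d * Y)
    (hYdet : ∀ b, bar b ≠ b → (1 - e b + Y * e b).det = 1) : Y ∈ zar S := by
  have key : ∀ T : Finset B, ∃ z ∈ zar S, ∀ c,
      ((c ∈ T ∨ bar c ∈ T) → z * e c = Y * e c) ∧
      (¬ (c ∈ T ∨ bar c ∈ T) → z * e c = e c) := by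
    intro T
    induction T using Finset.induction_on with
    | empty =>
      refine ⟨1, subset_zar S hS1, fun c => ⟨fun hc => ?_, fun _ => one_mul _⟩⟩
      rcases hc with hc | hc <;> exact absurd hc (Finset.notMem_empty _)
    | insert b T hbT ih =>
      obtain ⟨z, hz, hzc⟩ := ih
      have hzD : ∀ d ∈ DD, z * d = d * z := fun d hd =>
        zar_commute (fun s hs => hSD s hs d hd) hz
      by_cases hbb : bar b ∈ T
      · refine ⟨z, hz, fun c => ⟨fun hc => ?_, fun hc => ?_⟩⟩
        · apply (hzc c).1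
          rcases hc with hc | hc
          · rcases Finset.mem_insert.1 hc with rfl | hc
            · exact Or.inr hbb
            · exact Or.inl hc
          · rcases Finset.mem_insert.1 hc with hc | hc
            · left
              rw [← hc, h.barbar] at hbb
              exact hbb
            · exact Or.inr hc
        · apply (hzc c).2
          rintro (hc' | hc')
          · exact hc (Or.inl (Finset.mem_insert_of_mem hc'))
          · exact hc (Or.inr (Finset.mem_insert_of_mem hc'))
      · obtain ⟨z', hz', h1, h2, h3⟩ := comp_fac h hS1 hS hSD hA hJ hdet hY hYD hYdet b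
        have hz'D : ∀ d ∈ DD, z' * d = d * z' := fun d hd =>
          zar_commute (fun s hs => hSD s hs d hd) hz'
        have hprod : ∀ c, z * e c = e c → z * z' * e c = z' * e c := by
          intro c hc
          rw [mul_assoc, hz'D _ (h.mem c), ← mul_assoc, hc]
        have hb1 : z * e b = e b := (hzc b).2 (by
          rintro (hc | hc)
          · exact hbT hc
          · exact hbb hc)
        have hb2 : z * e (bar b) = e (bar b) := (hzc (bar b)).2 (by
          rintro (hc | hc)
          · exact hbb hc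
          · rw [h.barbar] at hc
            exact hbT hc)
        refine ⟨z * z', zar_mul hS hz hz', fun c => ⟨fun hc => ?_, fun hc => ?_⟩⟩
        · by_cases hcb : c = b
          · subst hcb
            rw [hprod _ hb1, h1]
          by_cases hcb' : c = bar b
          · subst hcb'
            rw [hprod _ hb2, h2]
          rw [mul_assoc, h3 c hcb hcb']
          apply (hzc c).1
          rcases hc with hc | hc
          · rcases Finset.mem_insert.1 hc with hc | hc
            · exact absurd hc hcb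
            · exact Or.inl hc
          · rcases Finset.mem_insert.1 hc with hc | hc
            · exact absurd (by rw [← hc, h.barbar]) hcb'
            · exact Or.inr hc
        · have hcb : c ≠ b := by
            rintro rfl
            exact hc (Or.inl (Finset.mem_insert_self _ _))
          have hcb' : c ≠ bar b := by
            rintro rfl
            rw [h.barbar] at hc
            exact hc (Or.inr (Finset.mem_insert_self _ _))
          rw [mul_assoc, h3 c hcb hcb']
          apply (hzc c).2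
          rintro (hc' | hc')
          · exact hc (Or.inl (Finset.mem_insert_of_mem hc'))
          · exact hc (Or.inr (Finset.mem_insert_of_mem hc'))
  obtain ⟨z, hz, hzc⟩ := key Finset.univ
  have : z = Y := by
    apply h.ext_comm (fun d hd => zar_commute (fun s hs => hSD s hs d hd) hz) hYD
    intro b
    exact (hzc b).1 (Or.inl (Finset.mem_univ b))
  rw [← this]
  exact hz

end

end Pool.Agent.H76U
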