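import Pool.Agent.Lib.H76U.Span

/-!
# Independence of components
-/

set_option autoImplicit false
set_option linter.unusedSectionVars false
namespace Pool.Agent.H76U
open Module Pool.Agent.H53Toric

variable {K : Type*} [Field K] {V : Type*} [AddCommGroup V] [Module K V]
variable {B : Type*} [Fintype B] [DecidableEq B] {Γ : Type*} [Group Γ]
variable {ω : V →ₗ[K] V →ₗ[K] K} {e : B → Module.End K V} {bar : B → B}
    {g : Submodule K (Module.End K V)} {r : Γ →* Module.End K V} {𝓗 : Set (Module.End K V)}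

namespace Big

variable (h : Big ω e bar g r 𝓗)
include h

/-- the ideal of the elements vanishing on a component -/
def kill (_h : Big ω e bar g r 𝓗) (b : B) : Submodule K (Module.End K V) where
  carrier := {A | A ∈ g ∧ A * e b = 0}
  add_mem' := fun {_ _} ha hb => ⟨g.add_mem ha.1 hb.1, by rw [add_mul, ha.2, hb.2, add_zero]⟩
  zero_mem' := ⟨g.zero_mem, zero_mul _⟩
  smul_mem' := fun c _ ha => ⟨g.smul_mem c ha.1, by rw [smul_mul_assoc, ha.2, smul_zero]⟩

theorem mem_kill {b : B} {A : Module.End K V} : A ∈ h.kill b ↔ A ∈ g ∧ A * e b = 0 := Iff.rfl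

theorem kill_le (b : B) : h.kill b ≤ g := fun _ hA => hA.1

theorem kill_ideal (b : B) : ∀ X ∈ g, ∀ Z ∈ h.kill b, X * Z - Z * X ∈ h.kill b := by
  intro X hX Z hZ
  refine ⟨h.lie X hX Z hZ.1, ?_⟩
  rw [h.mul_e' hX hZ.1, hZ.2, mul_zero, zero_mul, sub_zero]

theorem sq_scalar {M : Module.End K V} (hM : M ∈ g) (hM2 : M * M = 0) {b : B} {a : K}
    (ha : M * e b = a • e b) : M * e b = 0 := by
  have h1 : (a • e b) * (a • e b) = 0 := by
    rw [← ha, ← h.mul_e hM hM, hM2, zero_mul]
  rw [smul_mul_smul_comm, h.idem] at h1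
  rcases smul_eq_zero.1 h1 with h2 | h2
  · rw [ha, (mul_self_eq_zero.1 h2), zero_smul]
  · rw [ha, h2, smul_zero]

/-- simultaneous conjugates -/
theorem seed_conj' {M : Module.End K V} (hM : M ∈ g) (x : Γ) :
    ∃ M' ∈ g, ∀ b u w, M * e b = tw ω u w → M' * e b = tw ω (r x u) (r x w) := by
  obtain ⟨c, hc, hsim, h2⟩ := h.conj_tw x
  refine ⟨c • (r x * M * r x⁻¹), g.smul_mem _ (h.conj x M hM), ?_⟩
  intro b u w hMb
  have h3 : r x * M * r x⁻¹ * e b = r x * (M * e b) * r x⁻¹ := by
    rw [mul_assoc, mul_assoc, ← h.rcomm, mul_assoc, mul_assoc]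
  rw [smul_mul_assoc, h3, hMb, h2, smul_smul, mul_inv_cancel₀ hc, one_smul]

/-- the relations imply the twist situation -/
theorem no_relation [CharZero K] [FiniteDimensional K V] {b c : B} (hbc : b ≠ c)
    (hbc' : b ≠ bar c) {M : Module.End K V} (hM : M ∈ g) (hM2 : M * M = 0) {u w u' w' : V}
    (hu : e b u = u) (hw : e (bar b) w = w) (hu' : e c u' = u') (hw' : e (bar c) w' = w')
    (hu0 : u ≠ 0) (hw0 : w ≠ 0) (hu'0 : u' ≠ 0) (hw'0 : w' ≠ 0)
    (hMb : M * e b = tw ω u w) (hMc : M * e c = tw ω u' w')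
    (hrel : ∀ X ∈ g, ω (X u') w' = ω (X u) w) : False := by
  have huw := h.isotropic hM hM2 hu0 hw0 hMb
  have hu'w' := h.isotropic hM hM2 hu'0 hw'0 hMc
  have hru : ∀ x, e b (r x u) = r x u := fun x => h.fixr x hu
  have hru' : ∀ x, e c (r x u') = r x u' := fun x => h.fixr x hu'
  -- relation two
  have hE2 : ∀ x, ω (r x u) w * ω u (r x w) = ω (r x u') w' * ω u' (r x w') := by
    intro x
    obtain ⟨X, hX, hXe⟩ := h.seed_conj' hM x
    have h1 := hrel X hX
    rw [h.app_e (hXe b u w hMb) hu, h.app_e (hXe c u' w' hMc) hu'] at h1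
    simp only [map_smul, LinearMap.smul_apply, smul_eq_mul] at h1
    linear_combination -h1
  -- relation three
  have hE3 : ∀ y z, ω (r y u) w * ω (r z u) (r y w) * ω u (r z w) -
      ω (r z u) w * ω (r y u) (r z w) * ω u (r y w) =
      ω (r y u') w' * ω (r z u') (r y w') * ω u' (r z w') -
      ω (r z u') w' * ω (r y u') (r z w') * ω u' (r y w') := by
    intro y z
    obtain ⟨Y, hY, hYe⟩ := h.seed_conj' hM y
    obtain ⟨Z, hZ, hZe⟩ := h.seed_conj' hM z
    have h1 := hrel _ (h.lie Y hY Z hZ)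
    have e1 : ∀ v, (Y * Z - Z * Y) v = Y (Z v) - Z (Y v) := fun _ => rfl
    rw [e1, e1, h.app_e (hYe b u w hMb) hu, h.app_e (hYe c u' w' hMc) hu',
      h.app_e (hZe b u w hMb) hu, h.app_e (hZe c u' w' hMc) hu', map_smul, map_smul, map_smul,
      map_smul, h.app_e (hYe b u w hMb) (hru z), h.app_e (hYe c u' w' hMc) (hru' z),
      h.app_e (hZe b u w hMb) (hru y), h.app_e (hZe c u' w' hMc) (hru' y)] at h1
    simp only [map_sub, map_smul, LinearMap.sub_apply, LinearMap.smul_apply, smul_eq_mul] at h1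
    linear_combination -h1
  have hE4 : ∀ y z, ω (r z u) (r y w) * ω (r y u) (r z w) =
      ω (r z u') (r y w') * ω (r y u') (r z w') := by
    intro y z
    obtain ⟨c₀, hc₀, hs, -, -⟩ := h.move y
    have h1 := hE2 (y⁻¹ * z)
    have e1 : ∀ v, r z v = r y (r (y⁻¹ * z) v) := by
      intro v
      rw [← h.rmul]; simp
    rw [e1 u, e1 w, e1 u', e1 w', hs, hs, hs, hs]
    linear_combination c₀ * c₀ * h1
  have hE5 : ∀ y z, (ω (r y u) w * ω (r z u) (r y w) * ω u (r z w) -
      ω (r y u') w' * ω (r z u') (r y w') * ω u' (r z w')) *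
      (ω (r y u) w * ω (r z u) (r y w) * ω u (r z w) +
      ω (r z u') w' * ω (r y u') (r z w') * ω u' (r y w')) = 0 := by
    intro y z
    have h1 := hE3 y z
    have h2 := hE4 y z
    have h3 := hE2 y
    have h4 := hE2 z
    have hprod : ω (r y u) w * ω (r z u) (r y w) * ω u (r z w) *
        (ω (r z u) w * ω (r y u) (r z w) * ω u (r y w)) =
        ω (r y u') w' * ω (r z u') (r y w') * ω u' (r z w') *
        (ω (r z u') w' * ω (r y u') (r z w') * ω u' (r y w')) := by
      calc _ = (ω (r y u) w * ω u (r y w)) * (ω (r z u) w * ω u (r z w)) *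
            (ω (r z u) (r y w) * ω (r y u) (r z w)) := by ring
        _ = (ω (r y u') w' * ω u' (r y w')) * (ω (r z u') w' * ω u' (r z w')) *
            (ω (r z u') (r y w') * ω (r y u') (r z w')) := by rw [h2, h3, h4]
        _ = _ := by ring
    linear_combination (ω (r y u) w * ω (r z u) (r y w) * ω u (r z w)) * h1 + hprod
  -- membership
  have hm1 : ∀ z, (fun y => ω (r y u) w * ω (r z u) (r y w) * ω u (r z w)) ∈ coef ω r := by
    intro z
    refine mul_mem (mul_mem (h.cf u w) (h.cf' _ w)) ?_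
    exact (coef ω r).algebraMap_mem (ω u (r z w))
  have hm1' : ∀ z, (fun y => ω (r y u') w' * ω (r z u') (r y w') * ω u' (r z w')) ∈
      coef ω r := by
    intro z
    refine mul_mem (mul_mem (h.cf u' w') (h.cf' _ w')) ?_
    exact (coef ω r).algebraMap_mem (ω u' (r z w'))
  have hm2 : ∀ y, (fun z => ω (r y u) w * ω (r z u) (r y w) * ω u (r z w)) ∈ coef ω r := by
    intro y
    refine mul_mem (mul_mem ?_ (h.cf u _)) (h.cf' u w)
    exact (coef ω r).algebraMap_mem (ω (r y u) w)
  have hm2' : ∀ y, (fun z => ω (r y u') w' * ω (r z u') (r y w') * ω u' (r z w')) ∈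
      coef ω r := by
    intro y
    refine mul_mem (mul_mem ?_ (h.cf u' _)) (h.cf' u' w')
    exact (coef ω r).algebraMap_mem (ω (r y u') w')
  have hdich : ∀ z, (∀ y, ω (r y u) w * ω (r z u) (r y w) * ω u (r z w) =
      ω (r y u') w' * ω (r z u') (r y w') * ω u' (r z w')) ∨
      (∀ y, ω (r y u) w * ω (r z u) (r y w) * ω u (r z w) =
      -(ω (r z u') w' * ω (r y u') (r z w') * ω u' (r y w'))) := by
    intro z
    rcases h.prime _ (sub_mem (hm1 z) (hm1' z)) _ (add_mem (hm1 z) (hm2' z))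
      (fun y => hE5 y z) with h1 | h1
    · left
      intro y
      exact sub_eq_zero.1 (h1 y)
    · right
      intro y
      exact eq_neg_of_add_eq_zero_left (h1 y)
  by_cases hall : ∀ y z, ω (r y u) w * ω (r z u) (r y w) * ω u (r z w) =
      ω (r y u') w' * ω (r z u') (r y w') * ω u' (r z w')
  · -- first type
    refine h.twist hbc hu hw hu' hw' hu0 hw0 hu'0 hw'0 huw hu'w'
      (h.mult_of hE2 ?_ (h.ex' hu hw hu0 hw0))
      (fun k hk => h.hodge_ne hM hM2 hu hw hu0 hw0 hMb hk)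
    intro x y
    obtain ⟨c₀, hc₀, hs, -, -⟩ := h.move x
    have h1 := hall x (x * y)
    rw [h.rmul x y u, h.rmul x y u', hs, hs] at h1
    have h2 : c₀ * (ω (r x u) w * ω (r y u) w * ω u (r (x * y) w) -
        ω (r x u') w' * ω (r y u') w' * ω u' (r (x * y) w')) = 0 := by
      linear_combination h1
    exact sub_eq_zero.1 ((mul_eq_zero.1 h2).resolve_left hc₀)
  · -- second type
    push Not at hall
    obtain ⟨y₁, z₁, hyz⟩ := hall
    have hall2 : ∀ y z, ω (r y u) w * ω (r z u) (r y w) * ω u (r z w) =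
        -(ω (r z u') w' * ω (r y u') (r z w') * ω u' (r y w')) := by
      intro y z
      by_contra hne
      obtain ⟨z₂, hz1, hz2⟩ := h.prime2 (sub_mem (hm2 y₁) (hm2' y₁))
        (add_mem (hm2 y) (hm1' y)) ⟨z₁, sub_ne_zero.2 hyz⟩
        ⟨z, fun h0 => hne (eq_neg_of_add_eq_zero_left h0)⟩
      rcases hdich z₂ with h1 | h1
      · exact hz1 (sub_eq_zero.2 (h1 y₁))
      · apply hz2
        change ω (r y u) w * ω (r z₂ u) (r y w) * ω u (r z₂ w) +
          ω (r z₂ u') w' * ω (r y u') (r z₂ w') * ω u' (r y w') = 0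
        rw [h1 y]; ring
    refine h.twist hbc' hu hw hw' (by rw [h.barbar]; exact hu') hu0 hw0 hw'0 hu'0 huw
      (by rw [h.anti, hu'w', neg_zero])
      (h.mult_of ?_ ?_ (h.ex' hu hw hu0 hw0))
      (fun k hk => h.hodge_ne hM hM2 hu hw hu0 hw0 hMb hk)
    · intro x
      rw [hE2, h.anti (r x w') u', h.anti w' (r x u')]
      ring
    · intro x y
      obtain ⟨c₀, hc₀, hs, -, -⟩ := h.move x
      have h1 := hall2 x (x * y)
      rw [h.rmul x y u, h.rmul x y w', hs, hs] at h1
      rw [h.anti (r x w') u', h.anti (r y w') u', h.anti w' (r (x * y) u')]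
      have h2 : c₀ * (ω (r x u) w * ω (r y u) w * ω u (r (x * y) w) -
          -ω u' (r x w') * -ω u' (r y w') * -ω (r (x * y) u') w') = 0 := by
        linear_combination h1
      exact sub_eq_zero.1 ((mul_eq_zero.1 h2).resolve_left hc₀)

end Big

end Pool.Agent.H76U
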