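import Pool.Agent.Lib.H76U.Indep

/-!
# Independence of components, conclusion
-/

set_option autoImplicit false
set_option linter.unusedSectionVars false
namespace Pool.Agent.H76U
open Module Pool.Agent.H53Toric

variable {K : Type*} [Field K] {V : Type*} [AddCommGroup V] [Module K V]
variable {B : Type*} [Fintype B] [DecidableEq B] {Γ : Type*} [Group Γ]
variable {ω : V →ₗ[K] V →ₗ[K] K} {e : B → Module.End K V} {bar : B → B}
    {g : Submodule K (Module.End K V)} {r : Γ →* Module.End K V} {𝓗 : Set (Module.End K V)}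

/-- An element of square zero inducing an operator of rank one on the component `b`. -/
def Seed (ω : V →ₗ[K] V →ₗ[K] K) (e : B → Module.End K V) (bar : B → B)
    (g : Submodule K (Module.End K V)) (b : B) : Prop :=
  ∃ M ∈ g, M * M = 0 ∧ ∃ u w, e b u = u ∧ e (bar b) w = w ∧ u ≠ 0 ∧ w ≠ 0 ∧ M * e b = tw ω u w

namespace Big

variable (h : Big ω e bar g r 𝓗)
include h

theorem mul_e0 {A C : Module.End K V} (hC : C ∈ g) (b : B) :
    A * C * e b = (A * e b) * (C * e b) := by
  have h1 : A * e b * (C * e b) = A * (e b * C) * e b := by simp only [mul_assoc]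
  rw [h1, h.gcomm b C hC, ← mul_assoc A C (e b), mul_assoc (A * C), h.idem]

/-- `M X M` -/
theorem mid_mem [CharZero K] {M X : Module.End K V} (hM : M ∈ g) (hM2 : M * M = 0)
    (hX : X ∈ g) : M * X * M ∈ g := by
  have h1 := h.dbl hM hX
  have h2 : M * (M * X - X * M) - (M * X - X * M) * M =
      (M * M) * X - (2 : K) • (M * X * M) + X * (M * M) := by
    rw [two_smul]; noncomm_ring
  rw [h2, hM2, zero_mul, mul_zero, add_zero, zero_sub, ← neg_smul] at h1
  have h3 := g.smul_mem (-2 : K)⁻¹ h1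
  rwa [smul_smul, inv_mul_cancel₀ (by norm_num), one_smul] at h3

/-- `M X M` for an operator of rank one on the component -/
theorem mid_core {M X : Module.End K V} (hM : M ∈ g) {c : B} {a β : V}
    (hβ : e (bar c) β = β) (hX : X * e c = tw ω a β) :
    M * X * M * e c = -tw ω (M a) (M β) := by
  ext v
  change M (X (M (e c v))) = -tw ω (M a) (M β) v
  have h1 : M (e c v) = e c (M (e c v)) := by
    rw [h.ecomm hM, h.idem']
  have h2 : X (e c (M (e c v))) = ω (M (e c v)) β • a :=
    congrArg (fun f : Module.End K V => f (M (e c v))) hX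
  rw [← h1] at h2
  rw [h2, map_smul, h.skew M hM, tw_apply, neg_smul]
  have h3 : ω (e c v) (M β) = ω v (M β) := by
    rw [h.self, h.fixA hM hβ]
  rw [h3]

/-- existence of a suitable core pair, or rank one directly -/
theorem rank_one_or {M : Module.End K V} (hM : M ∈ g) {c : B} (hMc : M * e c ≠ 0) :
    (∃ a β, Core ω e bar c a β ∧ M a ≠ 0 ∧ M β ≠ 0) ∨
    (∃ u w, e c u = u ∧ e (bar c) w = w ∧ u ≠ 0 ∧ w ≠ 0 ∧ M * e c = tw ω u w) := by
  obtain ⟨v, hv⟩ : ∃ v, M (e c v) ≠ 0 := by
    by_contra hcon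
    push Not at hcon
    apply hMc
    ext v
    exact hcon v
  set a := e c v with ha
  have hac : e c a = a := h.idem' c v
  by_cases hc : bar c = c
  · exact Or.inl ⟨a, a, h.core_self hc hac, hv, hv⟩
  by_cases hex : ∃ β, e (bar c) β = β ∧ ω a β = 0 ∧ M β ≠ 0
  · obtain ⟨β, hβ, haβ, hMβ⟩ := hex
    exact Or.inl ⟨a, β, h.core_isot hc hac hβ haβ, hv, hMβ⟩
  · right
    push Not at hex
    have ha0 : a ≠ 0 := by
      intro h0
      exact hv (by rw [h0, map_zero])
    obtain ⟨β₀, hβ₀, hne⟩ : ∃ β, e (bar c) β = β ∧ ω a β ≠ 0 := by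
      by_contra hcon
      push Not at hcon
      exact ha0 (h.nd' hac hcon)
    have h1 : ∀ β, e (bar c) β = β → M β = (ω a β * (ω a β₀)⁻¹) • M β₀ := by
      intro β hβ
      have h2 := hex (β - (ω a β * (ω a β₀)⁻¹) • β₀) (by rw [map_sub, map_smul, hβ, hβ₀]) (by
        rw [map_sub, map_smul, smul_eq_mul, mul_assoc, inv_mul_cancel₀ hne, mul_one, sub_self])
      rw [map_sub, map_smul, sub_eq_zero] at h2
      exact h2
    have h3 : M * e c = tw ω ((-(ω a β₀)⁻¹) • a) (M β₀) := by
      ext y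
      change M (e c y) = tw ω ((-(ω a β₀)⁻¹) • a) (M β₀) y
      rw [← sub_eq_zero]
      apply h.nd' (b := c)
      · rw [map_sub, tw_apply, map_smul, map_smul, hac, h.fixA hM (h.idem' c y)]
      · intro β hβ
        have h4 : ω (e c y) (M β₀) = ω y (M β₀) := by rw [h.self, h.fixA hM hβ₀]
        rw [map_sub, LinearMap.sub_apply, h.skew M hM, h1 β hβ, tw_apply]
        simp only [map_smul, LinearMap.smul_apply, smul_eq_mul, h4]
        ring
    refine ⟨(-(ω a β₀)⁻¹) • a, M β₀, by rw [map_smul, hac], h.fixA hM hβ₀,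
      smul_ne_zero (neg_ne_zero.2 (inv_ne_zero hne)) ha0, ?_, h3⟩
    intro h0
    rw [h0, tw_zero_right] at h3
    exact hMc h3

/-- **Independence of two components.** -/
theorem indep [CharZero K] [FiniteDimensional K V] {b c : B} (hbc : b ≠ c)
    (hbc' : b ≠ bar c) (hseed : Seed ω e bar g b) (hfc : Fu ω e bar g c) :
    ∃ A ∈ g, A * e c = 0 ∧ ∀ a : K, A * e b ≠ a • e b := by
  obtain ⟨M, hM, hM2, u, w, hu, hw, hu0, hw0, hMb⟩ := hseed
  by_contra hcon
  push Not at hcon
  have hMb0 : M * e b ≠ 0 := by rw [hMb]; exact h.tw_ne hu0 hw0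
  have hMns : ∀ a : K, M * e b ≠ a • e b := fun a ha => hMb0 (h.sq_scalar hM hM2 ha)
  -- second half
  have hH2 : ∀ A ∈ g, A * e b = 0 → ∃ a : K, A * e c = a • e c := by
    intro A hA hAb
    by_contra hns
    push Not at hns
    have h1 : Fu ω e bar (h.kill b) c :=
      h.ideal_full (h.kill_le b) (h.kill_ideal b) hfc ⟨hA, hAb⟩ hns
    obtain ⟨Z, hZ, hZc⟩ := h.sq_span h1 hM hM2
    obtain ⟨a, ha⟩ := hcon (M - Z) (g.sub_mem hM hZ.1) (by rw [sub_mul, hZc, sub_self])
    rw [sub_mul, hZ.2, sub_zero] at ha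
    exact hMns a ha
  have hMc0 : M * e c ≠ 0 := by
    intro h0
    obtain ⟨a, ha⟩ := hcon M hM h0
    exact hMns a ha
  have hC1 : ∀ X ∈ g, M * X * M * e c = ω (X u) w • (M * e c) := by
    intro X hX
    have hmid := h.mid_mem hM hM2 hX
    have h1 : M * X * M * e b = ω (X u) w • (M * e b) := by
      rw [h.mul_e0 hM, h.mul_e0 hX, hMb]
      have h2 := tw_mid ω u w (X * e b)
      have h3 : (X * e b) u = X u := by
        change X (e b u) = X u
        rw [hu]
      rw [h3] at h2
      exact h2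
    obtain ⟨a, ha⟩ := hH2 (M * X * M - ω (X u) w • M) (g.sub_mem hmid (g.smul_mem _ hM)) (by
      rw [sub_mul, smul_mul_assoc, h1, sub_self])
    have h2 : M * ((M * X * M - ω (X u) w • M) * e c) = 0 := by
      have : M * ((M * X * M - ω (X u) w • M) * e c) =
          (M * M) * (X * M * e c) - ω (X u) w • ((M * M) * e c) := by
        rw [sub_mul, mul_sub, smul_mul_assoc, mul_smul_comm]
        simp only [mul_assoc]
      rw [this, hM2, zero_mul, zero_mul, smul_zero, sub_zero]
    rw [ha, mul_smul_comm] at h2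
    have h3 := (smul_eq_zero.1 h2).resolve_right hMc0
    rw [h3, zero_smul, sub_mul, smul_mul_assoc, sub_eq_zero] at ha
    exact ha
  -- rank one
  obtain ⟨u', w', hu', hw', hu'0, hw'0, hMc⟩ : ∃ u w, e c u = u ∧ e (bar c) w = w ∧ u ≠ 0 ∧
      w ≠ 0 ∧ M * e c = tw ω u w := by
    rcases h.rank_one_or hM hMc0 with ⟨a, β, hcore, ha0, hβ0⟩ | h1
    · obtain ⟨X, hX, hXc⟩ := hfc a β hcore
      have h1 := hC1 X hX
      rw [h.mid_core hM hcore.2.1 hXc] at h1
      have hne : ω (X u) w ≠ 0 := by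
        intro h0
        rw [h0, zero_smul, neg_eq_zero] at h1
        exact h.tw_ne ha0 hβ0 h1
      refine ⟨(-(ω (X u) w)⁻¹) • M a, M β, ?_, h.fixA hM hcore.2.1,
        smul_ne_zero (neg_ne_zero.2 (inv_ne_zero hne)) ha0, hβ0, ?_⟩
      · rw [map_smul, h.fixA hM hcore.1]
      · rw [tw_smul_left, neg_smul, ← smul_neg, h1, smul_smul, inv_mul_cancel₀ hne, one_smul]
    · exact h1
  refine h.no_relation hbc hbc' hM hM2 hu hw hu' hw' hu0 hw0 hu'0 hw'0 hMb hMc ?_
  intro X hX
  have h1 := hC1 X hX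
  have hmid := h.mid_mem hM hM2 hX
  have h2 : M * X * M * e c = ω (X u') w' • (M * e c) := by
    rw [h.mul_e0 hM, h.mul_e0 hX, hMc]
    have h2 := tw_mid ω u' w' (X * e c)
    have h3 : (X * e c) u' = X u' := by
      change X (e c u') = X u'
      rw [hu']
    rw [h3] at h2
    exact h2
  rw [h2] at h1
  have h3 : (ω (X u') w' - ω (X u) w) • (M * e c) = 0 := by
    rw [sub_smul, h1, sub_self]
  exact sub_eq_zero.1 ((smul_eq_zero.1 h3).resolve_right hMc0)

end Big

end Pool.Agent.H76U
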