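import Pool.Agent.Lib.H76U.Falt4
import Pool.Agent.Lib.H76U.Det4

/-!
# Components of symplectic type with an element of odd rank
-/

set_option autoImplicit false
set_option linter.unusedSectionVars false
namespace Pool.Agent.H76U
open Module Matrix Pool.Agent.H53Toric
open Pool.Agent.H76RM (zar_commute zlie_commute)

variable {ι : Type*} [Fintype ι] [DecidableEq ι] {K : Type*} [Field K]

/-- elements of the Lie algebra with scalars that are infinitesimal similitudes -/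
noncomputable def preL (J : Matrix ι ι K) (S : Set (Matrix ι ι K)) :
    Submodule K (Matrix ι ι K) where
  carrier := {A | (∃ c : K, ∃ C ∈ zlie S, A = C + c • 1) ∧ ∃ c : K, Aᵀ * J + J * A = c • J}
  add_mem' := by
    rintro A A' ⟨⟨c, C, hC, rfl⟩, d, hd⟩ ⟨⟨c', C', hC', rfl⟩, d', hd'⟩
    refine ⟨⟨c + c', C + C', (zlie S).add_mem hC hC', by rw [add_smul]; abel⟩, d + d', ?_⟩
    rw [add_smul, ← hd, ← hd', Matrix.transpose_add (C + c • 1), add_mul, mul_add]
    abel
  zero_mem' := ⟨⟨0, 0, (zlie S).zero_mem, by simp⟩, 0, by simp⟩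
  smul_mem' := by
    rintro a A ⟨⟨c, C, hC, rfl⟩, d, hd⟩
    refine ⟨⟨a * c, a • C, (zlie S).smul_mem _ hC, by rw [smul_add, smul_smul]⟩, a * d, ?_⟩
    rw [Matrix.transpose_smul, smul_mul_assoc, mul_smul_comm, ← smul_add, hd, smul_smul]

theorem preL_bracket {J : Matrix ι ι K} {S : Set (Matrix ι ι K)} {A A' : Matrix ι ι K}
    (hA : A ∈ preL J S) (hA' : A' ∈ preL J S) :
    A * A' - A' * A ∈ zlie S ∧ (A * A' - A' * A)ᵀ * J + J * (A * A' - A' * A) = 0 := by
  obtain ⟨⟨c, C, hC, hAC⟩, d, hd⟩ := hA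
  obtain ⟨⟨c', C', hC', hAC'⟩, d', hd'⟩ := hA'
  constructor
  · have e : A * A' - A' * A = C * C' - C' * C := by
      rw [hAC, hAC']
      simp only [mul_add, add_mul, smul_mul_assoc, mul_smul_comm, mul_one, one_mul]
      module
    rw [e]
    exact zlie_comm hC hC'
  · have h1 : Aᵀ * J = d • J - J * A := eq_sub_of_add_eq hd
    have h2 : A'ᵀ * J = d' • J - J * A' := eq_sub_of_add_eq hd'
    rw [Matrix.transpose_sub, Matrix.transpose_mul, Matrix.transpose_mul]
    calc (A'ᵀ * Aᵀ - Aᵀ * A'ᵀ) * J + J * (A * A' - A' * A) =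
        A'ᵀ * (Aᵀ * J) - Aᵀ * (A'ᵀ * J) + J * (A * A' - A' * A) := by noncomm_ring
      _ = A'ᵀ * (d • J - J * A) - Aᵀ * (d' • J - J * A') + J * (A * A' - A' * A) := by
          rw [h1, h2]
      _ = d • (A'ᵀ * J) - (A'ᵀ * J) * A - d' • (Aᵀ * J) + (Aᵀ * J) * A' +
          J * (A * A' - A' * A) := by
          rw [mul_sub, mul_sub, mul_smul_comm, mul_smul_comm]
          noncomm_ring
      _ = 0 := by
          rw [h1, h2]
          simp only [sub_mul, smul_sub, smul_mul_assoc, smul_smul, mul_sub, mul_assoc]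
          rw [mul_comm d d']
          abel

theorem preL_commute [CharZero K] {J : Matrix ι ι K} {S : Set (Matrix ι ι K)}
    (hS1 : (1 : Matrix ι ι K) ∈ S) {p : Matrix ι ι K} (hSp : ∀ s ∈ S, s * p = p * s)
    {A : Matrix ι ι K} (hA : A ∈ preL J S) : A * p = p * A := by
  obtain ⟨⟨c, C, hC, rfl⟩, -⟩ := hA
  have := zlie_commute hS1 hSp hC
  rw [add_mul, mul_add, this, smul_mul_assoc, mul_smul_comm, one_mul, mul_one]

/-- compression -/
noncomputable def cmp {n : ℕ} (P : Matrix ι (Fin n) K) (Q : Matrix (Fin n) ι K) :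
    Matrix ι ι K →ₗ[K] Matrix (Fin n) (Fin n) K where
  toFun A := Q * A * P
  map_add' := by
    intro A C
    rw [Matrix.mul_add, Matrix.add_mul]
  map_smul' := by
    intro c A
    rw [Matrix.mul_smul, Matrix.smul_mul]
    rfl

theorem cmp_apply {n : ℕ} (P : Matrix ι (Fin n) K) (Q : Matrix (Fin n) ι K)
    (A : Matrix ι ι K) : cmp P Q A = Q * A * P := rfl

section
variable {n : ℕ} {P : Matrix ι (Fin n) K} {Q : Matrix (Fin n) ι K} {p : Matrix ι ι K}
  (hPQ : p = P * Q) (hQP : Q * P = 1)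
include hPQ hQP

theorem p_P : p * P = P := by rw [hPQ, Matrix.mul_assoc, hQP, Matrix.mul_one]

theorem Q_p : Q * p = Q := by rw [hPQ, ← Matrix.mul_assoc, hQP, Matrix.one_mul]

theorem cmp_mul {A C : Matrix ι ι K} (hC : C * p = p * C) :
    cmp P Q (A * C) = cmp P Q A * cmp P Q C := by
  rw [cmp_apply, cmp_apply, cmp_apply]
  calc Q * (A * C) * P = Q * A * (C * P) := by simp only [Matrix.mul_assoc]
    _ = Q * A * (C * (p * P)) := by rw [p_P hPQ hQP]
    _ = Q * A * (C * p) * P := by simp only [Matrix.mul_assoc]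
    _ = Q * A * (p * C) * P := by rw [hC]
    _ = Q * A * (P * Q * C) * P := by rw [hPQ]
    _ = Q * A * P * (Q * C * P) := by simp only [Matrix.mul_assoc]

theorem cmp_one : cmp P Q 1 = 1 := by
  rw [cmp_apply, Matrix.mul_one, hQP]

theorem P_cmp {A : Matrix ι ι K} (hA : A * p = p * A) : P * cmp P Q A = A * P := by
  rw [cmp_apply]
  calc P * (Q * A * P) = (P * Q) * A * P := by simp only [Matrix.mul_assoc]
    _ = A * p * P := by rw [← hPQ, ← hA]
    _ = A * P := by rw [Matrix.mul_assoc, p_P hPQ hQP]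

theorem cmp_Q {A : Matrix ι ι K} (hA : A * p = p * A) : cmp P Q A * Q = Q * A := by
  rw [cmp_apply]
  calc Q * A * P * Q = Q * (A * (P * Q)) := by simp only [Matrix.mul_assoc]
    _ = Q * p * A := by rw [← hPQ, hA, Matrix.mul_assoc]
    _ = Q * A := by rw [Q_p hPQ hQP]

/-- rank of the compression -/
theorem rank_cmp {A : Matrix ι ι K} (hA : A * p = p * A) : (cmp P Q A).rank = (A * p).rank := by
  apply le_antisymm
  · have h1 : cmp P Q A = Q * ((A * p) * P) := by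
      rw [cmp_apply, Matrix.mul_assoc A p, p_P hPQ hQP, Matrix.mul_assoc]
    rw [h1]
    exact (Matrix.rank_mul_le_right _ _).trans (Matrix.rank_mul_le_left _ _)
  · have h1 : A * p = (P * cmp P Q A) * Q := by
      rw [P_cmp hPQ hQP hA, Matrix.mul_assoc, ← hPQ]
    rw [h1]
    exact (Matrix.rank_mul_le_left _ _).trans (Matrix.rank_mul_le_right _ _)

variable {J : Matrix ι ι K} (hpJ : pᵀ * J = J * p)
include hpJ

omit [DecidableEq ι] in
theorem cmp_form : Qᵀ * (Pᵀ * J * P) = J * P := by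
  have h1 : Qᵀ * Pᵀ = pᵀ := by rw [hPQ, Matrix.transpose_mul]
  calc Qᵀ * (Pᵀ * J * P) = (Qᵀ * Pᵀ) * J * P := by simp only [Matrix.mul_assoc]
    _ = J * (p * P) := by rw [h1, hpJ, Matrix.mul_assoc]
    _ = J * P := by rw [hPQ, Matrix.mul_assoc, hQP, Matrix.mul_one]

theorem cmp_sim {A : Matrix ι ι K} (hA : A * p = p * A) :
    (cmp P Q A)ᵀ * (Pᵀ * J * P) + (Pᵀ * J * P) * cmp P Q A = Pᵀ * (Aᵀ * J + J * A) * P := by
  rw [Matrix.mul_add, Matrix.add_mul]
  congr 1
  · rw [cmp_apply, Matrix.transpose_mul, Matrix.transpose_mul]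
    calc Pᵀ * (Aᵀ * Qᵀ) * (Pᵀ * J * P) = Pᵀ * Aᵀ * (Qᵀ * (Pᵀ * J * P)) := by
          simp only [Matrix.mul_assoc]
      _ = Pᵀ * Aᵀ * (J * P) := by rw [cmp_form hPQ hQP hpJ]
      _ = _ := by simp only [Matrix.mul_assoc]
  · calc (Pᵀ * J * P) * cmp P Q A = Pᵀ * J * (P * cmp P Q A) := by
          simp only [Matrix.mul_assoc]
      _ = Pᵀ * J * (A * P) := by rw [P_cmp hPQ hQP hA]
      _ = _ := by simp only [Matrix.mul_assoc]

theorem om_cmp (v w : Fin n → K) : om (Pᵀ * J * P) v w = om J (P *ᵥ v) (P *ᵥ w) := by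
  rw [om_apply, om_apply, Matrix.mulVec_mulVec, ← Matrix.mulVec_mulVec w (Pᵀ * J) P,
    ← Matrix.mulVec_mulVec _ Pᵀ J, Matrix.dotProduct_mulVec v, Matrix.vecMul_transpose,
    Matrix.mulVec_mulVec]

theorem det_cmp (hdet : IsUnit J.det) : IsUnit (Pᵀ * J * P).det := by
  rw [isUnit_iff_ne_zero]
  intro h0
  obtain ⟨v, hv, hv'⟩ := Matrix.exists_mulVec_eq_zero_iff.2 h0
  apply hv
  have h1 : P *ᵥ v = 0 := by
    apply om_nd hdet
    intro w
    have h5 : ∀ u, om J (p *ᵥ w) u = om J w (p *ᵥ u) := by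
      intro u
      rw [om_apply, om_apply, Matrix.mulVec_mulVec _ J p, ← hpJ, ← Matrix.mulVec_mulVec _ pᵀ J,
        Matrix.dotProduct_mulVec w, Matrix.vecMul_transpose]
    have h2 : om J w (P *ᵥ v) = om J (P *ᵥ (Q *ᵥ w)) (P *ᵥ v) := by
      rw [Matrix.mulVec_mulVec _ P Q, ← hPQ, h5, Matrix.mulVec_mulVec _ p P, p_P hPQ hQP]
    rw [h2, ← om_cmp hPQ hQP hpJ, om_apply, hv', dotProduct_zero]
  have h4 : v = Q *ᵥ (P *ᵥ v) := by rw [Matrix.mulVec_mulVec, hQP, Matrix.one_mulVec]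
  rw [h4, h1, Matrix.mulVec_zero]

end

end Pool.Agent.H76U
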