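import Pool.Agent.Lib.H76U.Odd5
import Pool.Agent.Lib.H76U.Seeds

/-!
# Seeds of symplectic components from elements of odd rank
-/

set_option autoImplicit false
set_option linter.unusedSectionVars false
namespace Pool.Agent.H76U
open Module Pool.Agent.H53Toric

variable {K : Type*} [Field K] {V : Type*} [AddCommGroup V] [Module K V]
variable {B : Type*} [Fintype B] [DecidableEq B] {Γ : Type*} [Group Γ]
variable {ω : V →ₗ[K] V →ₗ[K] K} {e : B → Module.End K V} {bar : B → B}
    {g : Submodule K (Module.End K V)} {r : Γ →* Module.End K V} {𝓗 : Set (Module.End K V)}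

theorem Big.seed_fu (h : Big ω e bar g r 𝓗) [CharZero K] {b : B} (hb : bar b = b)
    {N : Module.End K V} (hN : N ∈ g) (hN2 : N * N = 0) (h0 : N * e b ≠ 0)
    (hfull : ∀ u, e b u = u → ∃ A ∈ g, A * e b = tw ω u u) :
    Seed ω e bar g b ∧ Fu ω e bar g b := by
  constructor
  · obtain ⟨v, hv⟩ : ∃ v, N (e b v) ≠ 0 := by
      by_contra hcon
      push Not at hcon
      apply h0
      ext v
      exact hcon v
    obtain ⟨A, hA, hAb⟩ := hfull (e b v) (h.idem' b v)
    have hbb : e (bar b) (e b v) = e b v := by rw [hb]; exact h.idem' b v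
    have h1 := h.mid_core hN hbb hAb
    refine ⟨N * A * N, h.mid_mem hN hN2 hA, ?_, (-1 : K) • N (e b v), N (e b v), ?_, ?_, ?_,
      hv, ?_⟩
    · calc N * A * N * (N * A * N) = N * A * (N * N) * A * N := by noncomm_ring
        _ = 0 := by rw [hN2, mul_zero, zero_mul, zero_mul]
    · rw [map_smul, h.fixA hN (h.idem' b v)]
    · rw [hb]
      exact h.fixA hN (h.idem' b v)
    · exact smul_ne_zero (by norm_num) hv
    · rw [h1, tw_smul_left, neg_smul, one_smul]
  · intro u w hc
    obtain ⟨a, ha⟩ := hc.2.2.2 hb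
    obtain ⟨A, hA, hAb⟩ := hfull u hc.1
    refine ⟨a • A, g.smul_mem _ hA, ?_⟩
    rw [smul_mul_assoc, ha, tw_smul_right, hAb]

end Pool.Agent.H76U
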