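import Pool.Agent.Lib.H76U.Base

/-!
# Elements of rank one of a component
-/

set_option autoImplicit false
set_option linter.unusedSectionVars false
namespace Pool.Agent.H76U
open Module Pool.Agent.H53Toric

variable {K : Type*} [Field K] {V : Type*} [AddCommGroup V] [Module K V]
variable {B : Type*} [Fintype B] [DecidableEq B] {Γ : Type*} [Group Γ]
variable {ω : V →ₗ[K] V →ₗ[K] K} {e : B → Module.End K V} {bar : B → B}
    {g : Submodule K (Module.End K V)} {r : Γ →* Module.End K V} {𝓗 : Set (Module.End K V)}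

/-- `u ∈ V_b`, `w ∈ V_(bar b)`, `ω(u, w) = 0`, and some element of `g` induces `tw u w` on `V_b` -/
def PP (ω : V →ₗ[K] V →ₗ[K] K) (e : B → Module.End K V) (bar : B → B)
    (g : Submodule K (Module.End K V)) (b : B) (u w : V) : Prop :=
  e b u = u ∧ e (bar b) w = w ∧ ω u w = 0 ∧ ∃ A ∈ g, A * e b = tw ω u w

theorem tw_zero_left (ω : V →ₗ[K] V →ₗ[K] K) (w : V) : tw ω 0 w = 0 := by
  ext v; rw [tw_apply, smul_zero]; rfl

theorem tw_zero_right (ω : V →ₗ[K] V →ₗ[K] K) (u : V) : tw ω u 0 = 0 := by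
  ext v; rw [tw_apply, map_zero, zero_smul]; rfl

theorem tw_add_left (ω : V →ₗ[K] V →ₗ[K] K) (u u' w : V) :
    tw ω (u + u') w = tw ω u w + tw ω u' w := by
  ext v; rw [tw_apply, smul_add]; rfl

theorem tw_add_right (ω : V →ₗ[K] V →ₗ[K] K) (u w w' : V) :
    tw ω u (w + w') = tw ω u w + tw ω u w' := by
  ext v; rw [tw_apply, map_add, add_smul]; rfl

theorem tw_smul_left (ω : V →ₗ[K] V →ₗ[K] K) (a : K) (u w : V) :
    tw ω (a • u) w = a • tw ω u w := by
  ext v
  change ω v w • a • u = a • ω v w • u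
  rw [smul_comm]

theorem tw_smul_right (ω : V →ₗ[K] V →ₗ[K] K) (a : K) (u w : V) :
    tw ω u (a • w) = a • tw ω u w := by
  ext v
  change ω v (a • w) • u = a • ω v w • u
  rw [map_smul, smul_smul, smul_eq_mul]

theorem tw_mul (ω : V →ₗ[K] V →ₗ[K] K) (u w u' w' : V) :
    tw ω u w * tw ω u' w' = ω u' w • tw ω u w' := by
  ext v
  change tw ω u w (tw ω u' w' v) = ω u' w • tw ω u w' v
  rw [tw_apply, tw_apply, tw_apply, map_smul, LinearMap.smul_apply, smul_eq_mul, smul_smul,
    mul_comm]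

/-- a product with an operator in the middle -/
theorem tw_mid (ω : V →ₗ[K] V →ₗ[K] K) (u w : V) (X : Module.End K V) :
    tw ω u w * X * tw ω u w = ω (X u) w • tw ω u w := by
  ext v
  change tw ω u w (X (tw ω u w v)) = ω (X u) w • tw ω u w v
  rw [tw_apply, tw_apply, map_smul, map_smul, LinearMap.smul_apply, smul_eq_mul, smul_smul,
    mul_comm]

theorem tw_sq {ω : V →ₗ[K] V →ₗ[K] K} {u w : V} (huw : ω u w = 0) :
    tw ω u w * tw ω u w = 0 := by
  rw [tw_mul, huw, zero_smul]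

namespace Big

variable (h : Big ω e bar g r 𝓗)
include h

theorem tw_e {b : B} {u w : V} (hw : e (bar b) w = w) : tw ω u w * e b = tw ω u w := by
  ext v
  change tw ω u w (e b v) = _
  rw [tw_apply, tw_apply, h.self, hw]

theorem e_tw {b : B} {u w : V} (hu : e b u = u) : e b * tw ω u w = tw ω u w := by
  ext v
  change e b (tw ω u w v) = _
  rw [tw_apply, map_smul, hu]

theorem tw_ne {u w : V} (hu : u ≠ 0) (hw : w ≠ 0) : tw ω u w ≠ 0 := by
  intro h0
  apply hw
  apply h.nd2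
  intro v
  have h1 : tw ω u w v = 0 := by rw [h0]; rfl
  rw [tw_apply] at h1
  exact (smul_eq_zero.1 h1).resolve_right hu

/-- products with the projector -/
theorem mul_e {A C : Module.End K V} (_hA : A ∈ g) (hC : C ∈ g) (b : B) :
    A * C * e b = (A * e b) * (C * e b) := by
  have h1 : A * e b * (C * e b) = A * (e b * C) * e b := by simp only [mul_assoc]
  rw [h1, h.gcomm b C hC, ← mul_assoc A C (e b), mul_assoc (A * C), h.idem]

theorem mul_e' {A C : Module.End K V} (hA : A ∈ g) (hC : C ∈ g) (b : B) :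
    (A * C - C * A) * e b = (A * e b) * (C * e b) - (C * e b) * (A * e b) := by
  rw [sub_mul, h.mul_e hA hC, h.mul_e hC hA]

theorem dbl_e {A C : Module.End K V} (hA : A ∈ g) (hC : C ∈ g) (b : B)
    (h2 : (A * e b) * (A * e b) = 0) :
    (A * (A * C - C * A) - (A * C - C * A) * A) * e b =
      (-2 : K) • ((A * e b) * (C * e b) * (A * e b)) := by
  rw [h.mul_e' hA (h.lie A hA C hC), h.mul_e' hA hC]
  have e1 : A * e b * (A * e b * (C * e b) - C * e b * (A * e b)) -
      (A * e b * (C * e b) - C * e b * (A * e b)) * (A * e b) =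
      (A * e b) * (A * e b) * (C * e b) - (2 : K) • ((A * e b) * (C * e b) * (A * e b)) +
      (C * e b) * ((A * e b) * (A * e b)) := by
    simp only [mul_sub, sub_mul, mul_assoc, two_smul]
    abel
  rw [e1, h2, zero_mul, mul_zero, add_zero, zero_sub, neg_smul]

/-- the partner of `A * e b` on the dual component -/
theorem skew_bar {A : Module.End K V} (hA : A ∈ g) {b : B} {u w : V} (hu : e b u = u)
    (hAb : A * e b = tw ω u w) : A * e (bar b) = tw ω w u := by
  ext v
  change A (e (bar b) v) = tw ω w u v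
  rw [← sub_eq_zero]
  apply h.nd
  intro y
  rw [map_sub, LinearMap.sub_apply, h.skew A hA, h.self', h.ecomm hA]
  have h1 : A (e b y) = tw ω u w y := by
    rw [← hAb]; rfl
  rw [h1, tw_apply, tw_apply, map_smul, map_smul, LinearMap.smul_apply, smul_eq_mul, smul_eq_mul,
    h.anti w y]
  ring

/-- action of `A` on vectors of the component -/
theorem app_e {A : Module.End K V} {b : B} {u w v : V} (hAb : A * e b = tw ω u w)
    (hv : e b v = v) : A v = ω v w • u := by
  rw [← tw_apply, ← hAb]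
  change A v = A (e b v)
  rw [hv]

theorem PP_bar {b : B} {u w : V} (hp : PP ω e bar g b u w) : PP ω e bar g (bar b) w u := by
  obtain ⟨hu, hw, huw, A, hA, hAb⟩ := hp
  refine ⟨hw, by rw [h.barbar]; exact hu, by rw [h.anti, huw, neg_zero], A, hA,
    h.skew_bar hA hu hAb⟩

theorem PP_smul_left {b : B} {u w : V} (hp : PP ω e bar g b u w) (a : K) :
    PP ω e bar g b (a • u) w := by
  obtain ⟨hu, hw, huw, A, hA, hAb⟩ := hp
  refine ⟨by rw [map_smul, hu], hw, by rw [map_smul, LinearMap.smul_apply, huw, smul_zero],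
    a • A, g.smul_mem _ hA, ?_⟩
  rw [smul_mul_assoc, hAb, tw_smul_left]

theorem PP_smul_right {b : B} {u w : V} (hp : PP ω e bar g b u w) (a : K) :
    PP ω e bar g b u (a • w) := by
  obtain ⟨hu, hw, huw, A, hA, hAb⟩ := hp
  refine ⟨hu, by rw [map_smul, hw], by rw [map_smul, huw, smul_zero],
    a • A, g.smul_mem _ hA, ?_⟩
  rw [smul_mul_assoc, hAb, tw_smul_right]

theorem PP_add_right {b : B} {u w w' : V} (hp : PP ω e bar g b u w)
    (hp' : PP ω e bar g b u w') : PP ω e bar g b u (w + w') := by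
  obtain ⟨hu, hw, huw, A, hA, hAb⟩ := hp
  obtain ⟨-, hw', huw', A', hA', hAb'⟩ := hp'
  refine ⟨hu, by rw [map_add, hw, hw'], by rw [map_add, huw, huw', add_zero],
    A + A', g.add_mem hA hA', ?_⟩
  rw [add_mul, hAb, hAb', tw_add_right]

theorem PP_zero_left {b : B} {w : V} (hw : e (bar b) w = w) : PP ω e bar g b 0 w :=
  ⟨map_zero _, hw, by rw [map_zero]; rfl, 0, g.zero_mem, by rw [zero_mul, tw_zero_left]⟩

theorem PP_zero_right {b : B} {u : V} (hu : e b u = u) : PP ω e bar g b u 0 :=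
  ⟨hu, map_zero _, map_zero _, 0, g.zero_mem, by rw [zero_mul, tw_zero_right]⟩

/-- conjugates of `tw` -/
theorem conj_tw (x : Γ) : ∃ c : K, c ≠ 0 ∧ (∀ v w, ω (r x v) (r x w) = c * ω v w) ∧
    ∀ u w, r x * tw ω u w * r x⁻¹ = c⁻¹ • tw ω (r x u) (r x w) := by
  obtain ⟨c, hc, hsim⟩ := h.sim x
  refine ⟨c, hc, hsim, fun u w => ?_⟩
  ext v
  change r x (tw ω u w (r x⁻¹ v)) = c⁻¹ • tw ω (r x u) (r x w) v
  rw [tw_apply, tw_apply, map_smul, smul_smul]
  congr 1
  have h1 := hsim (r x⁻¹ v) w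
  rw [h.rr] at h1
  rw [h1]
  field_simp

theorem PP_r {b : B} {u w : V} (hp : PP ω e bar g b u w) (x : Γ) :
    PP ω e bar g b (r x u) (r x w) := by
  obtain ⟨hu, hw, huw, A, hA, hAb⟩ := hp
  obtain ⟨c, hc, hsim, h2⟩ := h.conj_tw x
  refine ⟨h.fixr x hu, h.fixr x hw, by rw [hsim, huw, mul_zero],
    c • (r x * A * r x⁻¹), g.smul_mem _ (h.conj x A hA), ?_⟩
  have h3 : r x * A * r x⁻¹ * e b = r x * (A * e b) * r x⁻¹ := by
    rw [mul_assoc, mul_assoc, ← h.rcomm, mul_assoc, mul_assoc]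
  rw [smul_mul_assoc, h3, hAb, h2, smul_smul, mul_inv_cancel₀ hc, one_smul]

/-- transfer -/
theorem PP_transfer {b : B} {u w u' w' : V} (hp : PP ω e bar g b u w)
    (hp' : PP ω e bar g b u' w') (h1 : ω u' w = 0) (h2 : ω u w' ≠ 0) :
    PP ω e bar g b u' w := by
  obtain ⟨hu, hw, huw, A, hA, hAb⟩ := hp
  obtain ⟨hu', hw', huw', A', hA', hAb'⟩ := hp'
  refine ⟨hu', hw, h1, (ω u w')⁻¹ • (A' * A - A * A'), g.smul_mem _ (h.lie A' hA' A hA), ?_⟩
  rw [smul_mul_assoc, h.mul_e' hA' hA, hAb, hAb', tw_mul, tw_mul, h1, zero_smul, sub_zero,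
    smul_smul, inv_mul_cancel₀ h2, one_smul]

/-- exponential conjugation -/
theorem PP_exp [CharZero K] {b : B} {u w u' w' : V} (hp : PP ω e bar g b u w)
    (hp' : PP ω e bar g b u' w') (s : K) :
    PP ω e bar g b (u' + (s * ω u' w) • u) (w' - (s * ω u w') • w) := by
  obtain ⟨hu, hw, huw, A, hA, hAb⟩ := hp
  obtain ⟨hu', hw', huw', A', hA', hAb'⟩ := hp'
  refine ⟨by rw [map_add, map_smul, hu, hu'], by rw [map_sub, map_smul, hw, hw'], ?_,
    A' + s • (A * A' - A' * A) + (s * s / 2) • (A * (A * A' - A' * A) - (A * A' - A' * A) * A),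
    ?_, ?_⟩
  · simp only [map_add, map_sub, map_smul, LinearMap.add_apply, LinearMap.smul_apply,
      smul_eq_mul, huw, huw']
    ring
  · exact g.add_mem (g.add_mem hA' (g.smul_mem _ (h.lie A hA A' hA')))
      (g.smul_mem _ (h.dbl hA hA'))
  · rw [add_mul, add_mul, smul_mul_assoc, smul_mul_assoc, h.mul_e' hA hA',
      h.dbl_e hA hA' b (by rw [hAb, tw_sq huw]), hAb, hAb', smul_smul, tw_mid, tw_mul, tw_mul]
    ext v
    simp only [LinearMap.add_apply, LinearMap.sub_apply, LinearMap.smul_apply, tw_apply,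
      map_sub, map_smul, smul_eq_mul]
    module

end Big

end Pool.Agent.H76U
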