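import Pool.Agent.Lib.H76RM.Final
import Pool.Agent.Lib.H76U.Conj
import Pool.Agent.Lib.H76U.Desc

/-!
# The group attached to the Hodge types is defined over `ℚ`
-/

set_option autoImplicit false
set_option linter.unusedSectionVars false
namespace Pool.Agent.H76U
open Module Matrix Pool.Agent.H53Toric MvPolynomial
open Pool.Agent.H76RM (spanK similD comm_span)

theorem prod_zpow₀ {K : Type*} [Field K] {B : Type*} {y : K} (hy : y ≠ 0) (f : B → ℤ)
    (T : Finset B) : ∏ b ∈ T, y ^ f b = y ^ (∑ b ∈ T, f b) := by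
  classical
  induction T using Finset.induction_on with
  | empty => simp
  | insert b T hb ih => rw [Finset.prod_insert hb, Finset.sum_insert hb, ih, zpow_add₀ hy]

theorem prod_reindex {K : Type*} [Field K] {B : Type*} [Fintype B] [DecidableEq B]
    {y : B → K} (hy : ∀ b, y b ≠ 0) (a : B → ℤ) (π : B → B) :
    ∏ b, y (π b) ^ a b = ∏ c, y c ^ (∑ b, if π b = c then a b else 0) := by
  simp only [← prod_zpow₀ (hy _)]
  rw [Finset.prod_comm]
  apply Finset.prod_congr rfl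
  intro b _
  rw [Finset.prod_eq_single (π b)]
  · rw [if_pos rfl]
  · intro c _ hc
    rw [if_neg (Ne.symm hc), zpow_zero]
  · intro hb
    exact absurd (Finset.mem_univ _) hb

/-- an equation between monomials with integer exponents as a polynomial equation -/
theorem char_iff {K : Type*} [Field K] {B : Type*} [Fintype B] {δ : B → K}
    (hδ : ∀ b, δ b ≠ 0) {c : K} (hc : c ≠ 0) (a : B → ℤ) (a₀ : ℤ) :
    (∏ b, δ b ^ a b) * c ^ a₀ = 1 ↔
      (∏ b, δ b ^ (a b).toNat) * c ^ a₀.toNat -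
        (∏ b, δ b ^ (-a b).toNat) * c ^ (-a₀).toNat = 0 := by
  have h1 : (∏ b, δ b ^ a b) * ∏ b, δ b ^ (-a b).toNat = ∏ b, δ b ^ (a b).toNat := by
    rw [← Finset.prod_mul_distrib]
    apply Finset.prod_congr rfl
    intro b _
    rw [← zpow_natCast (δ b) (-a b).toNat, ← zpow_natCast (δ b) (a b).toNat,
      ← zpow_add₀ (hδ b)]
    congr 1
    have := Int.toNat_sub_toNat_neg (a b)
    linarith
  have h2 : c ^ a₀ * c ^ (-a₀).toNat = c ^ a₀.toNat := by
    rw [← zpow_natCast c (-a₀).toNat, ← zpow_natCast c a₀.toNat, ← zpow_add₀ hc]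
    congr 1
    have := Int.toNat_sub_toNat_neg a₀
    linarith
  have h3 : ((∏ b, δ b ^ a b) * c ^ a₀) * ((∏ b, δ b ^ (-a b).toNat) * c ^ (-a₀).toNat) =
      (∏ b, δ b ^ (a b).toNat) * c ^ a₀.toNat := by
    calc _ = ((∏ b, δ b ^ a b) * ∏ b, δ b ^ (-a b).toNat) * (c ^ a₀ * c ^ (-a₀).toNat) := by
          ring
      _ = _ := by rw [h1, h2]
  have hne : (∏ b, δ b ^ (-a b).toNat) * c ^ (-a₀).toNat ≠ 0 :=
    mul_ne_zero (Finset.prod_ne_zero_iff.2 fun b _ => pow_ne_zero _ (hδ b)) (pow_ne_zero _ hc)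
  rw [sub_eq_zero, ← h3]
  constructor
  · intro h
    rw [h, one_mul]
  · intro h
    exact mul_right_cancel₀ hne (by rw [h, one_mul])

variable {ι : Type*} [Fintype ι] [DecidableEq ι]

theorem detb_ne {K : Type*} [Field K] {p x : Matrix ι ι K} (hp : p * p = p) (hx : x.det ≠ 0)
    (hxp : x * p = p * x) : detb p x ≠ 0 := by
  intro h0
  have hxx : x * x⁻¹ = 1 := Matrix.mul_nonsing_inv _ (isUnit_iff_ne_zero.2 hx)
  have hy'y : x⁻¹ * x = 1 := mul_eq_one_comm.1 hxx
  have h1 : x⁻¹ * p = p * x⁻¹ := by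
    calc x⁻¹ * p = x⁻¹ * p * (x * x⁻¹) := by rw [hxx, mul_one]
      _ = x⁻¹ * (p * x) * x⁻¹ := by noncomm_ring
      _ = x⁻¹ * (x * p) * x⁻¹ := by rw [hxp]
      _ = (x⁻¹ * x) * p * x⁻¹ := by noncomm_ring
      _ = p * x⁻¹ := by rw [hy'y, one_mul]
  have := detb_inv hp h1 hxx
  rw [h0, zero_mul] at this
  exact zero_ne_one this

variable {M : Type*} [Field M] {K : Type*} [Field K]

theorem eval2_pdet (i : M →+* K) (p : Matrix ι ι M) (x : Matrix ι ι K) :
    eval₂ i (fun q : ι × ι => x q.1 q.2) (pdet p) = detb (p.map i) x := by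
  change eval₂Hom i (fun q : ι × ι => x q.1 q.2) (pdet p) = _
  rw [pdet, detb, RingHom.map_det]
  congr 1
  ext j k
  change eval₂ i (fun q : ι × ι => x q.1 q.2) (C ((1 - p) j k) + ∑ l, X (j, l) * C (p l k)) = _
  rw [eval₂_add, eval₂_C, eval₂_sum, Matrix.add_apply, Matrix.mul_apply]
  congr 1
  · rw [Matrix.sub_apply, Matrix.sub_apply, map_sub, Matrix.map_apply]
    congr 1
    rw [Matrix.one_apply, Matrix.one_apply]
    split_ifs
    · exact map_one i
    · exact map_zero i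
  · apply Finset.sum_congr rfl
    intro l _
    rw [eval₂_mul, eval₂_X, eval₂_C, Matrix.map_apply]

theorem eval2_pmul (i : M →+* K) (J : Matrix ι ι M) (x : Matrix ι ι K) (k l : ι) :
    eval₂ i (fun q : ι × ι => x q.1 q.2) (pmul J k l) = (xᵀ * J.map i * x) k l := by
  rw [pmul, eval₂_sum, Matrix.mul_apply]
  apply Finset.sum_congr rfl
  intro j _
  rw [eval₂_mul, eval₂_sum, eval₂_X, Matrix.mul_apply]
  congr 1
  apply Finset.sum_congr rfl
  intro j' _
  rw [eval₂_mul, eval₂_X, eval₂_C, Matrix.transpose_apply, Matrix.map_apply]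

/-- the polynomial attached to a character -/
noncomputable def pchar {m : ℕ} (e : Fin m → Matrix ι ι M) (J : Matrix ι ι M) (k l : ι)
    (a : Fin m → ℤ) (a₀ : ℤ) : MvPolynomial (ι × ι) M :=
  (∏ b, pdet (e b) ^ (a b).toNat) * (pmul J k l * C (J k l)⁻¹) ^ a₀.toNat -
    (∏ b, pdet (e b) ^ (-a b).toNat) * (pmul J k l * C (J k l)⁻¹) ^ (-a₀).toNat

theorem eval2_pchar (i : M →+* K) {m : ℕ} (e : Fin m → Matrix ι ι M) (J : Matrix ι ι M)
    {k l : ι} (hkl : J k l ≠ 0) (a : Fin m → ℤ) (a₀ : ℤ) {x : Matrix ι ι K} {c : K}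
    (hc : xᵀ * J.map i * x = c • J.map i) :
    eval₂ i (fun q : ι × ι => x q.1 q.2) (pchar e J k l a a₀) =
      (∏ b, detb ((e b).map i) x ^ (a b).toNat) * c ^ a₀.toNat -
        (∏ b, detb ((e b).map i) x ^ (-a b).toNat) * c ^ (-a₀).toNat := by
  have h1 : eval₂ i (fun q : ι × ι => x q.1 q.2) (pmul J k l * C (J k l)⁻¹) = c := by
    rw [eval₂_mul, eval2_pmul, eval₂_C, hc, Matrix.smul_apply, smul_eq_mul, Matrix.map_apply,
      map_inv₀, mul_assoc, mul_inv_cancel₀ (by rwa [Ne, map_eq_zero]), mul_one]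
  rw [pchar, eval₂_sub, eval₂_mul, eval₂_mul, eval₂_pow, eval₂_pow, h1, eval₂_prod, eval₂_prod]
  simp only [eval₂_pow, eval2_pdet]

/-- The group attached to a Galois stable set of types is defined over `ℚ`. -/
theorem rational_form [Nonempty ι] {ψ : Matrix ι ι ℚ} (hψ0 : ψ.det ≠ 0)
    (D : Subalgebra ℚ (Matrix ι ι ℚ)) {M : Type*} [Field M] [NumberField M] [IsGalois ℚ M]
    {m : ℕ} {bar : Fin m → Fin m} {e : Fin m → Matrix ι ι M} (hspl : IsSplitting D ψ bar e)
    {sig : Set (Fin m → ℕ)}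
    (galois : ∀ τ : M ≃ₐ[ℚ] M, ∀ n ∈ sig, ∃ n' ∈ sig, ∀ b c,
      (∃ d ∈ spanK M D, (e b).map τ * d * e c ≠ 0) → n' b = n c) :
    ∃ P : Set (MvPolynomial (ι × ι) ℚ), ∀ (K : Type) [Field K] [CharZero K] (i : M →+* K),
      typeGrp K ψ D (fun b => (e b).map i) sig =
        {x : Matrix ι ι K | x.det ≠ 0 ∧ ∀ f ∈ P, aeval (fun q : ι × ι => x q.1 q.2) f = 0} := by
  classical
  obtain ⟨k, l, hkl⟩ : ∃ k l, ψ k l ≠ 0 := by
    by_contra hcon
    push Not at hcon
    have : ψ = 0 := by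
      ext i j
      exact hcon i j
    rw [this, Matrix.det_zero] at hψ0
    exact hψ0 rfl
  set JM : Matrix ι ι M := ψ.map (algebraMap ℚ M) with hJM
  have hklM : JM k l ≠ 0 := by
    rw [hJM, Matrix.map_apply]
    exact (map_ne_zero _).2 hkl
  choose Pd hPd using fun p : (Fin m → ℤ) × ℤ => descent (pchar e JM k l p.1 p.2)
  refine ⟨{f | ∃ d ∈ D, ∃ i j, f = ∑ t, X (i, t) * C (d t j) - ∑ t, C (d i t) * X (t, j)} ∪
    {f | ∃ i j, f = pmul ψ i j * C (ψ k l) - pmul ψ k l * C (ψ i j)} ∪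
    {f | ∃ a : Fin m → ℤ, ∃ a₀ : ℤ, (∀ n ∈ sig, ∑ b, a b * (n b : ℤ) + a₀ = 0) ∧
      f ∈ Pd (a, a₀)}, ?_⟩
  intro K _ _ i
  have hJi : ∀ i' : M →+* K, JM.map i' = ψ.map (algebraMap ℚ K) := fun i' => map_rat i' ψ
  set J : Matrix ι ι K := ψ.map (algebraMap ℚ K) with hJ
  have hklJ : J k l ≠ 0 := by
    rw [hJ, Matrix.map_apply]
    exact (map_ne_zero _).2 hkl
  have hdet : J.det ≠ 0 := by
    have h1 : J.det = algebraMap ℚ K ψ.det := (RingHom.map_det (algebraMap ℚ K) ψ).symm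
    rw [h1]
    exact (map_ne_zero _).2 hψ0
  have hsplK := hspl.map i
  have ev1 : ∀ (x : Matrix ι ι K) (d : Matrix ι ι ℚ) (a b : ι),
      aeval (fun q : ι × ι => x q.1 q.2)
        (∑ t, X (a, t) * C (d t b) - ∑ t, C (d a t) * X (t, b) : MvPolynomial (ι × ι) ℚ) =
      (x * d.map (algebraMap ℚ K) - d.map (algebraMap ℚ K) * x) a b := by
    intro x d a b
    rw [map_sub, map_sum, map_sum, Matrix.sub_apply, Matrix.mul_apply, Matrix.mul_apply]
    congr 1
    · apply Finset.sum_congr rfl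
      intro t _
      rw [map_mul, aeval_X, aeval_C, Matrix.map_apply]
    · apply Finset.sum_congr rfl
      intro t _
      rw [map_mul, aeval_X, aeval_C, Matrix.map_apply]
  have ev2 : ∀ (x : Matrix ι ι K) (a b : ι),
      aeval (fun q : ι × ι => x q.1 q.2)
        (pmul ψ a b * C (ψ k l) - pmul ψ k l * C (ψ a b) : MvPolynomial (ι × ι) ℚ) =
      (xᵀ * J * x) a b * J k l - (xᵀ * J * x) k l * J a b := by
    intro x a b
    rw [MvPolynomial.aeval_def, eval₂_sub, eval₂_mul, eval₂_mul, eval2_pmul, eval2_pmul,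
      eval₂_C, eval₂_C]
    rfl
  have hchar : ∀ x : Matrix ι ι K, x.det ≠ 0 → (∀ d ∈ spanK K D, x * d = d * x) →
      ∀ c : K, c ≠ 0 → xᵀ * J * x = c • J → ∀ (a : Fin m → ℤ) (a₀ : ℤ), ∀ i' : M →+* K,
      (eval₂ i' (fun q : ι × ι => x q.1 q.2) (pchar e JM k l a a₀) = 0 ↔
        (∏ b, detb ((e b).map i') x ^ a b) * c ^ a₀ = 1) := by
    intro x hx hxD c hc0 hc a a₀ i'
    rw [eval2_pchar i' e JM hklM a a₀ (by rw [hJi]; exact hc)]
    symm
    apply char_iff _ hc0
    intro b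
    exact detb_ne ((hspl.map i').idem b) hx (hxD _ ((hspl.map i').mem b))
  have hmult0 : ∀ x : Matrix ι ι K, x.det ≠ 0 → ∀ c : K, xᵀ * J * x = c • J → c ≠ 0 := by
    rintro x hx c hc rfl
    rw [zero_smul] at hc
    have h3 := congrArg Matrix.det hc
    rw [Matrix.det_mul, Matrix.det_mul, Matrix.det_transpose, Matrix.det_zero] at h3
    exact (mul_ne_zero (mul_ne_zero hx hdet) hx) h3
  ext x
  constructor
  · rintro ⟨⟨hx, hxD, c, hc⟩, hxc⟩
    refine ⟨hx, ?_⟩
    have hc' : xᵀ * J * x = c • J := hc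
    have hc0 := hmult0 x hx c hc'
    have hxD' := H76RM.comm_span hxD
    rintro f ((⟨d, hd, a, b, rfl⟩ | ⟨a, b, rfl⟩) | ⟨a, a₀, ha, hf⟩)
    · rw [ev1, hxD d hd, sub_self]; rfl
    · rw [ev2, hc', Matrix.smul_apply, Matrix.smul_apply, smul_eq_mul, smul_eq_mul]
      ring
    · revert f
      change ∀ f ∈ Pd (a, a₀), _
      rw [hPd (a, a₀) K i (fun q : ι × ι => x q.1 q.2)]
      intro τ
      rw [hchar x hx hxD' c hc0 hc' a a₀]
      have hsplτ := hspl.map (i.comp (τ : M →+* M))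
      choose π hπ1 hπ2 using fun b => IsSplitting.conj hsplK hsplτ b
      have hπ3 : ∀ b, ∃ d ∈ spanK M D, (e b).map τ * d * e (π b) ≠ 0 := by
        intro b
        by_contra hcon
        push Not at hcon
        obtain ⟨d, hd, hne⟩ := hπ1 b
        apply hne
        refine Submodule.span_induction (p := fun d _ =>
          (e b).map (i.comp (τ : M →+* M)) * d * (e (π b)).map i = 0) ?_ ?_ ?_ ?_ hd
        · rintro _ ⟨d, hd, rfl⟩
          have h1 := hcon (d.map (algebraMap ℚ M)) (Submodule.subset_span ⟨d, hd, rfl⟩)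
          have h2 := congrArg (fun y : Matrix ι ι M => y.map i) h1
          simp only [map_mul', map_rat] at h2
          rw [Matrix.map_zero i (map_zero i)] at h2
          exact h2
        · rw [mul_zero, zero_mul]
        · intro y z _ _ hy hz
          rw [mul_add, add_mul, hy, hz, add_zero]
        · intro c y _ hy
          rw [mul_smul_comm, smul_mul_assoc, hy, smul_zero]
      have h1 : ∏ b, detb ((e b).map (i.comp (τ : M →+* M))) x ^ a b =
          ∏ b, detb ((e (π b)).map i) x ^ a b := by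
        apply Finset.prod_congr rfl
        intro b _
        rw [hπ2 b x hxD']
      rw [h1, prod_reindex (y := fun c => detb ((e c).map i) x) (fun b =>
        detb_ne (hsplK.idem b) hx (hxD' _ (hsplK.mem b))) a π]
      refine hxc _ a₀ ?_ c hc
      intro n hn
      obtain ⟨n', hn', hnn⟩ := galois τ n hn
      refine Eq.trans ?_ (ha n' hn')
      congr 1
      have h2 : ∀ c, (∑ b, if π b = c then a b else 0) * (n c : ℤ) =
          ∑ b, if π b = c then a b * (n c : ℤ) else 0 := by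
        intro c
        rw [Finset.sum_mul]
        apply Finset.sum_congr rfl
        intro b _
        rw [ite_mul, zero_mul]
      simp only [h2]
      rw [Finset.sum_comm]
      apply Finset.sum_congr rfl
      intro b _
      rw [Finset.sum_ite_eq, if_pos (Finset.mem_univ _), hnn b (π b) (hπ3 b)]
  · rintro ⟨hx, hxP⟩
    have hxD : ∀ d ∈ D, x * d.map (algebraMap ℚ K) = d.map (algebraMap ℚ K) * x := by
      intro d hd
      rw [← sub_eq_zero]
      ext a b
      rw [← ev1, hxP _ (Or.inl (Or.inl ⟨d, hd, a, b, rfl⟩)), Matrix.zero_apply]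
    have hxJ : xᵀ * J * x = ((xᵀ * J * x) k l / J k l) • J := by
      ext a b
      have h1 := hxP _ (Or.inl (Or.inr ⟨a, b, rfl⟩))
      rw [ev2, sub_eq_zero] at h1
      rw [Matrix.smul_apply, smul_eq_mul, div_mul_eq_mul_div, ← h1,
        mul_div_cancel_right₀ _ hklJ]
    refine ⟨⟨hx, hxD, _, hxJ⟩, ?_⟩
    intro a a₀ ha c hc
    have hc' : xᵀ * J * x = c • J := hc
    have hc0 := hmult0 x hx c hc'
    have h1 := (hPd (a, a₀) K i (fun q : ι × ι => x q.1 q.2)).1
      (fun f hf => hxP f (Or.inr ⟨a, a₀, ha, hf⟩)) 1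
    rw [hchar x hx (H76RM.comm_span hxD) c hc0 hc' a a₀] at h1
    exact h1

end Pool.Agent.H76U
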