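import Pool.Agent.Lib.H76U.CorePair

/-!
# Operators of square zero are sums of core operators
-/

set_option autoImplicit false
set_option linter.unusedSectionVars false
namespace Pool.Agent.H76U
open Module Pool.Agent.H53Toric

variable {K : Type*} [Field K] {V : Type*} [AddCommGroup V] [Module K V]
variable {B : Type*} [Fintype B] [DecidableEq B] {Γ : Type*} [Group Γ]
variable {ω : V →ₗ[K] V →ₗ[K] K} {e : B → Module.End K V} {bar : B → B}
    {g : Submodule K (Module.End K V)} {r : Γ →* Module.End K V} {𝓗 : Set (Module.End K V)}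

namespace Big

variable (h : Big ω e bar g r 𝓗)
include h

theorem span_self [CharZero K] [FiniteDimensional K V] {k : Submodule K (Module.End K V)}
    {c : B} (hc : bar c = c) (hfu : Fu ω e bar k c) {T : Module.End K V} (hT : T ∈ g) :
    ∃ Z ∈ k, Z * e c = T * e c := by
  set bs := Module.finBasis K V with hbs
  have ha : ∀ i, ∃ a, ∀ v, bs.coord i v = ω v a := fun i => h.surj (bs.coord i)
  choose a ha using ha
  set p := fun i => T (e c (bs i)) with hp
  set q := fun i => e c (a i) with hq
  have hpc : ∀ i, e c (p i) = p i := fun i => h.fixA hT (h.idem' c _)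
  have hqc : ∀ i, e c (q i) = q i := fun i => h.idem' c _
  have h1 : ∀ v, T (e c v) = ∑ i, ω v (q i) • p i := by
    intro v
    have e1 : e c v = ∑ i, ω (e c v) (a i) • bs i := by
      conv_lhs => rw [← bs.sum_repr (e c v)]
      apply Finset.sum_congr rfl
      intro i _
      rw [← ha i]; rfl
    have e2 : T (e c (e c v)) = ∑ i, ω (e c v) (a i) • p i := by
      conv_lhs => rw [e1]
      rw [map_sum, map_sum]
      apply Finset.sum_congr rfl
      intro i _
      rw [map_smul, map_smul]
    rw [h.idem'] at e2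
    rw [e2]
    apply Finset.sum_congr rfl
    intro i _
    rw [h.self, hc]
  have h2 : ∀ v, T (e c v) = ∑ i, ω v (p i) • q i := by
    intro v
    rw [← sub_eq_zero]
    apply h.nd
    intro y
    have e1 : ω (T (e c v)) y = - ω (e c v) (T (e c y)) := by
      rw [h.skew T hT]
      congr 1
      have : T (e c y) = e c (T y) := (h.ecomm hT c y).symm
      rw [this]
      have h3 := h.self c v (e c (T y))
      rw [hc, h.idem'] at h3
      rw [h3]
      have h4 := h.self c v (T y)
      rw [hc] at h4
      exact h4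
    rw [map_sub, LinearMap.sub_apply, e1, h1 y, map_sum, map_sum, LinearMap.sum_apply,
      sub_eq_zero, ← Finset.sum_neg_distrib]
    apply Finset.sum_congr rfl
    intro i _
    have h3 : ω (e c v) (p i) = ω v (p i) := by
      rw [h.self, hc, hpc]
    rw [map_smul, map_smul, LinearMap.smul_apply, smul_eq_mul, smul_eq_mul, h3,
      h.anti y (q i)]
    ring
  have hcore : ∀ d, e c d = d → ∃ A ∈ k, A * e c = tw ω d d := fun d hd =>
    hfu d d (h.core_self hc hd)
  have hP : ∀ i, ∃ A ∈ k, A * e c = tw ω (p i + q i) (p i + q i) := fun i =>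
    hcore _ (by rw [map_add, hpc, hqc])
  have hQ : ∀ i, ∃ A ∈ k, A * e c = tw ω (p i) (p i) := fun i => hcore _ (hpc i)
  have hR : ∀ i, ∃ A ∈ k, A * e c = tw ω (q i) (q i) := fun i => hcore _ (hqc i)
  choose P hPk hPc using hP
  choose Q hQk hQc using hQ
  choose R hRk hRc using hR
  refine ⟨(1 / 2 : K) • ∑ i, (P i - Q i - R i), k.smul_mem _ (k.sum_mem fun i _ =>
    k.sub_mem (k.sub_mem (hPk i) (hQk i)) (hRk i)), ?_⟩
  have h5 : ∀ i, (P i - Q i - R i) * e c = tw ω (p i) (q i) + tw ω (q i) (p i) := by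
    intro i
    rw [sub_mul, sub_mul, hPc, hQc, hRc, tw_add_left, tw_add_right, tw_add_right]
    abel
  rw [smul_mul_assoc, Finset.sum_mul]
  simp only [h5]
  ext v
  change (1 / 2 : K) • (∑ i, (tw ω (p i) (q i) + tw ω (q i) (p i))) v = T (e c v)
  rw [LinearMap.sum_apply]
  simp only [LinearMap.add_apply, tw_apply]
  rw [Finset.sum_add_distrib, ← h1, ← h2, ← two_smul K, smul_smul]
  norm_num

theorem span_unit [CharZero K] [FiniteDimensional K V] {k : Submodule K (Module.End K V)}
    {c : B} (hc : bar c ≠ c) (hfu : Fu ω e bar k c) {M : Module.End K V} (hM : M ∈ g)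
    (hM2 : M * M = 0) : ∃ Z ∈ k, Z * e c = M * e c := by
  set W := LinearMap.range (M * e c) with hW
  set bs := Module.finBasis K W with hbs
  have ha : ∀ i, ∃ a, ∀ v, (bs.coord i ∘ₗ (M * e c).rangeRestrict) v = ω v a := fun i =>
    h.surj _
  choose a ha using ha
  have hMe : ∀ v, (M * e c) v = M (e c v) := fun _ => rfl
  have hyc : ∀ i, e c (bs i).1 = (bs i).1 := by
    intro i
    obtain ⟨z, hz⟩ := (bs i).2
    rw [← hz, hMe]
    exact h.fixA hM (h.idem' c z)
  have hy0 : ∀ i, (M * e c) (bs i).1 = 0 := by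
    intro i
    obtain ⟨z, hz⟩ := (bs i).2
    rw [← hz, hMe, hMe, h.fixA hM (h.idem' c z)]
    have := congrArg (fun f : Module.End K V => f (e c z)) hM2
    exact this
  have h1 : ∀ v, M (e c v) = ∑ i, ω v (e (bar c) (a i)) • (bs i).1 := by
    intro v
    have e1 := congrArg Subtype.val (bs.sum_repr ((M * e c).rangeRestrict (e c v)))
    rw [Submodule.coe_sum] at e1
    have e2 : ((M * e c).rangeRestrict (e c v)).1 = M (e c v) := by
      change M (e c (e c v)) = _
      rw [h.idem']
    rw [← e2, ← e1]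
    apply Finset.sum_congr rfl
    intro i _
    rw [← h.self, ← ha i (e c v)]
    rfl
  have hcore : ∀ i, Core ω e bar c (bs i).1 (e (bar c) (a i)) := by
    intro i
    refine h.core_isot hc (hyc i) (h.idem' _ _) ?_
    rw [← h.self, hyc, ← ha]
    have : (M * e c).rangeRestrict (bs i).1 = 0 := Subtype.ext (hy0 i)
    rw [LinearMap.comp_apply, this, map_zero]
  have hP : ∀ i, ∃ A ∈ k, A * e c = tw ω (bs i).1 (e (bar c) (a i)) := fun i =>
    hfu _ _ (hcore i)
  choose P hPk hPc using hP
  refine ⟨∑ i, P i, k.sum_mem fun i _ => hPk i, ?_⟩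
  rw [Finset.sum_mul]
  simp only [hPc]
  ext v
  rw [LinearMap.sum_apply]
  simp only [tw_apply]
  rw [← h1]; rfl

theorem sq_span [CharZero K] [FiniteDimensional K V] {k : Submodule K (Module.End K V)}
    {c : B} (hfu : Fu ω e bar k c) {M : Module.End K V} (hM : M ∈ g)
    (hM2 : M * M = 0) : ∃ Z ∈ k, Z * e c = M * e c := by
  by_cases hc : bar c = c
  · exact h.span_self hc hfu hM
  · exact h.span_unit hc hfu hM hM2

end Big

end Pool.Agent.H76U
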