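import Pool.Agent.Lib.H76U.Coef

/-!
# The twist lemma
-/

set_option autoImplicit false
set_option linter.unusedSectionVars false
namespace Pool.Agent.H76U
open Module Pool.Agent.H53Toric

variable {K : Type*} [Field K] {V : Type*} [AddCommGroup V] [Module K V]
variable {B : Type*} [Fintype B] [DecidableEq B] {Γ : Type*} [Group Γ]
variable {ω : V →ₗ[K] V →ₗ[K] K} {e : B → Module.End K V} {bar : B → B}
    {g : Submodule K (Module.End K V)} {r : Γ →* Module.End K V} {𝓗 : Set (Module.End K V)}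

namespace Big

variable (h : Big ω e bar g r 𝓗)
include h

theorem conj_mem {k : Module.End K V} (hk : k ∈ 𝓗) {t : K} (ht : t ≠ 0) (z : Γ) :
    ∃ y, r y = 1 + (t - 1) • (r z⁻¹ * k * r z) ∧
      ∃ μ, r μ = 1 + (t - 1) • k ∧ y = z⁻¹ * μ * z := by
  obtain ⟨μ, hμ⟩ := h.hexp k hk t ht
  refine ⟨z⁻¹ * μ * z, ?_, μ, hμ, rfl⟩
  have h1 : r z⁻¹ * r z = 1 := by rw [← map_mul, inv_mul_cancel, map_one]
  rw [map_mul, map_mul, hμ, mul_add, add_mul, mul_one, h1, mul_smul_comm, smul_mul_assoc]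

/-- one conjugate -/
theorem twist1 [CharZero K] [FiniteDimensional K V] {u w u' w' : V} (huw : ω u w = 0)
    (hu'w' : ω u' w' = 0)
    (mult : ∀ x y, ω (r x u) w * ω (r y u) w * ω (r (x * y) u') w' =
      ω (r x u') w' * ω (r y u') w' * ω (r (x * y) u) w)
    (hF : ∃ x, ω (r x u) w ≠ 0) (hF' : ∃ x, ω (r x u') w' ≠ 0)
    {k : Module.End K V} (hk : k ∈ 𝓗) (z : Γ)
    (hz : ω (k (r z u)) (r z w) ≠ 0) {t : K} (ht : t ≠ 0) {y : Γ} (hy : r y =
      1 + (t - 1) • (r z⁻¹ * k * r z)) (x : Γ) :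
    ω (r (y * x) u) w * ω (r x u') w' = ω (r (y * x) u') w' * ω (r x u) w := by
  set kz := r z⁻¹ * k * r z with hkz
  -- linear functions
  have hFk : ω (kz u) w ≠ 0 := by
    obtain ⟨c, hc, -, -, h1⟩ := h.move z
    have : ω (kz u) w = c⁻¹ * ω (k (r z u)) (r z w) := h1 _ _
    rw [this]
    exact mul_ne_zero (inv_ne_zero hc) hz
  have hlin : ∀ t : K, t ≠ 0 → ∀ x, (t - 1) * ω (kz u) w * ω (r x u) w *
      (ω (r x u') w' + (t - 1) * ω (kz (r x u')) w') =
      (t - 1) * ω (kz u') w' * ω (r x u') w' *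
      (ω (r x u) w + (t - 1) * ω (kz (r x u)) w) := by
    intro t ht x
    obtain ⟨y, hy, -⟩ := h.conj_mem hk ht z
    have h1 := mult y x
    rw [h.rmul, h.rmul, hy] at h1
    simp only [LinearMap.add_apply, LinearMap.smul_apply, Module.End.one_apply, map_add,
      map_smul, smul_eq_mul, huw, hu'w', zero_add] at h1
    exact h1
  have h2 := hlin 2 (by norm_num)
  have h3 := hlin 3 (by norm_num)
  have hlin2 : ∀ x, ω (kz u) w * ω (r x u) w * ω (kz (r x u')) w' =
      ω (kz u') w' * ω (r x u') w' * ω (kz (r x u)) w := by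
    intro x
    linear_combination (1 / 2 : K) * h3 x - h2 x
  have hlin1 : ∀ x, ω (kz u) w * ω (r x u) w * ω (r x u') w' =
      ω (kz u') w' * ω (r x u') w' * ω (r x u) w := by
    intro x
    linear_combination h2 x - hlin2 x
  have heq : ω (kz u) w = ω (kz u') w' := by
    obtain ⟨x, hx1, hx2⟩ := h.prime2 (h.cf u w) (h.cf u' w') hF hF'
    have h4 := hlin1 x
    have h5 : (ω (kz u) w - ω (kz u') w') * (ω (r x u) w * ω (r x u') w') = 0 := by
      linear_combination h4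
    rcases mul_eq_zero.1 h5 with h6 | h6
    · exact sub_eq_zero.1 h6
    · exact absurd h6 (mul_ne_zero hx1 hx2)
  have hS1 : ω (r x u) w * ω (kz (r x u')) w' = ω (r x u') w' * ω (kz (r x u)) w := by
    have h4 := hlin2 x
    rw [← heq] at h4
    have h5 : ω (kz u) w * (ω (r x u) w * ω (kz (r x u')) w' -
        ω (r x u') w' * ω (kz (r x u)) w) = 0 := by linear_combination h4
    exact sub_eq_zero.1 ((mul_eq_zero.1 h5).resolve_left hFk)
  rw [h.rmul, h.rmul, hy]
  simp only [LinearMap.add_apply, LinearMap.smul_apply, Module.End.one_apply, map_add,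
    map_smul, smul_eq_mul]
  linear_combination (-(t - 1)) * hS1

/-- one generator of the monoid -/
theorem twist2 [CharZero K] [FiniteDimensional K V] {u w u' w' : V} (huw : ω u w = 0)
    (hu'w' : ω u' w' = 0)
    (mult : ∀ x y, ω (r x u) w * ω (r y u) w * ω (r (x * y) u') w' =
      ω (r x u') w' * ω (r y u') w' * ω (r (x * y) u) w)
    (hF : ∃ x, ω (r x u) w ≠ 0) (hF' : ∃ x, ω (r x u') w' ≠ 0)
    (hG' : ∃ x, ω u' (r x w') ≠ 0)
    {k : Module.End K V} (hk : k ∈ 𝓗) (hz : ∃ z, ω (k (r z u)) (r z w) ≠ 0) {t : K}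
    (ht : t ≠ 0) {μ : Γ} (hμ : r μ = 1 + (t - 1) • k) (y : Γ) :
    ω (r (μ * y) u) w * ω (r y u') w' = ω (r (μ * y) u') w' * ω (r y u) w := by
  obtain ⟨z, hz1, hz2⟩ := h.prime2 (p := fun z => ω (k (r z u)) (r z w))
    (q := fun z => ω u' (r z w')) (by
      have := h.cf2 k 1 u w
      exact this) (h.cf' u' w') hz hG'
  have hE' : ω (r z⁻¹ u') w' ≠ 0 := by
    obtain ⟨c, hc, -, -, h1⟩ := h.move z
    rw [h1]
    exact mul_ne_zero (inv_ne_zero hc) hz2
  have hk1 : r (z⁻¹ * μ * z) = 1 + (t - 1) • (r z⁻¹ * k * r z) := by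
    have h1 : r z⁻¹ * r z = 1 := by rw [← map_mul, inv_mul_cancel, map_one]
    rw [map_mul, map_mul, hμ, mul_add, add_mul, mul_one, h1, mul_smul_comm, smul_mul_assoc]
  have key : ∀ y, (ω (r (z⁻¹ * μ * y) u') w' * ω (r (z⁻¹ * y) u) w) *
      (ω (r (μ * y) u) w * ω (r y u') w' - ω (r (μ * y) u') w' * ω (r y u) w) = 0 := by
    intro y
    have hP := h.twist1 huw hu'w' mult hF hF' hk z hz1 ht hk1 (z⁻¹ * y)
    have e1 : z⁻¹ * μ * z * (z⁻¹ * y) = z⁻¹ * μ * y := by group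
    rw [e1] at hP
    have hM1 := mult z⁻¹ (μ * y)
    have hM2 := mult z⁻¹ y
    rw [← mul_assoc] at hM1
    have h5 : ω (r z⁻¹ u') w' * ((ω (r (z⁻¹ * μ * y) u') w' * ω (r (z⁻¹ * y) u) w) *
        (ω (r (μ * y) u) w * ω (r y u') w' - ω (r (μ * y) u') w' * ω (r y u) w)) = 0 := by
      linear_combination (-ω (r (z⁻¹ * μ * y) u') w' * ω (r (μ * y) u) w) * hM2 +
        (ω (r y u) w * ω (r (z⁻¹ * y) u') w') * hM1 +
        (ω (r z⁻¹ u') w' * ω (r (μ * y) u') w' * ω (r y u) w) * hP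
    exact (mul_eq_zero.1 h5).resolve_left hE'
  rcases h.prime (fun y => ω (r (z⁻¹ * μ * y) u') w' * ω (r (z⁻¹ * y) u) w)
    (mul_mem (h.cfL _ _ _) (h.cfL _ _ _))
    (fun y => ω (r (μ * y) u) w * ω (r y u') w' - ω (r (μ * y) u') w' * ω (r y u) w)
    (sub_mem (mul_mem (h.cfL _ _ _) (h.cf _ _)) (mul_mem (h.cfL _ _ _) (h.cf _ _))) key
    with h6 | h6
  · exfalso
    obtain ⟨x1, hx1⟩ := hF'
    obtain ⟨x2, hx2⟩ := hF
    obtain ⟨y, hy1, hy2⟩ := h.prime2 (h.cfL (z⁻¹ * μ) u' w') (h.cfL z⁻¹ u w)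
      ⟨(z⁻¹ * μ)⁻¹ * x1, by simpa using hx1⟩ ⟨z * x2, by simpa using hx2⟩
    exact mul_ne_zero hy1 hy2 (h6 y)
  · exact sub_eq_zero.1 (h6 y)

/-- **The twist lemma.** -/
theorem twist [CharZero K] [FiniteDimensional K V] {b c : B} (hbc : b ≠ c) {u w u' w' : V}
    (hu : e b u = u) (hw : e (bar b) w = w) (hu' : e c u' = u') (hw' : e (bar c) w' = w')
    (hu0 : u ≠ 0) (hw0 : w ≠ 0) (hu'0 : u' ≠ 0) (hw'0 : w' ≠ 0)
    (huw : ω u w = 0) (hu'w' : ω u' w' = 0)
    (mult : ∀ x y, ω (r x u) w * ω (r y u) w * ω (r (x * y) u') w' =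
      ω (r x u') w' * ω (r y u') w' * ω (r (x * y) u) w)
    (hh : ∀ k ∈ 𝓗, ∃ z, ω (k (r z u)) (r z w) ≠ 0) : False := by
  have hF := h.ex hu hw hu0 hw0
  have hF' := h.ex hu' hw' hu'0 hw'0
  have hG' := h.ex' hu' hw' hu'0 hw'0
  have hP : ∀ m ∈ hmon 𝓗, ∀ μ, r μ = m → ∀ y,
      ω (r (μ * y) u) w * ω (r y u') w' = ω (r (μ * y) u') w' * ω (r y u) w := by
    intro m hm
    induction hm using Submonoid.closure_induction with
    | mem m hm =>
      obtain ⟨k, hk, t, ht, rfl⟩ := hm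
      intro μ hμ y
      exact h.twist2 huw hu'w' mult hF hF' hG' hk (hh k hk) ht hμ y
    | one =>
      intro μ hμ y
      rw [h.rmul, h.rmul, hμ]
      simp only [Module.End.one_apply]
      ring
    | mul a b ha hb iha ihb =>
      intro μ hμ
      obtain ⟨α, hα⟩ := h.hmon_mem ha
      obtain ⟨β, hβ⟩ := h.hmon_mem hb
      have hab : ∀ y v, r (μ * y) v = r (α * (β * y)) v := by
        intro y v
        rw [h.rmul, h.rmul, h.rmul, hμ, hα, hβ]; rfl
      have key : ∀ y, ω (r (β * y) u') w' *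
          (ω (r (μ * y) u) w * ω (r y u') w' - ω (r (μ * y) u') w' * ω (r y u) w) = 0 := by
        intro y
        rw [hab, hab]
        have h1 := iha α hα (β * y)
        have h2 := ihb β hβ y
        linear_combination ω (r y u') w' * h1 + ω (r (α * (β * y)) u') w' * h2
      intro y
      rcases h.prime (fun y => ω (r (β * y) u') w') (h.cfL _ _ _)
        (fun y => ω (r (μ * y) u) w * ω (r y u') w' - ω (r (μ * y) u') w' * ω (r y u) w)
        (sub_mem (mul_mem (h.cfL _ _ _) (h.cf _ _)) (mul_mem (h.cfL _ _ _) (h.cf _ _))) key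
        with h6 | h6
      · exfalso
        obtain ⟨x1, hx1⟩ := hF'
        exact hx1 (by simpa using h6 (β⁻¹ * x1))
      · exact sub_eq_zero.1 (h6 y)
  obtain ⟨y, hy1, hy2⟩ := h.prime2 (h.cf u w) (h.cf u' w') hF hF'
  set v := r y u + r y u' with hv
  set q := ω (r y u') w' • w - ω (r y u) w • w' with hq
  have hbb : bar b ≠ bar c := fun hcon => hbc (h.bar_inj hcon)
  have hyu : e b (r y u) = r y u := h.fixr y hu
  have hyu' : e c (r y u') = r y u' := h.fixr y hu'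
  have hfal := h.falt q v
    (by rw [hq, map_sub, map_smul, map_smul, h.fsum hw, h.fsum hw'])
    (by rw [hv, map_add, h.fsum hyu, h.fsum hyu']) (by
      intro m hm
      obtain ⟨μ, rfl⟩ := h.hmon_mem hm
      have h1 := hP _ hm μ rfl y
      rw [h.rmul, h.rmul] at h1
      have h2 : ω (r μ (r y u)) w' = 0 := h.perp (b := b) (c := bar c) (Ne.symm hbb)
        (h.fixr μ hyu) hw'
      have h3 : ω (r μ (r y u')) w = 0 := h.perp (b := c) (c := bar b) hbb
        (h.fixr μ hyu') hw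
      rw [hv, hq]
      simp only [map_add, map_sub, map_smul, LinearMap.add_apply, smul_eq_mul, h2, h3]
      linear_combination h1) b
  rcases hfal with h4 | h4
  · rw [hv, map_add, hyu, h.orthf hbc hyu', add_zero] at h4
    apply hy1
    change ω (r y u) w = 0
    rw [h4, map_zero]; rfl
  · rw [hq, map_sub, map_smul, map_smul, hw, h.orthf hbb hw', smul_zero, sub_zero] at h4
    rcases smul_eq_zero.1 h4 with h5 | h5
    · exact hy2 h5
    · exact hw0 h5

end Big

end Pool.Agent.H76U
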